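import Pool.Agent.Work.MP_6237c7_co.LV.Fibre

set_option autoImplicit false
set_option linter.unusedSectionVars false

namespace H79KMW

open Finsupp MeasureTheory
open scoped Pointwise

/-- Polynomial bound for the factor. -/
lemma poly_bound (d J DF c1 c2 e Δ V : ℕ) (hV0 : 0 < V) (hΔ : 0 < Δ)
    (hV : V ≤ c1 * (c2 * Δ) ^ e) :
    J ^ (2 * (d + 1) * Nat.clog 2 V) * DF ≤
      (c1 ^ (4 * (d + 1) * J) * c2 ^ (e * (4 * (d + 1) * J)) * DF + e * (4 * (d + 1) * J)) *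
        Δ ^ (c1 ^ (4 * (d + 1) * J) * c2 ^ (e * (4 * (d + 1) * J)) * DF +
          e * (4 * (d + 1) * J)) := by
  set E' : ℕ := 4 * (d + 1) * J with hE'
  have h1 := pow_bound d J V hV0
  have h2 : V ^ E' ≤ (c1 * (c2 * Δ) ^ e) ^ E' := Nat.pow_le_pow_left hV _
  have h3 : (c1 * (c2 * Δ) ^ e) ^ E' = c1 ^ E' * c2 ^ (e * E') * Δ ^ (e * E') := by
    rw [mul_pow, ← pow_mul, mul_pow, mul_assoc]
  calc J ^ (2 * (d + 1) * Nat.clog 2 V) * DF ≤ (c1 ^ E' * c2 ^ (e * E') * Δ ^ (e * E')) * DF :=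
        Nat.mul_le_mul_right _ (h1.trans (h2.trans h3.le))
    _ = (c1 ^ E' * c2 ^ (e * E') * DF) * Δ ^ (e * E') := by ring
    _ ≤ (c1 ^ E' * c2 ^ (e * E') * DF + e * E') * Δ ^ (c1 ^ E' * c2 ^ (e * E') * DF + e * E') := by
        refine Nat.mul_le_mul (Nat.le_add_right _ _) ?_
        exact Nat.pow_le_pow_right hΔ (Nat.le_add_left _ _)

/-- The theorem for polytopes bounded in `m` directions and modular in the others. -/
theorem tower (m n w : ℕ) : ∃ C : ℕ, ∀ Δ : ℕ, 0 < Δ → ∃ k : ℕ, 0 < k ∧ k ≤ C * Δ ^ C ∧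
    ∀ V0 : Finset (Fin (m + n) → ℝ),
      (∀ x ∈ V0, ∀ i, ∃ z : ℤ, x i = (z : ℝ)) →
      (∀ x ∈ V0, ∀ i : Fin m, |x (Fin.castAdd n i)| ≤ (w : ℝ)) → V0.Nonempty →
      ∀ (r : ℕ) (A : Matrix (Fin r) (Fin (m + n)) ℤ) (b0 : Fin r → ℤ),
        convexHull ℝ (V0 : Set (Fin (m + n) → ℝ)) =
          {x | ∀ j, ∑ i, (A j i : ℝ) * x i ≤ (b0 j : ℝ)} →
        (∀ f : Fin n → Fin r, |(A.submatrix f (Fin.natAdd m)).det| ≤ (Δ : ℤ)) →
        ∃ K : Geometry.SimplicialComplex ℝ (Fin (m + n) → ℝ), K.faces.Finite ∧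
          K.space = (k : ℝ) • convexHull ℝ (V0 : Set (Fin (m + n) → ℝ)) ∧
          (∀ s ∈ K.faces, ∀ x ∈ s, ∀ i, ∃ z : ℤ, x i = (z : ℝ)) ∧
          (∀ s ∈ K.faces, s.card = m + n + 1 →
            volume (convexHull ℝ (s : Set (Fin (m + n) → ℝ))) =
              (((m + n).factorial : ENNReal))⁻¹) := by
  classical
  obtain ⟨J, hJ⟩ := roundProp_all (m + n)
  let N1 : ℕ := (m + 1).factorial * (w + 2) ^ (m + 1)
  have hN1pos : 0 < N1 := Nat.mul_pos (Nat.factorial_pos _) (pow_pos (by omega) _)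
  have hneg : ∀ i, ∃ j, fam m N1 j = - fam m N1 i := by
    intro i
    obtain ⟨j, hj⟩ := fam_surj (N := N1) (-(fam m N1 i)) (fun k => by
      rw [Pi.neg_apply, abs_neg]; exact fam_abs i k)
    exact ⟨j, hj⟩
  have he : ∀ k : Fin m, ∃ j, fam m N1 j = Pi.single k 1 := by
    intro k
    refine fam_surj (Pi.single k 1) (fun l => ?_)
    by_cases h : l = k
    · subst h
      rw [Pi.single_eq_same, abs_one]
      exact_mod_cast hN1pos
    · rw [Pi.single_eq_of_ne h, abs_zero]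
      exact Int.natCast_nonneg _
  obtain ⟨D, hD, b, hb⟩ := exists_rep (fam m N1) hneg he
  let F : ℕ := N1.factorial
  have hF : 0 < F := Nat.factorial_pos _
  have hFd : ∀ δ : ℤ, δ ≠ 0 → |δ| ≤ ((m + 1).factorial : ℤ) * ((w : ℤ) + 2) ^ (m + 1) →
      δ ∣ (F : ℤ) := by
    intro δ hδ hδ2
    have h1 : δ.natAbs ∣ F := by
      refine Nat.dvd_factorial (Int.natAbs_pos.2 hδ) ?_
      rw [Int.abs_eq_natAbs] at hδ2
      exact_mod_cast hδ2
    exact Int.natAbs_dvd.1 (Int.natCast_dvd_natCast.2 h1)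
  let c1 : ℕ := (m + n + 1).factorial
  let c2 : ℕ := 1 + D * F * w + 2 * n * n
  refine ⟨c1 ^ (4 * (m + n + 1) * J) * c2 ^ ((m + n + 1) * (4 * (m + n + 1) * J)) * (D * F) +
    (m + n + 1) * (4 * (m + n + 1) * J), fun Δ hΔ => ?_⟩
  let Vv : ℕ := (m + n + 1).factorial * (1 + D * F * w + 2 * n * (n * Δ)) ^ (m + n + 1)
  have hVpos : 0 < Vv := Nat.mul_pos (Nat.factorial_pos _) (pow_pos (by omega) _)
  have hVle : Vv ≤ c1 * (c2 * Δ) ^ (m + n + 1) := by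
    refine Nat.mul_le_mul_left _ (Nat.pow_le_pow_left ?_ _)
    show 1 + D * F * w + 2 * n * (n * Δ) ≤ (1 + D * F * w + 2 * n * n) * Δ
    have h1 : 1 + D * F * w ≤ (1 + D * F * w) * Δ := Nat.le_mul_of_pos_right _ hΔ
    have h2 : (1 + D * F * w + 2 * n * n) * Δ = (1 + D * F * w) * Δ + 2 * n * (n * Δ) := by ring
    omega
  refine ⟨J ^ (2 * (m + n + 1) * Nat.clog 2 Vv) * (D * F),
    Nat.mul_pos (pow_pos hJ.1 _) (Nat.mul_pos hD hF),
    poly_bound (m + n) J (D * F) c1 c2 (m + n + 1) Δ Vv hVpos hΔ hVle, ?_⟩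
  intro V0 hint hbox hne r A b0 hAb hmin
  -- lifted vertices
  let V : Finset (Fin (m + n + 1) → ℤ) := V0.image lft
  have hV1 : ∀ v ∈ V, v 0 = 1 := by
    intro v hv
    obtain ⟨x, _, rfl⟩ := Finset.mem_image.1 hv
    rfl
  have hVtl : tl '' (V : Set (Fin (m + n + 1) → ℤ)) = (V0 : Set (Fin (m + n) → ℝ)) := by
    ext x
    constructor
    · rintro ⟨_, hv, rfl⟩
      obtain ⟨z, hz, rfl⟩ := Finset.mem_image.1 (Finset.mem_coe.1 hv)
      rw [tl_lft (hint z hz)]; exact hz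
    · intro hx
      exact ⟨lft x, Finset.mem_coe.2 (Finset.mem_image_of_mem _ hx), tl_lft (hint x hx)⟩
  have hVw : ∀ v ∈ V, ∀ k : Fin m, |v (Fin.castAdd n k).succ| ≤ (w : ℤ) := by
    intro v hv k
    obtain ⟨x, hx, rfl⟩ := Finset.mem_image.1 hv
    have h1 := hbox x hx k
    have h2 : ((lft x (Fin.castAdd n k).succ : ℤ) : ℝ) = x (Fin.castAdd n k) :=
      congrFun (tl_lft (hint x hx)) (Fin.castAdd n k)
    rw [← h2, ← Int.cast_abs] at h1
    exact_mod_cast h1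
  have hhull : {x : Fin (m + n) → ℝ | spl x ∈ PV V} = convexHull ℝ (V0 : Set (Fin (m + n) → ℝ)) := by
    rw [PV_hull hV1, hVtl]
  let A1 : Fin r → Fin m → ℤ := fun j k => A j (Fin.castAdd n k)
  let A2 : Fin r → Fin n → ℤ := fun j k => A j (Fin.natAdd m k)
  have hH : ∀ q, q ∈ PV V ↔ ∀ j, ap (A1 j) q.1 + ap (A2 j) q.2 ≤ ((b0 j : ℤ) : ℝ) := by
    intro q
    have h1 : q ∈ PV V ↔ Fin.append q.1 q.2 ∈ convexHull ℝ (V0 : Set (Fin (m + n) → ℝ)) := by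
      rw [← hhull]
      show _ ↔ spl (Fin.append q.1 q.2) ∈ PV V
      rw [spl_append]
    rw [h1, hAb]
    refine forall_congr' fun j => ?_
    have h2 : ∑ i, (A j i : ℝ) * Fin.append q.1 q.2 i = ap (A1 j) q.1 + ap (A2 j) q.2 := by
      rw [Fin.sum_univ_add]
      simp only [Fin.append_left, Fin.append_right]
      rfl
    rw [h2]
  have hPne : (PV V).Nonempty := by
    obtain ⟨x, hx⟩ := hne
    have h1 : x ∈ convexHull ℝ (V0 : Set (Fin (m + n) → ℝ)) := subset_convexHull ℝ _ hx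
    rw [← hhull] at h1
    exact ⟨_, h1⟩
  have hA2 : ∀ f : Fin n → Fin r, |(Matrix.of (fun i => A2 (f i))).det| ≤ (Δ : ℤ) := hmin
  obtain ⟨f0, hf0⟩ := exists_rows (Matrix.of A2) (fun x hx => PV_inj hV1 hH hPne x hx)
  have hLMP : FibLMP (fam m N1) D F b {z : Fin m → ℝ | ∀ k, |z k| ≤ (w : ℝ)} (PV V)
      (fun k => A2 (f0 k)) (n * Δ) := PV_LMP hV1 hH hPne hD hF hVw hFd hA2 f0
  have hWb : Bornology.IsBounded {z : Fin m → ℝ | ∀ k, |z k| ≤ (w : ℝ)} := by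
    rw [isBounded_iff_forall_norm_le]
    refine ⟨w, fun z hz => ?_⟩
    rw [pi_norm_le_iff_of_nonneg (Nat.cast_nonneg _)]
    exact hz
  have hWc : ∀ x ∈ {z : Fin m → ℝ | ∀ k, |z k| ≤ (w : ℝ)}, ∀ y,
      sg (fam m N1) y ≤ sg (fam m N1) x → y ∈ {z : Fin m → ℝ | ∀ k, |z k| ≤ (w : ℝ)} := by
    intro x hx y hy k
    obtain ⟨i, hi⟩ := he k
    obtain ⟨i', hi'⟩ := hneg i
    have hxk := abs_le.1 (hx k)
    have h1 := ineq_transfer (a := fam m N1) (c := fam m N1 i) ⟨i, rfl⟩ hy (α := -(w : ℤ)) (by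
      rw [hi, ap_single]; push_cast; linarith)
    have h2 := ineq_transfer (a := fam m N1) (c := fam m N1 i') ⟨i', rfl⟩ hy (α := -(w : ℤ)) (by
      rw [hi', ap_neg, hi, ap_single]; push_cast; linarith)
    rw [hi, ap_single] at h1
    rw [hi', ap_neg, hi, ap_single] at h2
    push_cast at h1 h2
    rw [abs_le]
    constructor <;> linarith
  have hPW : ∀ q ∈ PV V, q.1 ∈ {z : Fin m → ℝ | ∀ k, |z k| ≤ (w : ℝ)} := by
    rintro q ⟨μ, hμ0, hμs, hμl, _⟩ k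
    have h0 : ∑ v ∈ V, μ v = 1 := by
      have h1 := congrFun hμl 0
      rw [lc_apply_of_subset μ V hμs] at h1
      have h2 : (Fin.cons 1 q.1 : Fin (m + 1) → ℝ) 0 = 1 := rfl
      rw [h2] at h1
      rw [← h1]
      refine Finset.sum_congr rfl fun v _ => ?_
      have h3 : ub v 0 = 1 := rfl
      rw [h3]; simp
    have h1 := congrFun hμl k.succ
    rw [lc_apply_of_subset μ V hμs] at h1
    have h2 : (Fin.cons 1 q.1 : Fin (m + 1) → ℝ) k.succ = q.1 k := rfl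
    rw [h2] at h1
    rw [← h1]
    refine (Finset.abs_sum_le_sum_abs _ _).trans ?_
    have h3 : ∑ v ∈ V, |μ v * (ub v k.succ : ℝ)| ≤ ∑ v ∈ V, μ v * (w : ℝ) := by
      refine Finset.sum_le_sum fun v hv => ?_
      rw [abs_mul, abs_of_nonneg (hμ0 v)]
      refine mul_le_mul_of_nonneg_left ?_ (hμ0 v)
      rw [← Int.cast_abs]
      have := hVw v hv k
      exact_mod_cast this
    rw [← Finset.sum_mul, h0, one_mul] at h3
    exact h3
  obtain ⟨C, hC, hlv, hMB, hsec⟩ := asm_main (a := fam m N1) (b := b) (D := D) (F := F)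
    (P := PV V) PV_convex (PV_bdd hV1) hD hF hWb hneg he hb hWc (w := w) (fun z hz => hz) hPW
    hf0 hLMP (fun z c hzc ω hω hω1 hωz hωs => PV_grid (fun c hc => fam_surj c hc) (by
      show ((m + 1).factorial : ℤ) * ((w : ℤ) + 2) ^ (m + 1) ≤
        (((m + 1).factorial * (w + 2) ^ (m + 1) : ℕ) : ℤ)
      push_cast
      exact le_rfl) hb hVw z c hzc ω hω hω1 hωz hωs)
  obtain ⟨K, hK1, hK2, hK3, hK4⟩ := main_fan hJ Vv hC hlv hMB
  refine ⟨K, hK1, ?_, hK3, hK4⟩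
  rw [hK2, hsec, hhull, smul_smul]
  congr 1
  push_cast
  ring

end H79KMW
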