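import Pool.Agent.Work.MP_6237c7_co.LV.Grid2

set_option autoImplicit false
set_option linter.unusedSectionVars false

namespace H79KMW

open Finsupp MeasureTheory
open scoped Pointwise

/-- Points of the hull of integer points as means. -/
lemma hull_nu {n : ℕ} {S : Set (Fin n → ℝ)} (hS : S ⊆ Set.range (rv (n := n))) {c : Fin n → ℝ}
    (hc : c ∈ convexHull ℝ S) : ∃ ν : (Fin n → ℤ) →₀ ℝ, (∀ y, 0 ≤ ν y) ∧
      (∑ y ∈ ν.support, ν y = 1) ∧ (∀ k, ∑ y ∈ ν.support, ν y * (y k : ℝ) = c k) ∧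
      ∀ y ∈ ν.support, rv y ∈ S := by
  classical
  have htot : ∀ ν : (Fin n → ℤ) →₀ ℝ, ∑ y ∈ ν.support, ν y =
      Finsupp.linearCombination ℝ (fun _ : Fin n → ℤ => (1:ℝ)) ν := by
    intro ν
    rw [Finsupp.linearCombination_apply, Finsupp.sum]
    simp
  have hco : ∀ (ν : (Fin n → ℤ) →₀ ℝ) (k : Fin n), ∑ y ∈ ν.support, ν y * (y k : ℝ) =
      Finsupp.linearCombination ℝ (fun y : Fin n → ℤ => ((y k : ℤ) : ℝ)) ν := by
    intro ν k
    rw [Finsupp.linearCombination_apply, Finsupp.sum]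
    rfl
  have hsub : convexHull ℝ S ⊆ {c | ∃ ν : (Fin n → ℤ) →₀ ℝ, (∀ y, 0 ≤ ν y) ∧
      (∑ y ∈ ν.support, ν y = 1) ∧ (∀ k, ∑ y ∈ ν.support, ν y * (y k : ℝ) = c k) ∧
      ∀ y ∈ ν.support, rv y ∈ S} := by
    refine convexHull_min ?_ ?_
    · intro x hx
      obtain ⟨y, rfl⟩ := hS hx
      refine ⟨single y 1, ?_, ?_, ?_, ?_⟩
      · intro z; rw [Finsupp.single_apply]; split_ifs <;> norm_num
      · rw [htot, Finsupp.linearCombination_single]; simp
      · intro k
        rw [hco, Finsupp.linearCombination_single]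
        show (1:ℝ) * ((y k : ℤ) : ℝ) = ((y k : ℤ) : ℝ)
        ring
      · intro z hz
        rw [Finset.mem_singleton.1 (Finsupp.support_single_subset hz)]
        exact hx
    · rintro x ⟨ν, h1, h2, h3, h4⟩ x' ⟨ν', h1', h2', h3', h4'⟩ α β hα hβ hαβ
      refine ⟨α • ν + β • ν', ?_, ?_, ?_, ?_⟩
      · intro y
        rw [Finsupp.add_apply, Finsupp.smul_apply, Finsupp.smul_apply, smul_eq_mul, smul_eq_mul]
        exact add_nonneg (mul_nonneg hα (h1 y)) (mul_nonneg hβ (h1' y))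
      · rw [htot, map_add, map_smul, map_smul, ← htot, ← htot, h2, h2', smul_eq_mul, smul_eq_mul]
        linarith
      · intro k
        rw [hco, map_add, map_smul, map_smul, ← hco, ← hco, h3, h3']
        rfl
      · intro y hy
        have h5 := (supp_add_subset (α • ν) (β • ν') (ν.support ∪ ν'.support)
          ((supp_smul_subset _ _ _ (Finset.Subset.refl _)).trans Finset.subset_union_left)
          ((supp_smul_subset _ _ _ (Finset.Subset.refl _)).trans Finset.subset_union_right)) hy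
        rcases Finset.mem_union.1 h5 with h | h
        · exact h4 y h
        · exact h4' y h
  exact hsub hc

section fin
variable {m n : ℕ} {V : Finset (Fin (m + n + 1) → ℤ)}

/-- The polytope in product coordinates. -/
lemma PV_hull (hV1 : ∀ v ∈ V, v 0 = 1) :
    {x : Fin (m + n) → ℝ | spl x ∈ PV V} = convexHull ℝ (tl '' (V : Set (Fin (m + n + 1) → ℤ))) := by
  ext x
  rw [hull_iff hV1]
  constructor
  · rintro ⟨μ, h1, h2, h3, h4⟩
    refine ⟨μ, h1, h2, ext_fin ?_ (fun k => ?_) (fun k => ?_)⟩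
    · have h5 := congrFun h3 0
      rw [lc_apply_of_subset μ V h2] at h5
      rw [lc_apply_of_subset μ V h2]
      have h6 : (Fin.cons 1 (spl x).1 : Fin (m + 1) → ℝ) 0 = 1 := rfl
      rw [h6] at h5
      have h7 : (Fin.cons 1 x : Fin (m + n + 1) → ℝ) 0 = 1 := rfl
      rw [h7, ← h5]
      refine Finset.sum_congr rfl fun v hv => ?_
      have h8 : (id v : Fin (m + n + 1) → ℤ) 0 = 1 := hV1 v hv
      have h9 : ub v 0 = 1 := rfl
      rw [h8, h9]
    · have h5 := congrFun h3 k.succ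
      rw [lc_apply_of_subset μ V h2] at h5
      rw [lc_apply_of_subset μ V h2]
      exact h5
    · have h5 := h4 k
      rw [lc_apply_of_subset μ V h2]
      rw [fb, Finsupp.linearCombination_apply, Finsupp.sum_of_support_subset _ h2 _ (by simp)] at h5
      exact h5
  · rintro ⟨μ, h1, h2, h3⟩
    refine ⟨μ, h1, h2, ?_, fun k => ?_⟩
    · funext k
      refine Fin.cases ?_ (fun k => ?_) k
      · have h5 := congrFun h3 0
        rw [lc_apply_of_subset μ V h2] at h5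
        rw [lc_apply_of_subset μ V h2]
        have h6 : (Fin.cons 1 (spl x).1 : Fin (m + 1) → ℝ) 0 = 1 := rfl
        have h7 : (Fin.cons 1 x : Fin (m + n + 1) → ℝ) 0 = 1 := rfl
        rw [h7] at h5
        rw [h6, ← h5]
        refine Finset.sum_congr rfl fun v hv => ?_
        have h8 : (id v : Fin (m + n + 1) → ℤ) 0 = 1 := hV1 v hv
        have h9 : ub v 0 = 1 := rfl
        rw [h8, h9]
      · have h5 := congrFun h3 (Fin.castAdd n k).succ
        rw [lc_apply_of_subset μ V h2] at h5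
        rw [lc_apply_of_subset μ V h2]
        exact h5
    · have h5 := congrFun h3 (Fin.natAdd m k).succ
      rw [lc_apply_of_subset μ V h2] at h5
      rw [fb, Finsupp.linearCombination_apply, Finsupp.sum_of_support_subset _ h2 _ (by simp)]
      exact h5

lemma spl_append (q : (Fin m → ℝ) × (Fin n → ℝ)) : spl (Fin.append q.1 q.2) = q := by
  refine Prod.ext ?_ ?_
  · funext k
    show Fin.append q.1 q.2 (Fin.castAdd n k) = q.1 k
    rw [Fin.append_left]
  · funext k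
    show Fin.append q.1 q.2 (Fin.natAdd m k) = q.2 k
    rw [Fin.append_right]

lemma PV_bdd (hV1 : ∀ v ∈ V, v 0 = 1) : Bornology.IsBounded (PV V) := by
  classical
  have h1 : IsCompact (convexHull ℝ (tl '' (V : Set (Fin (m + n + 1) → ℤ)))) :=
    ((V.finite_toSet.image tl).isCompact_convexHull ℝ)
  obtain ⟨R, hR⟩ := h1.isBounded.exists_norm_le
  rw [isBounded_iff_forall_norm_le]
  refine ⟨|R|, fun q hq => ?_⟩
  have h2 : Fin.append q.1 q.2 ∈ convexHull ℝ (tl '' (V : Set (Fin (m + n + 1) → ℤ))) := by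
    rw [← PV_hull hV1]
    show spl (Fin.append q.1 q.2) ∈ PV V
    rw [spl_append]; exact hq
  have h3 := (hR _ h2).trans (le_abs_self R)
  rw [Prod.norm_def]
  refine max_le ?_ ?_
  · rw [pi_norm_le_iff_of_nonneg (abs_nonneg R)]
    intro k
    have h4 := (norm_le_pi_norm (Fin.append q.1 q.2) (Fin.castAdd n k)).trans h3
    rw [Fin.append_left] at h4
    exact h4
  · rw [pi_norm_le_iff_of_nonneg (abs_nonneg R)]
    intro k
    have h4 := (norm_le_pi_norm (Fin.append q.1 q.2) (Fin.natAdd m k)).trans h3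
    rw [Fin.append_right] at h4
    exact h4

variable {ι : Type*} {a : ι → Fin m → ℤ} {D F : ℕ} {b : (ι → ℤ) → (Fin m → ℤ)}
  {W : Set (Fin m → ℝ)}

/-- No fibre direction is annihilated. -/
lemma PV_inj {r : ℕ} {A1 : Fin r → Fin m → ℤ} {A2 : Fin r → Fin n → ℤ} {b0 : Fin r → ℝ}
    (hV1 : ∀ v ∈ V, v 0 = 1)
    (hH : ∀ q, q ∈ PV V ↔ ∀ j, ap (A1 j) q.1 + ap (A2 j) q.2 ≤ b0 j) (hne : (PV V).Nonempty)
    (x : Fin n → ℝ) (hx : ∀ j, ap (A2 j) x = 0) : x = 0 := by
  obtain ⟨q, hq⟩ := hne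
  obtain ⟨R, hR⟩ := (PV_bdd hV1).exists_norm_le
  by_contra hne
  have hnx : 0 < ‖x‖ := norm_pos_iff.2 hne
  let t : ℝ := (|R| + ‖q.2‖ + 1) / ‖x‖
  have ht : 0 ≤ t := by positivity
  have hmem : (q.1, q.2 + t • x) ∈ PV V := by
    rw [hH]
    intro j
    show ap (A1 j) q.1 + ap (A2 j) (q.2 + t • x) ≤ b0 j
    rw [ap_add, ap_smul, hx j, mul_zero, add_zero]
    exact (hH q).1 hq j
  have h1 : ‖q.2 + t • x‖ ≤ R := (norm_snd_le ((q.1, q.2 + t • x) :
    (Fin m → ℝ) × (Fin n → ℝ))).trans (hR _ hmem)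
  have h2 : ‖t • x‖ ≤ ‖q.2 + t • x‖ + ‖q.2‖ := by
    have h3 : t • x = (q.2 + t • x) - q.2 := by abel
    calc ‖t • x‖ = ‖(q.2 + t • x) - q.2‖ := by rw [← h3]
      _ ≤ _ := norm_sub_le _ _
  have h3 : ‖t • x‖ = |R| + ‖q.2‖ + 1 := by
    rw [norm_smul, Real.norm_eq_abs, abs_of_nonneg ht]
    show (|R| + ‖q.2‖ + 1) / ‖x‖ * ‖x‖ = _
    exact div_mul_cancel₀ _ hnx.ne'
  have h4 := le_abs_self R
  linarith

/-- Local measures on the fibres of a polytope with modular fibre constraints. -/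
lemma PV_LMP {r w Δ : ℕ} {A1 : Fin r → Fin m → ℤ} {A2 : Fin r → Fin n → ℤ} {b0 : Fin r → ℝ}
    (hV1 : ∀ v ∈ V, v 0 = 1)
    (hH : ∀ q, q ∈ PV V ↔ ∀ j, ap (A1 j) q.1 + ap (A2 j) q.2 ≤ b0 j) (hne : (PV V).Nonempty)
    (hD : 0 < D) (hF : 0 < F)
    (hV : ∀ v ∈ V, ∀ k : Fin m, |v (Fin.castAdd n k).succ| ≤ (w : ℤ))
    (hFd : ∀ δ : ℤ, δ ≠ 0 → |δ| ≤ ((m + 1).factorial : ℤ) * ((w : ℤ) + 2) ^ (m + 1) →
      δ ∣ (F : ℤ))
    (hA : ∀ f : Fin n → Fin r, |(Matrix.of (fun i => A2 (f i))).det| ≤ (Δ : ℤ))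
    (f0 : Fin n → Fin r) :
    FibLMP a D F b W (PV V) (fun k => A2 (f0 k)) (n * Δ) := by
  classical
  intro s _ c hc
  have hE : (0:ℝ) < ((D * F : ℕ) : ℝ) := by exact_mod_cast Nat.mul_pos hD hF
  set E : ℝ := ((D * F : ℕ) : ℝ) with hEdef
  let β : Fin r → ℝ := fun j => E * (b0 j - ap (A1 j) (qt D b s))
  have hscale : ∀ (j : Fin r) (y : Fin n → ℝ), ap (A2 j) (fun k => y k / E) = ap (A2 j) y / E := by
    intro j y
    have h1 : (fun k => y k / E) = E⁻¹ • y := by
      funext k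
      show y k / E = E⁻¹ * y k
      rw [div_eq_inv_mul]
    rw [h1, ap_smul, div_eq_inv_mul]
  have hQ : ∀ y : Fin n → ℝ, (∀ j, ap (A2 j) y ≤ β j) ↔
      (qt D b s, (fun k => y k / E)) ∈ PV V := by
    intro y
    rw [hH]
    refine forall_congr' fun j => ?_
    show ap (A2 j) y ≤ E * (b0 j - ap (A1 j) (qt D b s)) ↔
      ap (A1 j) (qt D b s) + ap (A2 j) (fun k => y k / E) ≤ b0 j
    rw [hscale]
    constructor
    · intro h
      have h1 : ap (A2 j) y / E ≤ b0 j - ap (A1 j) (qt D b s) := by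
        rw [div_le_iff₀ hE]; linarith
      linarith
    · intro h
      have h1 : ap (A2 j) y / E ≤ b0 j - ap (A1 j) (qt D b s) := by linarith
      rw [div_le_iff₀ hE] at h1; linarith
  have hset : {y : Fin n → ℝ | ∀ j, ap (A2 j) y ≤ β j} =
      {y : Fin n → ℝ | (qt D b s, (fun k => y k / E)) ∈ PV V} := by
    ext y; exact hQ y
  have hbd : Bornology.IsBounded {y : Fin n → ℝ | ∀ j, ap (A2 j) y ≤ β j} := by
    obtain ⟨R, hR⟩ := (PV_bdd hV1).exists_norm_le
    rw [isBounded_iff_forall_norm_le]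
    refine ⟨E * |R|, fun y hy => ?_⟩
    have h1 := hR _ ((hQ y).1 hy)
    have h2 : ‖(fun k => y k / E)‖ ≤ |R| := (norm_snd_le ((qt D b s, (fun k => y k / E)) :
      (Fin m → ℝ) × (Fin n → ℝ))).trans (h1.trans (le_abs_self R))
    rw [pi_norm_le_iff_of_nonneg (by positivity)]
    intro k
    have h3 := (norm_le_pi_norm (fun k => y k / E) k).trans h2
    rw [Real.norm_eq_abs, abs_div, abs_of_pos hE, div_le_iff₀ hE] at h3
    rw [Real.norm_eq_abs]
    linarith
  have hvert : {y : Fin n → ℝ | ∀ j, ap (A2 j) y ≤ β j} ⊆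
      convexHull ℝ ({y : Fin n → ℝ | ∀ j, ap (A2 j) y ≤ β j} ∩ Set.range (rv (n := n))) := by
    intro y hy
    have h1 := PV_vert hD hF hV hFd (b s) (fun k => y k / E) ((hQ y).1 hy)
    have h2 : (fun k => ((D * F : ℕ) : ℝ) * (y k / E)) = y := by
      funext k
      rw [← hEdef]
      field_simp
    rw [h2] at h1
    rw [hset]
    exact h1
  have hc' : ∀ j, ap (A2 j) (fun k => E * c k) ≤ β j := by
    rw [hQ]
    have h1 : (fun k => E * c k / E) = c := by
      funext k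
      field_simp
    show (qt D b s, (fun k => E * c k / E)) ∈ PV V
    rw [h1]; exact hc
  have hprox := proximity hA (PV_inj hV1 hH hne) hbd hvert hc'
  obtain ⟨ν, h1, h2, h3, h4⟩ := hull_nu (fun x hx => hx.2.1) hprox
  refine ⟨ν, h1, h2, h3, fun y hy => ⟨?_, fun k => ?_⟩⟩
  · exact (hQ (rv y)).1 (h4 y hy).1
  · have h5 := (h4 y hy).2.2 (f0 k)
    rw [ap_sub'] at h5
    have h6 : ap (A2 (f0 k)) (fun k => E * c k) = E * ap (A2 (f0 k)) c := ap_smul _ _ _
    rw [h6] at h5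
    push_cast
    exact h5

end fin

end H79KMW
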