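import Pool.Agent.Work.MP_6237c7_co.Basic

set_option autoImplicit false

namespace H79KMW

open Finsupp

section lex
variable {X : Type*} [AddCommGroup X] [Module ℝ X]

/-- Lexicographic nonnegativity. -/
def lexnn : List (X →ₗ[ℝ] ℝ) → X → Prop
  | [], _ => True
  | f :: fs, z => 0 < f z ∨ (f z = 0 ∧ lexnn fs z)

lemma lexnn_smul {c : ℝ} (hc : 0 < c) (fs : List (X →ₗ[ℝ] ℝ)) (z : X) :
    lexnn fs (c • z) ↔ lexnn fs z := by
  induction fs with
  | nil => exact Iff.rfl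
  | cons f fs ih =>
    show (0 < f (c • z) ∨ (f (c • z) = 0 ∧ lexnn fs (c • z))) ↔ (0 < f z ∨ (f z = 0 ∧ lexnn fs z))
    rw [map_smul, smul_eq_mul, ih, mul_pos_iff_of_pos_left hc, mul_eq_zero]
    constructor
    · rintro (h | ⟨h | h, h'⟩)
      · exact Or.inl h
      · exact absurd h hc.ne'
      · exact Or.inr ⟨h, h'⟩
    · rintro (h | ⟨h, h'⟩)
      · exact Or.inl h
      · exact Or.inr ⟨Or.inr h, h'⟩

lemma lexnn_antisymm (fs : List (X →ₗ[ℝ] ℝ)) (z : X) (h : lexnn fs z) (h' : lexnn fs (-z)) :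
    ∀ f ∈ fs, f z = 0 := by
  induction fs with
  | nil => intro f hf; simp at hf
  | cons f fs ih =>
    have h1 : 0 < f z ∨ (f z = 0 ∧ lexnn fs z) := h
    have h2 : 0 < f (-z) ∨ (f (-z) = 0 ∧ lexnn fs (-z)) := h'
    rw [map_neg] at h2
    rcases h1 with h1 | ⟨h1, h1'⟩
    · rcases h2 with h2 | ⟨h2, _⟩ <;> linarith
    · rcases h2 with h2 | ⟨h2, h2'⟩
      · linarith
      · intro g hg
        rcases List.mem_cons.1 hg with rfl | hg
        · exact h1
        · exact ih h1' h2' g hg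

lemma lexnn_head {f : X →ₗ[ℝ] ℝ} {fs : List (X →ₗ[ℝ] ℝ)} {z : X} (h : lexnn (f :: fs) z) :
    0 ≤ f z := by
  rcases h with h | ⟨h, _⟩
  · exact h.le
  · exact h.ge

end lex

/-- Existence of lexicographic minima on compact sets. -/
lemma lexnn_min {Y : Type*} [TopologicalSpace Y] [AddCommGroup Y] [Module ℝ Y]
    (fs : List (Y →ₗ[ℝ] ℝ)) (hc : ∀ f ∈ fs, Continuous f) :
    ∀ F : Set Y, IsCompact F → F.Nonempty → ∃ x ∈ F, ∀ y ∈ F, lexnn fs (y - x) := by
  induction fs with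
  | nil =>
    intro F _ hne
    obtain ⟨x, hx⟩ := hne
    exact ⟨x, hx, fun _ _ => trivial⟩
  | cons f fs ih =>
    intro F hF hne
    have hcf : Continuous f := hc f (by simp)
    obtain ⟨x0, hx0, hmin⟩ := hF.exists_isMinOn hne hcf.continuousOn
    have hmin' : ∀ y ∈ F, f x0 ≤ f y := fun y hy => hmin hy
    let F' : Set Y := F ∩ f ⁻¹' (Set.Iic (f x0))
    have hF' : IsCompact F' := hF.inter_right (isClosed_Iic.preimage hcf)
    obtain ⟨x, hx, hxmin⟩ := ih (fun g hg => hc g (by simp [hg])) F' hF' ⟨x0, hx0, le_refl (f x0)⟩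
    refine ⟨x, hx.1, fun y hy => ?_⟩
    have hx2 : f x ≤ f x0 := hx.2
    have h1 : f x = f x0 := le_antisymm hx2 (hmin' x hx.1)
    show 0 < f (y - x) ∨ (f (y - x) = 0 ∧ lexnn fs (y - x))
    rw [map_sub]
    rcases lt_or_eq_of_le (hmin' y hy) with h2 | h2
    · left; rw [h1]; linarith
    · right
      refine ⟨by rw [h1, h2]; ring, hxmin y ⟨hy, ?_⟩⟩
      show f y ≤ f x0
      exact h2.ge

section lp
variable {β I : Type*} [Fintype β]

/-- Faces of the lexicographic linear program. -/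
def LPK (l : I → ((β →₀ ℝ) →ₗ[ℝ] ℝ)) (fs : List ((β →₀ ℝ) →ₗ[ℝ] ℝ)) : Set (Finset β) :=
  {s | ∀ w : β →₀ ℝ, (∀ x, 0 ≤ w x) → w.support ⊆ s → ∀ w' : β →₀ ℝ, (∀ x, 0 ≤ w' x) →
    (∀ i, l i w' = l i w) → lexnn fs (w' - w)}

variable {l : I → ((β →₀ ℝ) →ₗ[ℝ] ℝ)} {fs : List ((β →₀ ℝ) →ₗ[ℝ] ℝ)}

lemma LPK_down {s t : Finset β} (hs : s ∈ LPK l fs) (ht : t ⊆ s) : t ∈ LPK l fs :=
  fun w hw hwt => hs w hw (hwt.trans ht)

lemma LPK_inj (hfs : ∀ x : β, Finsupp.lapply x ∈ fs) {w w' : β →₀ ℝ} (hw : w ∈ body (LPK l fs))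
    (hw' : w' ∈ body (LPK l fs)) (h : ∀ i, l i w = l i w') : w = w' := by
  have h1 := hw.2 w hw.1 (Finset.Subset.refl _) w' hw'.1 (fun i => (h i).symm)
  have h2 := hw'.2 w' hw'.1 (Finset.Subset.refl _) w hw.1 h
  have h3 := lexnn_antisymm fs (w' - w) h1 (by rw [neg_sub]; exact h2)
  ext x
  have h4 := h3 _ (hfs x)
  rw [Finsupp.lapply_apply, Finsupp.sub_apply] at h4
  linarith

/-- A small step keeps nonnegativity. -/
lemma small_step (w u u' : β →₀ ℝ) (hw : ∀ x, 0 ≤ w x) (hu : ∀ x, 0 ≤ u x)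
    (hu' : ∀ x, 0 ≤ u' x) (hsub : u.support ⊆ w.support) :
    ∃ ε : ℝ, 0 < ε ∧ ∀ x, 0 ≤ (w + ε • (u' - u)) x := by
  classical
  have key : ∀ s : Finset β, (∀ x ∈ s, 0 < w x) → ∃ ε : ℝ, 0 < ε ∧ ∀ x ∈ s, ε * u x ≤ w x := by
    intro s
    induction s using Finset.induction_on with
    | empty => intro _; exact ⟨1, one_pos, fun x hx => absurd hx (Finset.notMem_empty x)⟩
    | insert b s hb ih =>
      intro hs
      obtain ⟨ε, hε, h⟩ := ih (fun x hx => hs x (Finset.mem_insert_of_mem hx))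
      have hwb := hs b (Finset.mem_insert_self _ _)
      have hub := hu b
      refine ⟨min ε (w b / (u b + 1)), lt_min hε (by positivity), ?_⟩
      intro x hx
      rcases Finset.mem_insert.1 hx with rfl | hx
      · have h1 : min ε (w x / (u x + 1)) * u x ≤ w x / (u x + 1) * u x :=
          mul_le_mul_of_nonneg_right (min_le_right _ _) hub
        refine h1.trans ?_
        rw [div_mul_eq_mul_div, div_le_iff₀ (by positivity)]
        nlinarith
      · exact (mul_le_mul_of_nonneg_right (min_le_left _ _) (hu x)).trans (h x hx)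
  obtain ⟨ε, hε, h⟩ := key w.support (fun x hx =>
    lt_of_le_of_ne (hw x) (Ne.symm (Finsupp.mem_support_iff.1 hx)))
  refine ⟨ε, hε, fun x => ?_⟩
  rw [Finsupp.add_apply, Finsupp.smul_apply, Finsupp.sub_apply, smul_eq_mul]
  by_cases hx : x ∈ w.support
  · have h1 := h x hx
    have h2 := mul_nonneg hε.le (hu' x)
    nlinarith
  · have h1 : u x = 0 := by
      by_contra hne
      exact hx (hsub (Finsupp.mem_support_iff.2 hne))
    rw [h1, sub_zero]
    have h2 := mul_nonneg hε.le (hu' x)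
    have h3 := hw x
    linarith

lemma LPK_of_min {w : β →₀ ℝ} (hw : ∀ x, 0 ≤ w x)
    (hmin : ∀ w' : β →₀ ℝ, (∀ x, 0 ≤ w' x) → (∀ i, l i w' = l i w) → lexnn fs (w' - w)) :
    w.support ∈ LPK l fs := by
  intro u hu hus u' hu' huu
  obtain ⟨ε, hε, hpos⟩ := small_step w u u' hw hu hu' hus
  have h1 := hmin (w + ε • (u' - u)) hpos (fun i => by
    rw [map_add, map_smul, map_sub, huu i, sub_self, smul_zero, add_zero])
  rw [add_sub_cancel_left] at h1
  exact (lexnn_smul hε fs _).1 h1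

/-- Existence of optimal weights. -/
lemma LPK_exists (htot : ∀ w w' : β →₀ ℝ, (∀ i, l i w = l i w') →
      ∑ x, w x = ∑ x, w' x) (w0 : β →₀ ℝ) (h0 : ∀ x, 0 ≤ w0 x) :
    ∃ w ∈ body (LPK l fs), ∀ i, l i w = l i w0 := by
  classical
  let e : (β → ℝ) ≃ₗ[ℝ] (β →₀ ℝ) := (Finsupp.linearEquivFunOnFinite ℝ ℝ β).symm
  have he : ∀ (v : β → ℝ) (x : β), e v x = v x := fun v x => rfl
  let gs : List ((β → ℝ) →ₗ[ℝ] ℝ) := fs.map (fun f => f.comp e.toLinearMap)
  have hlex : ∀ (fs : List ((β →₀ ℝ) →ₗ[ℝ] ℝ)) (v : β → ℝ),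
      lexnn (fs.map (fun f => f.comp e.toLinearMap)) v ↔ lexnn fs (e v) := by
    intro fs
    induction fs with
    | nil => intro v; exact Iff.rfl
    | cons f fs ih =>
      intro v
      show (0 < f (e v) ∨ (f (e v) = 0 ∧ lexnn (fs.map (fun f => f.comp e.toLinearMap)) v)) ↔
        (0 < f (e v) ∨ (f (e v) = 0 ∧ lexnn fs (e v)))
      rw [ih]
  let F : Set (β → ℝ) := {v | (∀ x, 0 ≤ v x) ∧ ∀ i, l i (e v) = l i w0}
  have hclosed : IsClosed F := by
    have h1 : F = (⋂ x : β, {v : β → ℝ | 0 ≤ v x}) ∩ ⋂ i : I, {v : β → ℝ | l i (e v) = l i w0} := by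
      ext v
      simp [F]
    rw [h1]
    refine IsClosed.inter ?_ ?_
    · exact isClosed_iInter fun x => isClosed_le continuous_const (continuous_apply x)
    · refine isClosed_iInter fun i => ?_
      have hcont : Continuous ((l i).comp e.toLinearMap) :=
        LinearMap.continuous_of_finiteDimensional _
      exact isClosed_eq hcont continuous_const
  have hw0 : (fun x => w0 x) ∈ F := by
    refine ⟨h0, fun i => ?_⟩
    have : e (fun x => w0 x) = w0 := by ext x; rfl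
    rw [this]
  have hbdd : F ⊆ Set.pi Set.univ (fun _ : β => Set.Icc (0:ℝ) (∑ x, w0 x)) := by
    intro v hv x _
    refine ⟨hv.1 x, ?_⟩
    have h1 := htot (e v) w0 hv.2
    have h2 : v x ≤ ∑ x, v x := Finset.single_le_sum (fun y _ => hv.1 y) (Finset.mem_univ x)
    have h3 : ∑ x, (e v) x = ∑ x, v x := rfl
    rw [← h1, h3]
    exact h2
  have hcomp : IsCompact F :=
    (isCompact_univ_pi fun _ => isCompact_Icc).of_isClosed_subset hclosed hbdd
  obtain ⟨v, hv, hmin⟩ := lexnn_min gs (by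
    intro f hf
    exact LinearMap.continuous_of_finiteDimensional _) F hcomp ⟨_, hw0⟩
  refine ⟨e v, ⟨hv.1, LPK_of_min hv.1 ?_⟩, hv.2⟩
  intro w' hw' hl
  have hmem : (fun x => w' x) ∈ F := by
    refine ⟨hw', fun i => ?_⟩
    have : e (fun x => w' x) = w' := by ext x; rfl
    rw [this, hl i, hv.2 i]
  have h1 := hmin _ hmem
  have h2 := (hlex fs _).1 h1
  rw [map_sub] at h2
  have h3 : e (fun x => w' x) = w' := by ext x; rfl
  rw [h3] at h2
  exact h2

lemma LPK_cost {f : (β →₀ ℝ) →ₗ[ℝ] ℝ} {s : Finset β} (hs : s ∈ LPK l (f :: fs)) {w w' : β →₀ ℝ}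
    (hw : ∀ x, 0 ≤ w x) (hws : w.support ⊆ s) (hw' : ∀ x, 0 ≤ w' x) (h : ∀ i, l i w' = l i w) :
    f w ≤ f w' := by
  have h1 := lexnn_head (hs w hw hws w' hw' h)
  rw [map_sub] at h1
  linarith

end lp

end H79KMW
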