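import Pool.Agent.Work.MP_6237c7_co.LV.Cells
import Pool.Agent.Work.MP_6237c7_co.LV.Lex

set_option autoImplicit false
set_option linter.unusedSectionVars false

namespace H79KMW

open Finsupp
open scoped Pointwise

section asm
variable {m n : ℕ} {ι : Type*} (a : ι → Fin m → ℤ) (D F : ℕ) (b : (ι → ℤ) → (Fin m → ℤ))
  (W : Set (Fin m → ℝ)) (P : Set ((Fin m → ℝ) × (Fin n → ℝ)))

/-- Vertices: a signature of the base and a point of the fibre lattice. -/
def Vx : Type _ := {p : (ι → ℤ) × (Fin n → ℤ) // (∃ x ∈ W, p.1 = sg a x) ∧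
  (qt D b p.1, (fun k => (p.2 k : ℝ) / ((D * F : ℕ) : ℝ))) ∈ P}

variable {a D F b W P}

/-- The base part of a vertex. -/
def Vx.s (p : Vx a D F b W P) : ι → ℤ := p.1.1

/-- The fibre part of a vertex. -/
def Vx.y (p : Vx a D F b W P) : Fin n → ℤ := p.1.2

/-- The label of a vertex. -/
def rE (p : Vx a D F b W P) : Fin (m + n + 1) → ℤ :=
  Fin.cons 1 (Fin.append (fun k => (F : ℤ) * b p.s k) p.y)

/-- The base label of a vertex. -/
def r1 (p : Vx a D F b W P) : Fin (m + 1) → ℤ := lab b p.s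

/-- The functionals of the program. -/
noncomputable def lf : ((ι → ℤ) ⊕ Fin n) → ((Vx a D F b W P →₀ ℝ) →ₗ[ℝ] ℝ)
  | Sum.inl s => (Finsupp.lapply s).comp (Finsupp.lmapDomain ℝ ℝ (fun p => Vx.s p))
  | Sum.inr k => Finsupp.linearCombination ℝ (fun p => ((Vx.y p k : ℤ) : ℝ))

/-- The quadratic cost. -/
noncomputable def cost (B : Fin n → Fin n → ℤ) : (Vx a D F b W P →₀ ℝ) →ₗ[ℝ] ℝ :=
  Finsupp.linearCombination ℝ (fun p => ∑ k, (ap (B k) (fun j => (Vx.y p j : ℝ))) ^ 2)

lemma lf_inl (s : ι → ℤ) (w : Vx a D F b W P →₀ ℝ) :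
    lf (Sum.inl s) w = (w.mapDomain (fun p => Vx.s p)) s := rfl

lemma lf_inr (k : Fin n) (w : Vx a D F b W P →₀ ℝ) :
    lf (Sum.inr k) w = Finsupp.linearCombination ℝ (fun p => ((Vx.y p k : ℤ) : ℝ)) w := rfl

lemma lc_r1 (w : Vx a D F b W P →₀ ℝ) :
    lc (lab b) (w.mapDomain (fun p => Vx.s p)) = lc r1 w := by
  rw [lc, lc, Finsupp.linearCombination_mapDomain]
  rfl

lemma lc_rE_zero (w : Vx a D F b W P →₀ ℝ) : lc rE w 0 = lc r1 w 0 := by
  rw [lc_apply_of_subset w w.support (Finset.Subset.refl _),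
    lc_apply_of_subset w w.support (Finset.Subset.refl _)]
  rfl

lemma lc_rE_base (w : Vx a D F b W P →₀ ℝ) (k : Fin m) :
    lc rE w (Fin.castAdd n k).succ = F * lc r1 w k.succ := by
  rw [lc_apply_of_subset w w.support (Finset.Subset.refl _),
    lc_apply_of_subset w w.support (Finset.Subset.refl _), Finset.mul_sum]
  refine Finset.sum_congr rfl fun p _ => ?_
  have h1 : rE p (Fin.castAdd n k).succ = (F : ℤ) * b p.s k := by
    show Fin.append (fun k => (F : ℤ) * b p.s k) p.y (Fin.castAdd n k) = _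
    rw [Fin.append_left]
  have h2 : r1 p k.succ = b p.s k := rfl
  rw [h1, h2]
  push_cast
  ring

lemma lc_rE_fib (w : Vx a D F b W P →₀ ℝ) (k : Fin n) :
    lc rE w (Fin.natAdd m k).succ = lf (Sum.inr k) w := by
  rw [lc_apply_of_subset w w.support (Finset.Subset.refl _), lf_inr,
    Finsupp.linearCombination_apply, Finsupp.sum]
  refine Finset.sum_congr rfl fun p _ => ?_
  have h1 : rE p (Fin.natAdd m k).succ = p.y k := by
    show Fin.append (fun k => (F : ℤ) * b p.s k) p.y (Fin.natAdd m k) = _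
    rw [Fin.append_right]
  rw [h1, smul_eq_mul]

lemma ext_fin {α : Type*} {u v : Fin (m + n + 1) → α} (h0 : u 0 = v 0)
    (h1 : ∀ k : Fin m, u (Fin.castAdd n k).succ = v (Fin.castAdd n k).succ)
    (h2 : ∀ k : Fin n, u (Fin.natAdd m k).succ = v (Fin.natAdd m k).succ) : u = v := by
  funext i
  refine Fin.cases h0 (fun j => ?_) i
  exact Fin.addCases h1 h2 j

/-- The restricted complex. -/
def KE (B : Fin n → Fin n → ℤ) [Fintype (Vx a D F b W P)] : Set (Finset (Vx a D F b W P)) :=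
  {c | c ∈ LPK lf (cost B :: (Finset.univ : Finset (Vx a D F b W P)).toList.map
      (fun p => Finsupp.lapply p)) ∧
    ∃ c' ∈ Ch a W, ∀ p ∈ c, Vx.s p ∈ c'}

lemma lf_total [Fintype (Vx a D F b W P)] (w w' : Vx a D F b W P →₀ ℝ)
    (h : ∀ i, lf i w = lf i w') : ∑ x, w x = ∑ x, w' x := by
  have h1 : w.mapDomain (fun p => Vx.s p) = w'.mapDomain (fun p => Vx.s p) := by
    ext s
    exact h (Sum.inl s)
  have h2 : ∀ u : Vx a D F b W P →₀ ℝ, ∑ x, u x =
      Finsupp.linearCombination ℝ (fun _ : ι → ℤ => (1:ℝ)) (u.mapDomain (fun p => Vx.s p)) := by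
    intro u
    rw [Finsupp.linearCombination_mapDomain, Finsupp.linearCombination_apply,
      Finsupp.sum_fintype _ _ (by simp)]
    simp
  rw [h2, h2, h1]

lemma marg_body [Fintype (Vx a D F b W P)] {B : Fin n → Fin n → ℤ} {w : Vx a D F b W P →₀ ℝ}
    (hw : w ∈ body (KE B)) : w.mapDomain (fun p => Vx.s p) ∈ body (Ch a W) := by
  classical
  obtain ⟨hw0, hwl, c', hc', hcs⟩ := hw
  refine ⟨fun s => ?_, body_Ch_down hc' ?_⟩
  · rw [Finsupp.mapDomain, Finsupp.sum, Finsupp.finsetSum_apply]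
    refine Finset.sum_nonneg fun x _ => ?_
    rw [Finsupp.single_apply]
    split_ifs
    · exact hw0 _
    · exact le_rfl
  · refine Finsupp.mapDomain_support.trans ?_
    intro s hs
    obtain ⟨p, hp, rfl⟩ := Finset.mem_image.1 hs
    exact hcs p hp

lemma KE_isCx [Fintype (Vx a D F b W P)] [Finite ι] {B : Fin n → Fin n → ℤ} (hF : 0 < F)
    (hW : Bornology.IsBounded W) (hneg : ∀ i, ∃ j, a j = - a i)
    (hb : ∀ x : Fin m → ℝ, sg a (fun k => (b (sg a x) k : ℝ) / D) = sg a x) :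
    IsCx (rE (a := a) (D := D) (F := F) (b := b) (W := W) (P := P)) (KE B) := by
  classical
  have hFr : (F : ℝ) ≠ 0 := by exact_mod_cast hF.ne'
  have hCh : IsCx (lab b) (Ch a W) := Ch_isCx hW hneg hb
  refine ⟨Set.toFinite _, ?_, ?_⟩
  · rintro s ⟨h1, c', hc', h2⟩ t ht
    exact ⟨LPK_down h1 ht, c', hc', fun p hp => h2 p (ht hp)⟩
  · intro w hw w' hw' heq
    have heq' : lc rE w = lc rE w' := heq
    have hr1 : lc r1 w = lc r1 w' := by
      funext k
      refine Fin.cases ?_ (fun k => ?_) k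
      · rw [← lc_rE_zero, ← lc_rE_zero, heq']
      · have h1 : (F : ℝ) * lc r1 w k.succ = F * lc r1 w' k.succ := by
          rw [← lc_rE_base, ← lc_rE_base, heq']
        exact mul_left_cancel₀ hFr h1
    have hm : w.mapDomain (fun p => Vx.s p) = w'.mapDomain (fun p => Vx.s p) :=
      hCh.inj (marg_body hw) (marg_body hw') (by rw [lc_r1, lc_r1, hr1])
    refine LPK_inj ?_ ⟨hw.1, hw.2.1⟩ ⟨hw'.1, hw'.2.1⟩ ?_
    · intro x
      refine List.mem_cons_of_mem _ (List.mem_map.2 ⟨x, ?_, rfl⟩)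
      rw [Finset.mem_toList]; exact Finset.mem_univ _
    · rintro (s | k)
      · rw [lf_inl, lf_inl, hm]
      · rw [← lc_rE_fib, ← lc_rE_fib, heq']

end asm

end H79KMW
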