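import Pool.Agent.Work.MP_6237c7_co.LV.Asm

set_option autoImplicit false
set_option linter.unusedSectionVars false

namespace H79KMW

open Finsupp
open scoped Pointwise

section asm
variable {m n : ℕ} {ι : Type*} {a : ι → Fin m → ℤ} {D F : ℕ} {b : (ι → ℤ) → (Fin m → ℤ)}
  {W : Set (Fin m → ℝ)} {P : Set ((Fin m → ℝ) × (Fin n → ℝ))}

/-- Local measures on fibres. -/
def FibLMP (a : ι → Fin m → ℤ) (D F : ℕ) (b : (ι → ℤ) → (Fin m → ℤ)) (W : Set (Fin m → ℝ))
    (P : Set ((Fin m → ℝ) × (Fin n → ℝ))) (B : Fin n → Fin n → ℤ) (ρ : ℕ) : Prop :=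
  ∀ s : ι → ℤ, (∃ x ∈ W, s = sg a x) → ∀ c : Fin n → ℝ, (qt D b s, c) ∈ P →
    ∃ ν : (Fin n → ℤ) →₀ ℝ, (∀ y, 0 ≤ ν y) ∧ (∑ y ∈ ν.support, ν y = 1) ∧
      (∀ k, ∑ y ∈ ν.support, ν y * (y k : ℝ) = ((D * F : ℕ) : ℝ) * c k) ∧
      ∀ y ∈ ν.support, (qt D b s, (fun k => (y k : ℝ) / ((D * F : ℕ) : ℝ))) ∈ P ∧
        ∀ k, |ap (B k) (fun j => (y j : ℝ)) - ((D * F : ℕ) : ℝ) * ap (B k) c| ≤ (ρ : ℝ)

lemma fib_w {B : Fin n → Fin n → ℤ} {ρ : ℕ} (h : FibLMP a D F b W P B ρ) {s : ι → ℤ}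
    (hs : ∃ x ∈ W, s = sg a x) {c : Fin n → ℝ} (hc : (qt D b s, c) ∈ P) :
    ∃ w : Vx a D F b W P →₀ ℝ, (∀ p, 0 ≤ w p) ∧
      w.mapDomain (fun p => Vx.s p) = single s 1 ∧
      (∀ k, lf (Sum.inr k) w = ((D * F : ℕ) : ℝ) * c k) ∧
      cost B w ≤ (∑ k, (((D * F : ℕ) : ℝ) * ap (B k) c) ^ 2) + n * (ρ : ℝ) ^ 2 := by
  classical
  obtain ⟨ν, hν0, hν1, hν2, hν3⟩ := h s hs c hc
  let mk : {y // y ∈ ν.support} → Vx a D F b W P := fun y => ⟨(s, y.1), hs, (hν3 y.1 y.2).1⟩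
  let w : Vx a D F b W P →₀ ℝ := ∑ y ∈ ν.support.attach, single (mk y) (ν y.1)
  refine ⟨w, ?_, ?_, ?_, ?_⟩
  · intro p
    show 0 ≤ (∑ y ∈ ν.support.attach, single (mk y) (ν y.1)) p
    rw [Finsupp.finsetSum_apply]
    refine Finset.sum_nonneg fun y _ => ?_
    rw [Finsupp.single_apply]
    split_ifs
    · exact hν0 _
    · exact le_rfl
  · show Finsupp.mapDomain (fun p => Vx.s p) (∑ y ∈ ν.support.attach, single (mk y) (ν y.1)) = _
    rw [Finsupp.mapDomain_finsetSum]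
    have h1 : ∀ y ∈ ν.support.attach, Finsupp.mapDomain (fun p : Vx a D F b W P => Vx.s p)
        (single (mk y) (ν y.1)) = single s (ν y.1) := by
      intro y _
      rw [Finsupp.mapDomain_single]
      rfl
    rw [Finset.sum_congr rfl h1, Finset.sum_attach ν.support (fun y => single s (ν y)),
      ← hν1]
    exact (map_sum (Finsupp.singleAddHom s) _ _).symm
  · intro k
    show lf (Sum.inr k) (∑ y ∈ ν.support.attach, single (mk y) (ν y.1)) = _
    rw [map_sum, ← hν2 k, ← Finset.sum_attach ν.support (fun y => ν y * (y k : ℝ))]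
    refine Finset.sum_congr rfl fun y _ => ?_
    rw [lf_inr, Finsupp.linearCombination_single, smul_eq_mul]
    rfl
  · show cost B (∑ y ∈ ν.support.attach, single (mk y) (ν y.1)) ≤ _
    rw [map_sum]
    have h1 : ∀ y ∈ ν.support.attach, cost B (single (mk y) (ν y.1)) =
        ν y.1 * ∑ k, (ap (B k) (fun j => (y.1 j : ℝ))) ^ 2 := by
      intro y _
      rw [cost, Finsupp.linearCombination_single, smul_eq_mul]
      rfl
    rw [Finset.sum_congr rfl h1,
      Finset.sum_attach ν.support (fun y => ν y * ∑ k, (ap (B k) (fun j => (y j : ℝ))) ^ 2)]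
    simp only [Finset.mul_sum]
    rw [Finset.sum_comm]
    have h2 : ∀ k ∈ (Finset.univ : Finset (Fin n)),
        ∑ y ∈ ν.support, ν y * (ap (B k) (fun j => (y j : ℝ))) ^ 2 ≤
          (((D * F : ℕ) : ℝ) * ap (B k) c) ^ 2 + (ρ : ℝ) ^ 2 := by
      intro k _
      set e : ℝ := ((D * F : ℕ) : ℝ) * ap (B k) c with he
      have hmean : ∑ y ∈ ν.support, ν y * ap (B k) (fun j => (y j : ℝ)) = e := by
        simp only [ap, Finset.mul_sum]
        rw [Finset.sum_comm]
        rw [he, ap, Finset.mul_sum]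
        refine Finset.sum_congr rfl fun j _ => ?_
        have h3 := hν2 j
        calc ∑ y ∈ ν.support, ν y * ((B k j : ℝ) * (y j : ℝ)) =
              (B k j : ℝ) * ∑ y ∈ ν.support, ν y * (y j : ℝ) := by
                rw [Finset.mul_sum]
                exact Finset.sum_congr rfl fun y _ => by ring
          _ = _ := by rw [h3]; ring
      have hexp : ∑ y ∈ ν.support, ν y * (ap (B k) (fun j => (y j : ℝ))) ^ 2 =
          ∑ y ∈ ν.support, ν y * (ap (B k) (fun j => (y j : ℝ)) - e) ^ 2 +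
            2 * e * ∑ y ∈ ν.support, ν y * ap (B k) (fun j => (y j : ℝ)) -
            e ^ 2 * ∑ y ∈ ν.support, ν y := by
        rw [Finset.mul_sum, Finset.mul_sum, ← Finset.sum_add_distrib, ← Finset.sum_sub_distrib]
        exact Finset.sum_congr rfl fun y _ => by ring
      have hvar : ∑ y ∈ ν.support, ν y * (ap (B k) (fun j => (y j : ℝ)) - e) ^ 2 ≤ (ρ : ℝ) ^ 2 := by
        have h3 : ∑ y ∈ ν.support, ν y * (ap (B k) (fun j => (y j : ℝ)) - e) ^ 2 ≤
            ∑ y ∈ ν.support, ν y * (ρ : ℝ) ^ 2 := by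
          refine Finset.sum_le_sum fun y hy => ?_
          refine mul_le_mul_of_nonneg_left ?_ (hν0 y)
          have h4 := (hν3 y hy).2 k
          rw [← sq_abs]
          exact pow_le_pow_left₀ (abs_nonneg _) h4 2
        rw [← Finset.sum_mul, hν1, one_mul] at h3
        exact h3
      rw [hexp, hmean, hν1]
      nlinarith
    refine (Finset.sum_le_sum h2).trans ?_
    rw [Finset.sum_add_distrib, Finset.sum_const, Finset.card_univ, Fintype.card_fin,
      nsmul_eq_mul]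

/-- Two vertices of a face over the same base point are close. -/
lemma fib_diff [Fintype (Vx a D F b W P)] (hconv : Convex ℝ P) (hDF : 0 < D * F)
    {B : Fin n → Fin n → ℤ} {ρ : ℕ} (h : FibLMP a D F b W P B ρ)
    {c : Finset (Vx a D F b W P)} (hc : c ∈ KE B) {p q : Vx a D F b W P} (hp : p ∈ c) (hq : q ∈ c)
    (hpq : Vx.s p = Vx.s q) (k : Fin n) :
    |ap (B k) (fun j => (Vx.y p j : ℝ)) - ap (B k) (fun j => (Vx.y q j : ℝ))| ≤
      2 * (n : ℝ) * ρ := by
  classical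
  have hE : (0:ℝ) < ((D * F : ℕ) : ℝ) := by exact_mod_cast hDF
  set E : ℝ := ((D * F : ℕ) : ℝ) with hEdef
  let c0 : Fin n → ℝ := fun k => ((Vx.y p k : ℝ) + (Vx.y q k : ℝ)) / (2 * E)
  have hc0 : (qt D b (Vx.s p), c0) ∈ P := by
    have h1 : (qt D b (Vx.s p), (fun k => (Vx.y p k : ℝ) / E)) ∈ P := p.2.2
    have h2 : (qt D b (Vx.s p), (fun k => (Vx.y q k : ℝ) / E)) ∈ P := by
      rw [hpq]; exact q.2.2
    have h3 := hconv h1 h2 (a := 1 / 2) (b := 1 / 2) (by norm_num) (by norm_num) (by norm_num)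
    have h4 : ((1 / 2 : ℝ) • ((qt D b (Vx.s p), (fun k => (Vx.y p k : ℝ) / E)) :
        (Fin m → ℝ) × (Fin n → ℝ)) + (1 / 2 : ℝ) •
        ((qt D b (Vx.s p), (fun k => (Vx.y q k : ℝ) / E)) : (Fin m → ℝ) × (Fin n → ℝ))) =
        (qt D b (Vx.s p), c0) := by
      refine Prod.ext ?_ ?_
      · funext i
        show (1 / 2 : ℝ) * qt D b (Vx.s p) i + (1 / 2) * qt D b (Vx.s p) i = qt D b (Vx.s p) i
        ring
      · funext i
        show (1 / 2 : ℝ) * ((Vx.y p i : ℝ) / E) + (1 / 2) * ((Vx.y q i : ℝ) / E) =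
          ((Vx.y p i : ℝ) + (Vx.y q i : ℝ)) / (2 * E)
        field_simp
    rw [h4] at h3
    exact h3
  obtain ⟨w'', hw0, hwm, hwy, hwc⟩ := fib_w h p.2.1 hc0
  let w' : Vx a D F b W P →₀ ℝ := single p (1 / 2) + single q (1 / 2)
  have hw'0 : ∀ x, 0 ≤ w' x := by
    intro x
    show 0 ≤ (single p (1 / 2 : ℝ) + single q (1 / 2 : ℝ) : Vx a D F b W P →₀ ℝ) x
    rw [Finsupp.add_apply, Finsupp.single_apply, Finsupp.single_apply]
    split_ifs <;> norm_num
  have hw's : w'.support ⊆ c := by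
    refine supp_add_subset _ _ _ ?_ ?_
    · refine Finsupp.support_single_subset.trans ?_
      intro z hz
      rw [Finset.mem_singleton.1 hz]; exact hp
    · refine Finsupp.support_single_subset.trans ?_
      intro z hz
      rw [Finset.mem_singleton.1 hz]; exact hq
  have hcost := LPK_cost hc.1 hw'0 hw's hw0 (by
    rintro (s | k)
    · have e1 : (w'.mapDomain (fun p => Vx.s p)) = single (Vx.s p) 1 := by
        show (single p (1 / 2 : ℝ) + single q (1 / 2)).mapDomain (fun p => Vx.s p) = _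
        rw [Finsupp.mapDomain_add, Finsupp.mapDomain_single, Finsupp.mapDomain_single, ← hpq,
          ← Finsupp.single_add]
        norm_num
      rw [lf_inl, lf_inl, hwm, e1]; rfl
    · have e2 : lf (Sum.inr k) w' = (1 / 2) * (Vx.y p k : ℝ) + (1 / 2) * (Vx.y q k : ℝ) := by
        show lf (Sum.inr k) (single p (1 / 2 : ℝ) + single q (1 / 2)) = _
        rw [map_add, lf_inr, lf_inr, Finsupp.linearCombination_single,
          Finsupp.linearCombination_single, smul_eq_mul, smul_eq_mul]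
      rw [hwy, e2]
      show E * (((Vx.y p k : ℝ) + (Vx.y q k : ℝ)) / (2 * E)) = _
      field_simp)
  have hcw' : cost B w' = (1 / 2) * (∑ k, (ap (B k) (fun j => (Vx.y p j : ℝ))) ^ 2) +
      (1 / 2) * (∑ k, (ap (B k) (fun j => (Vx.y q j : ℝ))) ^ 2) := by
    show cost B (single p (1 / 2 : ℝ) + single q (1 / 2)) = _
    rw [map_add, cost, Finsupp.linearCombination_single, Finsupp.linearCombination_single,
      smul_eq_mul, smul_eq_mul]
  have hmid : ∀ k, E * ap (B k) c0 = (ap (B k) (fun j => (Vx.y p j : ℝ)) +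
      ap (B k) (fun j => (Vx.y q j : ℝ))) / 2 := by
    intro k
    rw [ap, ap, ap, Finset.mul_sum, ← Finset.sum_add_distrib, Finset.sum_div]
    refine Finset.sum_congr rfl fun j _ => ?_
    show E * ((B k j : ℝ) * (((Vx.y p j : ℝ) + (Vx.y q j : ℝ)) / (2 * E))) = _
    field_simp
  rw [hcw'] at hcost
  have htot := hcost.trans hwc
  have hsum : ∑ k, (ap (B k) (fun j => (Vx.y p j : ℝ)) -
      ap (B k) (fun j => (Vx.y q j : ℝ))) ^ 2 ≤ 4 * (n * (ρ : ℝ) ^ 2) := by
    have e1 : ∑ k, (ap (B k) (fun j => (Vx.y p j : ℝ)) -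
        ap (B k) (fun j => (Vx.y q j : ℝ))) ^ 2 =
        2 * (∑ k, (ap (B k) (fun j => (Vx.y p j : ℝ))) ^ 2) +
        2 * (∑ k, (ap (B k) (fun j => (Vx.y q j : ℝ))) ^ 2) -
        4 * ∑ k, (E * ap (B k) c0) ^ 2 := by
      rw [Finset.mul_sum, Finset.mul_sum, Finset.mul_sum, ← Finset.sum_add_distrib,
        ← Finset.sum_sub_distrib]
      refine Finset.sum_congr rfl fun k _ => ?_
      rw [hmid k]
      ring
    rw [e1]
    linarith
  have hk : (ap (B k) (fun j => (Vx.y p j : ℝ)) - ap (B k) (fun j => (Vx.y q j : ℝ))) ^ 2 ≤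
      4 * (n * (ρ : ℝ) ^ 2) := by
    refine le_trans ?_ hsum
    exact Finset.single_le_sum (f := fun k => (ap (B k) (fun j => (Vx.y p j : ℝ)) -
      ap (B k) (fun j => (Vx.y q j : ℝ))) ^ 2) (fun k _ => sq_nonneg _) (Finset.mem_univ k)
  have hn : (1:ℝ) ≤ n := by
    have : 0 < n := lt_of_le_of_lt (Nat.zero_le _) k.2
    exact_mod_cast this
  refine abs_le_of_sq_le_sq ?_ (by positivity)
  have hρ : (0:ℝ) ≤ (ρ : ℝ) ^ 2 := by positivity
  nlinarith

end asm

end H79KMW
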