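import Pool.Agent.Work.MP_6237c7_co.LV.Asm2

set_option autoImplicit false
set_option linter.unusedSectionVars false

namespace H79KMW

open Finsupp
open scoped Pointwise

/-- Prescribing values on an independent family. -/
lemma exists_map {κ V V' : Type*} [AddCommGroup V] [Module ℝ V] [AddCommGroup V'] [Module ℝ V']
    {v : κ → V} (hli : LinearIndependent ℝ v) (vals : κ → V') :
    ∃ g : V →ₗ[ℝ] V', ∀ i, g (v i) = vals i := by
  obtain ⟨g, hg⟩ := LinearMap.exists_extend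
    ((Finsupp.linearCombination ℝ vals).comp (hli.repr : _ →ₗ[ℝ] (κ →₀ ℝ)))
  refine ⟨g, fun i => ?_⟩
  have h1 : g ((⟨v i, Submodule.subset_span ⟨i, rfl⟩⟩ : Submodule.span ℝ (Set.range v)) : V) =
      (Finsupp.linearCombination ℝ vals) (hli.repr ⟨v i, Submodule.subset_span ⟨i, rfl⟩⟩) := by
    have := LinearMap.congr_fun hg ⟨v i, Submodule.subset_span ⟨i, rfl⟩⟩
    exact this
  rw [hli.repr_eq_single i _ rfl, Finsupp.linearCombination_single, one_smul] at h1
  exact h1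

/-- Splitting of the coordinates. -/
def ge (m n : ℕ) : Fin (m + 1) ⊕ Fin n → Fin (m + n + 1) :=
  Sum.elim (Fin.cases 0 (fun k => (Fin.castAdd n k).succ)) (fun k => (Fin.natAdd m k).succ)

lemma ge_val_inl (m n : ℕ) (j : Fin (m + 1)) : ((ge m n (Sum.inl j) : Fin (m + n + 1)) : ℕ) = j := by
  refine Fin.cases ?_ (fun k => ?_) j
  · rfl
  · rfl

lemma ge_val_inr (m n : ℕ) (k : Fin n) : ((ge m n (Sum.inr k) : Fin (m + n + 1)) : ℕ) = m + k + 1 :=
  rfl

lemma ge_bij (m n : ℕ) : Function.Bijective (ge m n) := by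
  rw [Fintype.bijective_iff_injective_and_card]
  refine ⟨?_, ?_⟩
  · rintro (i | i) (j | j) h
    · have h1 := congrArg Fin.val h
      rw [ge_val_inl, ge_val_inl] at h1
      rw [Fin.ext h1]
    · have h1 := congrArg Fin.val h
      rw [ge_val_inl, ge_val_inr] at h1
      have := i.2
      omega
    · have h1 := congrArg Fin.val h
      rw [ge_val_inl, ge_val_inr] at h1
      have := j.2
      omega
    · have h1 := congrArg Fin.val h
      rw [ge_val_inr, ge_val_inr] at h1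
      have h2 : (i : ℕ) = j := by omega
      rw [Fin.ext h2]
  · simp only [Fintype.card_sum, Fintype.card_fin]
    omega

section asm
variable {m n : ℕ} {ι : Type*} {a : ι → Fin m → ℤ} {D F : ℕ} {b : (ι → ℤ) → (Fin m → ℤ)}
  {W : Set (Fin m → ℝ)} {P : Set ((Fin m → ℝ) × (Fin n → ℝ))}

lemma KE_dt [Fintype (Vx a D F b W P)] [Finite ι] (hconv : Convex ℝ P) (hD : 0 < D) (hF : 0 < F)
    (hW : Bornology.IsBounded W) (hneg : ∀ i, ∃ j, a j = - a i)
    (hb : ∀ x : Fin m → ℝ, sg a (fun k => (b (sg a x) k : ℝ) / D) = sg a x)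
    (hWc : ∀ x ∈ W, ∀ y, sg a y ≤ sg a x → y ∈ W) {w : ℕ} (hWw : ∀ z ∈ W, ∀ k, |z k| ≤ (w : ℝ))
    {B : Fin n → Fin n → ℤ} (hB : (Matrix.of B).det ≠ 0) {ρ : ℕ} (h : FibLMP a D F b W P B ρ)
    {c : Finset (Vx a D F b W P)} (hc : c ∈ KE B) (p : Fin (m + n + 1) → Vx a D F b W P)
    (hp : ∀ i, p i ∈ c) :
    |((dt (fun i => rE (p i)) : ℤ) : ℝ)| ≤
      (((m + n + 1).factorial * (1 + D * F * w + 2 * n * ρ) ^ (m + n + 1) : ℕ) : ℝ) := by
  classical
  have hDr : (0:ℝ) < D := by exact_mod_cast hD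
  have hFr : (0:ℝ) < F := by exact_mod_cast hF
  obtain ⟨c', hc', hcs⟩ := hc.2
  have hCh : IsCx (lab b) (Ch a W) := Ch_isCx hW hneg hb
  -- representatives of the fibres
  let y0 : (ι → ℤ) → (Fin n → ℤ) := fun s =>
    if h : ∃ q ∈ c, Vx.s q = s then Vx.y (Classical.choose h) else 0
  have hy0 : ∀ q ∈ c, ∃ q' ∈ c, Vx.s q' = Vx.s q ∧ y0 (Vx.s q) = Vx.y q' := by
    intro q hq
    have hex : ∃ q' ∈ c, Vx.s q' = Vx.s q := ⟨q, hq, rfl⟩
    refine ⟨Classical.choose hex, (Classical.choose_spec hex).1, (Classical.choose_spec hex).2, ?_⟩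
    exact dif_pos hex
  obtain ⟨g, hg⟩ := exists_map (hCh.linInd hc')
    (fun s => (fun k => ap (B k) (fun j => (y0 s j : ℝ)) : Fin n → ℝ))
  let σ : Fin (m + 1) → ℝ := Fin.cons 1 (fun _ => (F : ℝ)⁻¹)
  let G : Matrix (Fin (m + 1)) (Fin n) ℝ := Matrix.of fun j k => σ j * g (Pi.single j 1) k
  have hgexp : ∀ (y : Fin (m + 1) → ℝ) (k : Fin n), g y k = ∑ j, y j * g (Pi.single j 1) k := by
    intro y k
    conv_lhs => rw [pi_eq_sum_univ' y]
    rw [map_sum, Finset.sum_apply]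
    refine Finset.sum_congr rfl fun j _ => ?_
    rw [map_smul]; rfl
  let BR : Matrix (Fin n) (Fin n) ℝ := (Matrix.of B).map (Int.castRingHom ℝ)
  let S : Matrix (Fin (m + 1) ⊕ Fin n) (Fin (m + 1) ⊕ Fin n) ℝ :=
    Matrix.fromBlocks 1 (-G) 0 BR.transpose
  have hdetS : S.det = BR.det := by
    show (Matrix.fromBlocks 1 (-G) 0 BR.transpose).det = _
    rw [Matrix.det_fromBlocks_zero₂₁, Matrix.det_one, one_mul, Matrix.det_transpose]
  have hdetB : 1 ≤ |BR.det| := by
    have h1 := RingHom.map_det (Int.castRingHom ℝ) (Matrix.of B)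
    rw [RingHom.mapMatrix_apply] at h1
    show 1 ≤ |((Matrix.of B).map (Int.castRingHom ℝ)).det|
    rw [← h1]
    show 1 ≤ |(((Matrix.of B).det : ℤ) : ℝ)|
    rw [← Int.cast_abs]
    exact_mod_cast Int.one_le_abs hB
  let e : Fin (m + 1) ⊕ Fin n ≃ Fin (m + n + 1) := Equiv.ofBijective (ge m n) (ge_bij m n)
  let MR : Matrix (Fin (m + n + 1)) (Fin (m + n + 1)) ℝ := Matrix.of fun i j => (rE (p i) j : ℝ)
  have hMR : ((dt (fun i => rE (p i)) : ℤ) : ℝ) = MR.det := by
    rw [dt]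
    have h1 := RingHom.map_det (Int.castRingHom ℝ) (Matrix.of (fun i => rE (p i)))
    rw [RingHom.mapMatrix_apply] at h1
    exact h1
  let M' : Matrix (Fin (m + 1) ⊕ Fin n) (Fin (m + 1) ⊕ Fin n) ℝ := MR.submatrix e e
  have hM' : M'.det = MR.det := Matrix.det_submatrix_equiv_self e MR
  -- entries
  have e0 : ∀ i, M' i (Sum.inl 0) = 1 := by
    intro i
    show ((rE (p (e i)) 0 : ℤ) : ℝ) = 1
    show (((1 : ℤ)) : ℝ) = 1
    simp
  have e1 : ∀ i (k : Fin m), M' i (Sum.inl k.succ) = F * (b (Vx.s (p (e i))) k : ℝ) := by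
    intro i k
    show ((rE (p (e i)) (Fin.castAdd n k).succ : ℤ) : ℝ) = _
    have h1 : rE (p (e i)) (Fin.castAdd n k).succ = (F : ℤ) * b (Vx.s (p (e i))) k := by
      show Fin.append (fun k => (F : ℤ) * b (Vx.s (p (e i))) k) (Vx.y (p (e i)))
        (Fin.castAdd n k) = _
      rw [Fin.append_left]
    rw [h1]; push_cast; ring
  have e2 : ∀ i (k : Fin n), M' i (Sum.inr k) = (Vx.y (p (e i)) k : ℝ) := by
    intro i k
    show ((rE (p (e i)) (Fin.natAdd m k).succ : ℤ) : ℝ) = _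
    have h1 : rE (p (e i)) (Fin.natAdd m k).succ = Vx.y (p (e i)) k := by
      show Fin.append (fun k => (F : ℤ) * b (Vx.s (p (e i))) k) (Vx.y (p (e i)))
        (Fin.natAdd m k) = _
      rw [Fin.append_right]
    rw [h1]
  have hrow : ∀ i (k : Fin n), ∑ j, M' i (Sum.inl j) * G j k =
      ap (B k) (fun j => (y0 (Vx.s (p (e i))) j : ℝ)) := by
    intro i k
    have h1 := hg ⟨Vx.s (p (e i)), hcs _ (hp _)⟩
    have h2 := congrFun h1 k
    rw [hgexp] at h2
    have h3 : ap (B k) (fun j => (y0 (Vx.s (p (e i))) j : ℝ)) =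
        ∑ j, rv (lab b (Vx.s (p (e i)))) j * g (Pi.single j 1) k := h2.symm
    rw [h3]
    refine Finset.sum_congr rfl fun j _ => ?_
    show M' i (Sum.inl j) * (σ j * g (Pi.single j 1) k) = _
    rw [← mul_assoc]
    congr 1
    refine Fin.cases ?_ (fun j => ?_) j
    · rw [e0]
      show (1:ℝ) * 1 = (((1 : ℤ)) : ℝ)
      simp
    · rw [e1]
      show (F : ℝ) * (b (Vx.s (p (e i))) j : ℝ) * (F : ℝ)⁻¹ = ((b (Vx.s (p (e i))) j : ℤ) : ℝ)
      field_simp
  have hMS1 : ∀ i j, (M' * S) i (Sum.inl j) = M' i (Sum.inl j) := by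
    intro i j
    rw [Matrix.mul_apply, Fintype.sum_sum_type]
    have h1 : ∀ j', M' i (Sum.inl j') * S (Sum.inl j') (Sum.inl j) =
        M' i (Sum.inl j') * (1 : Matrix (Fin (m + 1)) (Fin (m + 1)) ℝ) j' j := fun j' => rfl
    have h2 : ∀ l, M' i (Sum.inr l) * S (Sum.inr l) (Sum.inl j) = M' i (Sum.inr l) * 0 :=
      fun l => rfl
    simp only [h1, h2, mul_zero, Finset.sum_const_zero, add_zero, Matrix.one_apply, mul_ite,
      mul_one]
    rw [Finset.sum_ite_eq' Finset.univ j (fun j' => M' i (Sum.inl j')), if_pos (Finset.mem_univ _)]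
  have hMS2 : ∀ i (k : Fin n), (M' * S) i (Sum.inr k) =
      ap (B k) (fun j => (Vx.y (p (e i)) j : ℝ)) -
        ap (B k) (fun j => (y0 (Vx.s (p (e i))) j : ℝ)) := by
    intro i k
    rw [Matrix.mul_apply, Fintype.sum_sum_type]
    have h1 : ∀ j', M' i (Sum.inl j') * S (Sum.inl j') (Sum.inr k) =
        -(M' i (Sum.inl j') * G j' k) := by
      intro j'
      show M' i (Sum.inl j') * (-(G j' k)) = _
      ring
    have h2 : ∀ l, M' i (Sum.inr l) * S (Sum.inr l) (Sum.inr k) =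
        (B k l : ℝ) * (Vx.y (p (e i)) l : ℝ) := by
      intro l
      rw [e2]
      show (Vx.y (p (e i)) l : ℝ) * (((B k l : ℤ) : ℝ)) = _
      ring
    simp only [h1, h2, Finset.sum_neg_distrib, hrow]
    rw [ap, ap]
    ring
  set C : ℝ := 1 + D * F * w + 2 * n * ρ with hC
  have hpos1 : (0:ℝ) ≤ D * F * w := by positivity
  have hpos2 : (0:ℝ) ≤ 2 * n * ρ := by positivity
  have hent : ∀ i j, |(M' * S) i j| ≤ C := by
    rintro i (j | k)
    · rw [hMS1]
      refine Fin.cases ?_ (fun k => ?_) j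
      · rw [e0, abs_one, hC]; linarith
      · rw [e1]
        have h1 : qt D b (Vx.s (p (e i))) ∈ W := by
          obtain ⟨x, hx, hxs⟩ := (p (e i)).2.1
          refine hWc x hx _ ?_
          have h2 := hb x
          have h3 : (p (e i)).1.1 = Vx.s (p (e i)) := rfl
          rw [h3] at hxs
          rw [hxs]
          exact h2.le
        have h2 := hWw _ h1 k
        have h3 : (b (Vx.s (p (e i))) k : ℝ) = D * qt D b (Vx.s (p (e i))) k := by
          show _ = (D : ℝ) * ((b (Vx.s (p (e i))) k : ℝ) / D)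
          field_simp
        rw [h3, abs_mul, abs_mul, abs_of_pos hFr, abs_of_pos hDr, hC]
        have h4 : (F : ℝ) * (D * |qt D b (Vx.s (p (e i))) k|) ≤ F * (D * w) := by
          refine mul_le_mul_of_nonneg_left ?_ hFr.le
          exact mul_le_mul_of_nonneg_left h2 hDr.le
        nlinarith
    · rw [hMS2]
      obtain ⟨q', hq', hs', hy'⟩ := hy0 (p (e i)) (hp _)
      rw [hy']
      have h1 := fib_diff hconv (Nat.mul_pos hD hF) h hc (hp (e i)) hq' hs'.symm k
      refine h1.trans ?_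
      rw [hC]; linarith
  have hdet := Matrix.det_le (A := M' * S) (abv := AbsoluteValue.abs) (x := C) hent
  have hcard : Fintype.card (Fin (m + 1) ⊕ Fin n) = m + n + 1 := by
    simp only [Fintype.card_sum, Fintype.card_fin]; omega
  rw [hcard, nsmul_eq_mul, Matrix.det_mul, hdetS, hM', ← hMR] at hdet
  have h1 : AbsoluteValue.abs (((dt (fun i => rE (p i)) : ℤ) : ℝ) * BR.det) =
      |((dt (fun i => rE (p i)) : ℤ) : ℝ)| * |BR.det| := by
    rw [map_mul]; rfl
  rw [h1] at hdet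
  have h2 : |((dt (fun i => rE (p i)) : ℤ) : ℝ)| ≤
      |((dt (fun i => rE (p i)) : ℤ) : ℝ)| * |BR.det| :=
    le_mul_of_one_le_right (abs_nonneg _) hdetB
  refine h2.trans (hdet.trans (le_of_eq ?_))
  push_cast
  rw [hC]

end asm

end H79KMW
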