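import Pool.Agent.Work.MP_6237c7_co.LV.Asm3

set_option autoImplicit false
set_option linter.unusedSectionVars false

namespace H79KMW

open Finsupp
open scoped Pointwise

/-- Splitting a point of the product. -/
def spl {m n : ℕ} (x : Fin (m + n) → ℝ) : (Fin m → ℝ) × (Fin n → ℝ) :=
  (fun k => x (Fin.castAdd n k), fun k => x (Fin.natAdd m k))

section asm
variable {m n : ℕ} {ι : Type*} {a : ι → Fin m → ℤ} {D F : ℕ} {b : (ι → ℤ) → (Fin m → ℤ)}
  {W : Set (Fin m → ℝ)} {P : Set ((Fin m → ℝ) × (Fin n → ℝ))}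

lemma Vx_finite [Finite ι] (hDF : 0 < D * F) (hW : Bornology.IsBounded W)
    (hPb : Bornology.IsBounded P) : Finite (Vx a D F b W P) := by
  classical
  have hE : (0:ℝ) < ((D * F : ℕ) : ℝ) := by exact_mod_cast hDF
  obtain ⟨R, hR⟩ := hPb.exists_norm_le
  obtain ⟨N, hN⟩ := exists_nat_ge |R|
  have hfin : ({s | ∃ x ∈ W, s = sg a x} ×ˢ (Set.pi Set.univ
      (fun _ : Fin n => Set.Icc (-((D * F * N : ℕ) : ℤ)) ((D * F * N : ℕ) : ℤ)))).Finite :=
    (sig_finite hW).prod (Set.Finite.pi fun i => Set.finite_Icc _ _)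
  have hsub : {p : (ι → ℤ) × (Fin n → ℤ) | (∃ x ∈ W, p.1 = sg a x) ∧
      (qt D b p.1, (fun k => (p.2 k : ℝ) / ((D * F : ℕ) : ℝ))) ∈ P} ⊆
      ({s | ∃ x ∈ W, s = sg a x} ×ˢ (Set.pi Set.univ
      (fun _ : Fin n => Set.Icc (-((D * F * N : ℕ) : ℤ)) ((D * F * N : ℕ) : ℤ)))) := by
    rintro p ⟨h1, h2⟩
    refine ⟨h1, fun k _ => ?_⟩
    have h3 := hR _ h2
    have h4 : ‖(fun k => (p.2 k : ℝ) / ((D * F : ℕ) : ℝ))‖ ≤ R := (norm_snd_le _).trans h3
    have h5 := (norm_le_pi_norm (fun k => (p.2 k : ℝ) / ((D * F : ℕ) : ℝ)) k).trans h4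
    have h5' : |(p.2 k : ℝ) / ((D * F : ℕ) : ℝ)| ≤ R := h5
    rw [abs_div, abs_of_pos hE, div_le_iff₀ hE] at h5'
    have h6 : |(p.2 k : ℝ)| ≤ ((D * F * N : ℕ) : ℝ) := by
      refine h5'.trans ?_
      push_cast
      have h7 : R ≤ N := (le_abs_self R).trans hN
      push_cast at hE
      nlinarith
    have h7 := abs_le.1 h6
    constructor
    · have h8 : (((-((D * F * N : ℕ) : ℤ)) : ℤ) : ℝ) ≤ (p.2 k : ℝ) := by
        push_cast
        push_cast at h7
        exact h7.1
      exact_mod_cast h8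
    · have h8 : (p.2 k : ℝ) ≤ ((((D * F * N : ℕ) : ℤ)) : ℝ) := by
        push_cast
        push_cast at h7
        exact h7.2
      exact_mod_cast h8
  exact (hfin.subset hsub).to_subtype

/-- The main assembly. -/
theorem asm_main [Fintype ι] (hconv : Convex ℝ P) (hPb : Bornology.IsBounded P) (hD : 0 < D)
    (hF : 0 < F) (hW : Bornology.IsBounded W) (hneg : ∀ i, ∃ j, a j = - a i)
    (he : ∀ k : Fin m, ∃ j, a j = Pi.single k 1)
    (hb : ∀ x : Fin m → ℝ, sg a (fun k => (b (sg a x) k : ℝ) / D) = sg a x)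
    (hWc : ∀ x ∈ W, ∀ y, sg a y ≤ sg a x → y ∈ W) {w : ℕ} (hWw : ∀ z ∈ W, ∀ k, |z k| ≤ (w : ℝ))
    (hPW : ∀ q ∈ P, q.1 ∈ W)
    {B : Fin n → Fin n → ℤ} (hB : (Matrix.of B).det ≠ 0) {ρ : ℕ} (h : FibLMP a D F b W P B ρ)
    (hgrid : ∀ (z : Fin m → ℝ) (c : Fin n → ℝ), (z, c) ∈ P → ∀ ω ∈ body (Ch a W),
      (∑ s ∈ ω.support, ω s = 1) → (∀ k, ∑ s ∈ ω.support, ω s * qt D b s k = z k) →
      (∀ s ∈ ω.support, s ≤ sg a z) → ∃ x : (ι → ℤ) → (Fin n → ℝ),
        (∀ s ∈ ω.support, (qt D b s, x s) ∈ P) ∧ ∀ k, ∑ s ∈ ω.support, ω s * x s k = c k) :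
    ∃ C : Set (Finset (Fin (m + n + 1) → ℤ)), IsCx id C ∧ Lv C ∧
      MB C ((((m + n + 1).factorial * (1 + D * F * w + 2 * n * ρ) ^ (m + n + 1) : ℕ)) : ℝ) ∧
      sec C = ((D * F : ℕ) : ℝ) • {x : Fin (m + n) → ℝ | spl x ∈ P} := by
  classical
  have hDF : 0 < D * F := Nat.mul_pos hD hF
  have hE : (0:ℝ) < ((D * F : ℕ) : ℝ) := by exact_mod_cast hDF
  have hDr : (0:ℝ) < D := by exact_mod_cast hD
  have hFr : (0:ℝ) < F := by exact_mod_cast hF
  have hfin := Vx_finite (a := a) (b := b) hDF hW hPb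
  have : Fintype (Vx a D F b W P) := Fintype.ofFinite _
  have hCx : IsCx (rE (a := a) (D := D) (F := F) (b := b) (W := W) (P := P)) (KE B) :=
    KE_isCx hF hW hneg hb
  refine ⟨push rE (KE B), push_isCx hCx, ?_, ?_, ?_⟩
  · rintro s ⟨c, _, hs⟩ x hx
    have : x ∈ (s : Set (Fin (m + n + 1) → ℤ)) := hx
    rw [hs] at this
    obtain ⟨z, _, rfl⟩ := this
    rfl
  · rintro s ⟨c, hc, hs⟩ f hf
    have hf' : ∀ k, ∃ z ∈ c, f k = rE z := by
      intro k
      have h1 : f k ∈ (s : Set (Fin (m + n + 1) → ℤ)) := hf k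
      rw [hs] at h1
      obtain ⟨z, hz, hzf⟩ := h1
      exact ⟨z, hz, hzf.symm⟩
    choose p hpc hpf using hf'
    have h1 : f = fun i => rE (p i) := funext hpf
    rw [h1]
    exact KE_dt hconv hD hF hW hneg hb hWc hWw hB h hc p hpc
  · ext x
    rw [Set.mem_smul_set_iff_inv_smul_mem₀ hE.ne']
    show (Fin.cons 1 x : Fin (m + n + 1) → ℝ) ∈ supp id (push rE (KE B)) ↔ _
    rw [supp_push hCx]
    constructor
    · rintro ⟨u, hu, hux⟩
      have h0 : ∑ q ∈ u.support, u q = 1 := by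
        have h1 := congrFun hux 0
        rw [lc_apply_of_subset u u.support (Finset.Subset.refl _)] at h1
        have h2 : (Fin.cons 1 x : Fin (m + n + 1) → ℝ) 0 = 1 := rfl
        rw [h2] at h1
        rw [← h1]
        refine Finset.sum_congr rfl fun q _ => ?_
        show u q = u q * (((1 : ℤ)) : ℝ)
        simp
      have hmem := hconv.sum_mem (fun q _ => hu.1 q) h0
        (z := fun q : Vx a D F b W P => ((qt D b (Vx.s q), (fun k => (Vx.y q k : ℝ) /
          ((D * F : ℕ) : ℝ))) : (Fin m → ℝ) × (Fin n → ℝ))) (fun q _ => q.2.2)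
      have heq : spl ((((D * F : ℕ) : ℝ))⁻¹ • x) = ∑ q ∈ u.support, u q •
          ((qt D b (Vx.s q), (fun k => (Vx.y q k : ℝ) / ((D * F : ℕ) : ℝ))) :
            (Fin m → ℝ) × (Fin n → ℝ)) := by
        refine Prod.ext ?_ ?_
        · rw [Prod.fst_sum]
          funext k
          rw [Finset.sum_apply]
          have h1 := lc_rE_base u k
          rw [hux] at h1
          have h2 : (Fin.cons 1 x : Fin (m + n + 1) → ℝ) (Fin.castAdd n k).succ =
            x (Fin.castAdd n k) := rfl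
          rw [h2] at h1
          show (((D * F : ℕ) : ℝ))⁻¹ * x (Fin.castAdd n k) = _
          rw [h1, lc_apply_of_subset u u.support (Finset.Subset.refl _), Finset.mul_sum,
            Finset.mul_sum]
          refine Finset.sum_congr rfl fun q _ => ?_
          show (((D * F : ℕ) : ℝ))⁻¹ * ((F : ℝ) * (u q * (b (Vx.s q) k : ℝ))) =
            u q * ((b (Vx.s q) k : ℝ) / D)
          push_cast
          field_simp
        · rw [Prod.snd_sum]
          funext k
          rw [Finset.sum_apply]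
          have h1 := lc_rE_fib u k
          rw [hux] at h1
          have h2 : (Fin.cons 1 x : Fin (m + n + 1) → ℝ) (Fin.natAdd m k).succ =
            x (Fin.natAdd m k) := rfl
          rw [h2] at h1
          show (((D * F : ℕ) : ℝ))⁻¹ * x (Fin.natAdd m k) = _
          rw [h1, lf_inr, Finsupp.linearCombination_apply, Finsupp.sum, Finset.mul_sum]
          refine Finset.sum_congr rfl fun q _ => ?_
          show (((D * F : ℕ) : ℝ))⁻¹ * (u q * (Vx.y q k : ℝ)) =
            u q * ((Vx.y q k : ℝ) / ((D * F : ℕ) : ℝ))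
          field_simp
      show spl ((((D * F : ℕ) : ℝ))⁻¹ • x) ∈ P
      rw [heq]
      exact hmem
    · intro hx
      have hx' : spl ((((D * F : ℕ) : ℝ))⁻¹ • x) ∈ P := hx
      set z : Fin m → ℝ := (spl ((((D * F : ℕ) : ℝ))⁻¹ • x)).1 with hz
      set c : Fin n → ℝ := (spl ((((D * F : ℕ) : ℝ))⁻¹ • x)).2 with hc
      have hzc : (z, c) ∈ P := hx'
      have hzW : z ∈ W := hPW _ hx'
      obtain ⟨N, hN⟩ : ∃ N : ℕ, (∑ i, (⌈ap (a i) z⌉ + ⌈- ap (a i) z⌉) : ℤ) ≤ N :=
        ⟨_, Int.self_le_toNat _⟩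
      obtain ⟨ω, hω, hωs, hωl⟩ := Ch_cover hD hneg he hb hWc N z hzW hN
      have hω1 : ∑ s ∈ ω.support, ω s = 1 := by
        rw [← lc_lab_zero (b := b), hωl]; rfl
      have hωk : ∀ k, ∑ s ∈ ω.support, ω s * (b s k : ℝ) = D * z k := by
        intro k
        rw [← lc_lab_succ (b := b), hωl]; rfl
      have hωz : ∀ k, ∑ s ∈ ω.support, ω s * qt D b s k = z k := by
        intro k
        have h1 := hωk k
        have h2 : ∑ s ∈ ω.support, ω s * qt D b s k =
            (D : ℝ)⁻¹ * ∑ s ∈ ω.support, ω s * (b s k : ℝ) := by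
          rw [Finset.mul_sum]
          refine Finset.sum_congr rfl fun s _ => ?_
          show ω s * ((b s k : ℝ) / D) = _
          field_simp
        rw [h2, h1]
        field_simp
      obtain ⟨xs, hxs, hxsum⟩ := hgrid z c hzc ω hω hω1 hωz hωs
      have hfw : ∀ s, ∃ u : Vx a D F b W P →₀ ℝ, (∀ q, 0 ≤ u q) ∧ (s ∈ ω.support →
          u.mapDomain (fun q => Vx.s q) = single s 1 ∧
          ∀ k, lf (Sum.inr k) u = ((D * F : ℕ) : ℝ) * xs s k) := by
        intro s
        by_cases hs : s ∈ ω.support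
        · obtain ⟨u, h1, h2, h3, _⟩ := fib_w h (hω.2.1 s hs) (hxs s hs)
          exact ⟨u, h1, fun _ => ⟨h2, h3⟩⟩
        · exact ⟨0, fun _ => le_rfl, fun h => absurd h hs⟩
      choose us hus0 hus using hfw
      let w0 : Vx a D F b W P →₀ ℝ := ∑ s ∈ ω.support, ω s • us s
      have hw00 : ∀ q, 0 ≤ w0 q := by
        intro q
        show 0 ≤ (∑ s ∈ ω.support, ω s • us s) q
        rw [Finsupp.finsetSum_apply]
        refine Finset.sum_nonneg fun s _ => ?_
        rw [Finsupp.smul_apply, smul_eq_mul]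
        exact mul_nonneg (hω.1 s) (hus0 s q)
      have hw0m : w0.mapDomain (fun q => Vx.s q) = ω := by
        show Finsupp.mapDomain (fun q => Vx.s q) (∑ s ∈ ω.support, ω s • us s) = ω
        rw [Finsupp.mapDomain_finsetSum]
        have h1 : ∀ s ∈ ω.support, Finsupp.mapDomain (fun q : Vx a D F b W P => Vx.s q)
            (ω s • us s) = single s (ω s) := by
          intro s hs
          rw [Finsupp.mapDomain_smul, (hus s hs).1, Finsupp.smul_single, smul_eq_mul, mul_one]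
        rw [Finset.sum_congr rfl h1]
        exact Finsupp.sum_single ω
      have hw0y : ∀ k, lf (Sum.inr k) w0 = ((D * F : ℕ) : ℝ) * c k := by
        intro k
        show lf (Sum.inr k) (∑ s ∈ ω.support, ω s • us s) = _
        rw [map_sum, ← hxsum k, Finset.mul_sum]
        refine Finset.sum_congr rfl fun s hs => ?_
        rw [map_smul, (hus s hs).2 k, smul_eq_mul]
        ring
      obtain ⟨u, hu, hul⟩ := LPK_exists (fs := cost B :: (Finset.univ :
        Finset (Vx a D F b W P)).toList.map (fun p => Finsupp.lapply p)) lf_total w0 hw00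
      have hum : u.mapDomain (fun q => Vx.s q) = ω := by
        rw [← hw0m]
        ext s
        exact hul (Sum.inl s)
      have husub : ∀ q ∈ u.support, Vx.s q ∈ ω.support := by
        intro q hq
        rw [Finsupp.mem_support_iff, ← hum]
        have hpos : 0 < u q := lt_of_le_of_ne (hu.1 q) (Ne.symm (Finsupp.mem_support_iff.1 hq))
        have h1 : u q ≤ (u.mapDomain (fun q => Vx.s q)) (Vx.s q) := by
          rw [Finsupp.mapDomain, Finsupp.sum, Finsupp.finsetSum_apply]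
          have h2 : u q = (single (Vx.s q) (u q) : (ι → ℤ) →₀ ℝ) (Vx.s q) := by
            rw [Finsupp.single_eq_same]
          conv_lhs => rw [h2]
          refine Finset.single_le_sum (f := fun q' => (single (Vx.s q') (u q') :
            (ι → ℤ) →₀ ℝ) (Vx.s q)) (fun q' _ => ?_) hq
          rw [Finsupp.single_apply]
          split_ifs
          · exact hu.1 q'
          · exact le_rfl
        exact (lt_of_lt_of_le hpos h1).ne'
      refine ⟨u, ⟨hu.1, hu.2, ω.support, hω.2, husub⟩, ?_⟩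
      refine ext_fin ?_ (fun k => ?_) (fun k => ?_)
      · rw [lc_rE_zero, ← lc_r1, hum, hωl]; rfl
      · rw [lc_rE_base, ← lc_r1, hum, hωl]
        show (F : ℝ) * ((D : ℝ) * ((((D * F : ℕ) : ℝ))⁻¹ * x (Fin.castAdd n k))) =
          x (Fin.castAdd n k)
        push_cast
        field_simp
      · rw [lc_rE_fib, hul, hw0y]
        show ((D * F : ℕ) : ℝ) * ((((D * F : ℕ) : ℝ))⁻¹ * x (Fin.natAdd m k)) =
          x (Fin.natAdd m k)
        rw [mul_inv_cancel_left₀ hE.ne']

end asm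

end H79KMW
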