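import Mathlib

set_option autoImplicit false

namespace H79KMW

open Filter Topology

/-- The value of an integer functional. -/
def ap {d : ℕ} (a : Fin d → ℤ) (x : Fin d → ℝ) : ℝ := ∑ k, (a k : ℝ) * x k

/-- The signature of a point. -/
noncomputable def sg {ι : Type*} {d : ℕ} (a : ι → Fin d → ℤ) (x : Fin d → ℝ) : ι → ℤ :=
  fun i => ⌈ap (a i) x⌉

lemma ap_add {d : ℕ} (a : Fin d → ℤ) (x y : Fin d → ℝ) : ap a (x + y) = ap a x + ap a y := by
  simp only [ap, Pi.add_apply, mul_add, Finset.sum_add_distrib]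

lemma ap_smul {d : ℕ} (a : Fin d → ℤ) (c : ℝ) (x : Fin d → ℝ) : ap a (c • x) = c * ap a x := by
  simp only [ap, Pi.smul_apply, smul_eq_mul, Finset.mul_sum]
  exact Finset.sum_congr rfl fun k _ => by ring

lemma ap_neg {d : ℕ} (a : Fin d → ℤ) (x : Fin d → ℝ) : ap (-a) x = - ap a x := by
  simp only [ap, Pi.neg_apply, Int.cast_neg, neg_mul, Finset.sum_neg_distrib]

lemma ap_single {d : ℕ} (k : Fin d) (x : Fin d → ℝ) : ap (Pi.single k (1 : ℤ)) x = x k := by
  classical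
  rw [ap, Finset.sum_eq_single k]
  · rw [Pi.single_eq_same]; simp
  · intro j _ hj
    rw [Pi.single_eq_of_ne hj]; simp
  · intro h; exact absurd (Finset.mem_univ _) h

/-- Simultaneous rational approximation. -/
lemma dirichlet {d : ℕ} (x : Fin d → ℝ) {ε : ℝ} (hε : 0 < ε) :
    ∃ D : ℕ, 0 < D ∧ ∃ p : Fin d → ℤ, ∀ k, |(D : ℝ) * x k - p k| < ε := by
  classical
  obtain ⟨N, hN⟩ := exists_nat_gt (1 / ε)
  have hN0 : (0:ℝ) < N := lt_trans (by positivity) hN
  have hNpos : 0 < N := by exact_mod_cast hN0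
  have hfl : ∀ (y : ℝ), 0 ≤ ⌊(N : ℝ) * Int.fract y⌋ ∧ ⌊(N : ℝ) * Int.fract y⌋ < N := by
    intro y
    constructor
    · exact Int.floor_nonneg.2 (mul_nonneg hN0.le (Int.fract_nonneg y))
    · rw [Int.floor_lt]
      push_cast
      have := Int.fract_lt_one y
      nlinarith
  let f : ℕ → (Fin d → Fin N) := fun n k =>
    ⟨(⌊(N : ℝ) * Int.fract ((n : ℝ) * x k)⌋).toNat, by
      have := hfl ((n : ℝ) * x k)
      omega⟩
  obtain ⟨n, m, hne, hfe⟩ := Finite.exists_ne_map_eq_of_infinite f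
  -- symmetric choice
  have key : ∀ n m : ℕ, n < m → f n = f m →
      ∃ D : ℕ, 0 < D ∧ ∃ p : Fin d → ℤ, ∀ k, |(D : ℝ) * x k - p k| < ε := by
    intro n m hnm hfe
    refine ⟨m - n, Nat.sub_pos_of_lt hnm, fun k => ⌊(m : ℝ) * x k⌋ - ⌊(n : ℝ) * x k⌋, fun k => ?_⟩
    have h1 : (⌊(N : ℝ) * Int.fract ((n : ℝ) * x k)⌋).toNat =
        (⌊(N : ℝ) * Int.fract ((m : ℝ) * x k)⌋).toNat := by
      have := congrArg Fin.val (congrFun hfe k)
      exact this
    have h2 := hfl ((n : ℝ) * x k)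
    have h3 := hfl ((m : ℝ) * x k)
    have h4 : ⌊(N : ℝ) * Int.fract ((n : ℝ) * x k)⌋ = ⌊(N : ℝ) * Int.fract ((m : ℝ) * x k)⌋ := by
      omega
    have h5 : |(N : ℝ) * Int.fract ((n : ℝ) * x k) - (N : ℝ) * Int.fract ((m : ℝ) * x k)| < 1 :=
      Int.abs_sub_lt_one_of_floor_eq_floor h4
    rw [← mul_sub, abs_mul, abs_of_pos hN0] at h5
    have h6 : |Int.fract ((n : ℝ) * x k) - Int.fract ((m : ℝ) * x k)| < ε := by
      have h7 : 1 < ε * N := by
        rw [div_lt_iff₀ hε] at hN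
        linarith
      by_contra hcon
      push Not at hcon
      nlinarith
    have h8 : ((m - n : ℕ) : ℝ) = (m : ℝ) - n := by
      rw [Nat.cast_sub hnm.le]
    rw [h8]
    push_cast
    have h9 : ((m : ℝ) - n) * x k - ((⌊(m : ℝ) * x k⌋ : ℝ) - (⌊(n : ℝ) * x k⌋ : ℝ)) =
        Int.fract ((m : ℝ) * x k) - Int.fract ((n : ℝ) * x k) := by
      rw [Int.fract, Int.fract]
      ring
    rw [h9, abs_sub_comm]
    exact h6
  rcases lt_or_gt_of_ne hne with h | h
  · exact key n m h hfe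
  · exact key m n h hfe.symm

/-- A rational point with the same signature. -/
lemma exists_rat {ι : Type*} [Finite ι] {d : ℕ} (a : ι → Fin d → ℤ) (x : Fin d → ℝ) :
    ∃ D : ℕ, 0 < D ∧ ∃ p : Fin d → ℤ, sg a (fun k => (p k : ℝ) / D) = sg a x := by
  classical
  let C : ι → ℝ := fun i => ∑ k, |(a i k : ℝ)|
  let g : ι → ℝ := fun i => ap (a i) x - (⌈ap (a i) x⌉ - 1)
  let u : ι → ℝ := fun i => if (⌈ap (a i) x⌉ : ℝ) - ap (a i) x = 0 then 1 else
    (⌈ap (a i) x⌉ : ℝ) - ap (a i) x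
  have hg : ∀ i, 0 < g i := fun i => by
    have := Int.ceil_lt_add_one (ap (a i) x)
    show 0 < ap (a i) x - (⌈ap (a i) x⌉ - 1)
    linarith
  have hu : ∀ i, 0 < u i := fun i => by
    show 0 < if (⌈ap (a i) x⌉ : ℝ) - ap (a i) x = 0 then 1 else (⌈ap (a i) x⌉ : ℝ) - ap (a i) x
    split_ifs with h
    · exact one_pos
    · have := Int.le_ceil (ap (a i) x)
      exact lt_of_le_of_ne (by linarith) (Ne.symm h)
  have hev : ∀ᶠ ε : ℝ in 𝓝[>] 0, ∀ i, C i * ε < min 1 (min (g i) (u i)) := by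
    rw [Filter.eventually_all]
    intro i
    have hc : Tendsto (fun ε : ℝ => C i * ε) (𝓝[>] 0) (𝓝 (C i * 0)) :=
      ((continuous_const.mul continuous_id).tendsto 0).mono_left nhdsWithin_le_nhds
    rw [mul_zero] at hc
    exact hc.eventually (gt_mem_nhds (lt_min one_pos (lt_min (hg i) (hu i))))
  obtain ⟨ε, hε1, hε0⟩ := (hev.and self_mem_nhdsWithin).exists
  obtain ⟨D, hD, p, hp⟩ := dirichlet x (ε := ε) hε0
  refine ⟨D, hD, p, ?_⟩
  have hD1 : (1:ℝ) ≤ D := by exact_mod_cast hD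
  have hD0 : (0:ℝ) < D := by linarith
  funext i
  show ⌈ap (a i) (fun k => (p k : ℝ) / D)⌉ = ⌈ap (a i) x⌉
  set y : ℝ := ap (a i) x with hy
  set y' : ℝ := ap (a i) (fun k => (p k : ℝ) / D) with hy'
  have h1 : |(D : ℝ) * y - D * y'| ≤ C i * ε := by
    have h2 : (D : ℝ) * y - D * y' = ∑ k, (a i k : ℝ) * ((D : ℝ) * x k - p k) := by
      rw [hy, hy', ap, ap, Finset.mul_sum, Finset.mul_sum, ← Finset.sum_sub_distrib]
      refine Finset.sum_congr rfl fun k _ => ?_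
      field_simp
    rw [h2]
    refine (Finset.abs_sum_le_sum_abs _ _).trans ?_
    show _ ≤ (∑ k, |(a i k : ℝ)|) * ε
    rw [Finset.sum_mul]
    refine Finset.sum_le_sum fun k _ => ?_
    rw [abs_mul]
    exact mul_le_mul_of_nonneg_left (hp k).le (abs_nonneg _)
  have h3 : C i * ε < 1 := lt_of_lt_of_le (hε1 i) (min_le_left _ _)
  have h4 : C i * ε < g i := lt_of_lt_of_le (hε1 i) ((min_le_right _ _).trans (min_le_left _ _))
  have h5 : C i * ε < u i := lt_of_lt_of_le (hε1 i) ((min_le_right _ _).trans (min_le_right _ _))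
  have h6 : |y - y'| ≤ C i * ε := by
    have h7 : |(D : ℝ) * y - D * y'| = D * |y - y'| := by
      rw [← mul_sub, abs_mul, abs_of_pos hD0]
    rw [h7] at h1
    have := abs_nonneg (y - y')
    nlinarith
  rw [Int.ceil_eq_iff]
  have h8 := abs_le.1 h6
  constructor
  · have : g i = y - (⌈y⌉ - 1) := rfl
    linarith
  · by_cases hz : (⌈y⌉ : ℝ) - y = 0
    · -- integral value
      have h9 : (D : ℝ) * y' = ((∑ k, a i k * p k : ℤ) : ℝ) := by
        rw [hy', ap, Finset.mul_sum]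
        push_cast
        refine Finset.sum_congr rfl fun k _ => ?_
        field_simp
      have h10 : (D : ℝ) * y = ((D * ⌈y⌉ : ℤ) : ℝ) := by
        push_cast
        have : (⌈y⌉ : ℝ) = y := by linarith
        rw [this]
      rw [h9, h10, ← Int.cast_sub, ← Int.cast_abs] at h1
      have h11 : |(D : ℤ) * ⌈y⌉ - ∑ k, a i k * p k| < 1 := by
        have : ((|(D : ℤ) * ⌈y⌉ - ∑ k, a i k * p k| : ℤ) : ℝ) < 1 := lt_of_le_of_lt h1 h3
        exact_mod_cast this
      have h12 : (D : ℤ) * ⌈y⌉ = ∑ k, a i k * p k := by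
        have := Int.abs_lt_one_iff.1 h11
        linarith
      have h13 : (D : ℝ) * y' = D * ⌈y⌉ := by
        rw [h9, ← h12]; push_cast; ring
      exact (mul_left_cancel₀ hD0.ne' h13).le
    · have : u i = (⌈y⌉ : ℝ) - y := if_neg hz
      linarith

/-- Uniform rational representatives of all signatures. -/
lemma exists_rep {ι : Type*} [Finite ι] {d : ℕ} (a : ι → Fin d → ℤ)
    (hneg : ∀ i, ∃ j, a j = - a i) (he : ∀ k : Fin d, ∃ j, a j = Pi.single k 1) :
    ∃ D : ℕ, 0 < D ∧ ∃ b : (ι → ℤ) → (Fin d → ℤ), ∀ x : Fin d → ℝ,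
      sg a (fun k => (b (sg a x) k : ℝ) / D) = sg a x := by
  classical
  have hjn : ∀ k : Fin d, ∃ j, a j = - Pi.single k 1 := by
    intro k
    obtain ⟨j, hj⟩ := he k
    obtain ⟨j', hj'⟩ := hneg j
    exact ⟨j', by rw [hj', hj]⟩
  choose jn hjn using hjn
  -- signatures of points of the unit cube
  let S0 : Set (ι → ℤ) := {s | ∃ x : Fin d → ℝ, (∀ k, 0 ≤ x k ∧ x k < 1) ∧ s = sg a x}
  have hS0 : S0.Finite := by
    have hfin : (Set.pi Set.univ (fun i : ι => Set.Icc (-(∑ k, |a i k|)) ((∑ k, |a i k|)))).Finite :=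
      Set.Finite.pi fun i => Set.finite_Icc _ _
    refine hfin.subset ?_
    rintro s ⟨x, hx, rfl⟩ i _
    have h1 : |ap (a i) x| ≤ ((∑ k, |a i k| : ℤ) : ℝ) := by
      rw [ap]
      refine (Finset.abs_sum_le_sum_abs _ _).trans ?_
      push_cast
      refine Finset.sum_le_sum fun k _ => ?_
      rw [abs_mul]
      have h2 : |x k| ≤ 1 := by
        rw [abs_of_nonneg (hx k).1]; exact (hx k).2.le
      have h3 := abs_nonneg (a i k : ℝ)
      nlinarith
    have h2 := abs_le.1 h1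
    constructor
    · show -(∑ k, |a i k|) ≤ ⌈ap (a i) x⌉
      have h3 : ((-(∑ k, |a i k|) : ℤ) : ℝ) ≤ ⌈ap (a i) x⌉ := by
        rw [Int.cast_neg]
        exact h2.1.trans (Int.le_ceil _)
      exact_mod_cast h3
    · show ⌈ap (a i) x⌉ ≤ _
      rw [Int.ceil_le]
      exact h2.2
  have hrat : ∀ s : ι → ℤ, ∃ Dp : ℕ × (Fin d → ℤ), 0 < Dp.1 ∧
      (s ∈ S0 → sg a (fun k => (Dp.2 k : ℝ) / Dp.1) = s) := by
    intro s
    by_cases hs : s ∈ S0
    · obtain ⟨x, _, rfl⟩ := hs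
      obtain ⟨D, hD, p, hp⟩ := exists_rat a x
      exact ⟨(D, p), hD, fun _ => hp⟩
    · exact ⟨(1, 0), one_pos, fun h => absurd h hs⟩
  choose F hF0 hF using hrat
  let D : ℕ := ∏ s ∈ hS0.toFinset, (F s).1
  have hD : 0 < D := Finset.prod_pos fun s _ => hF0 s
  let b0 : (ι → ℤ) → (Fin d → ℤ) := fun s k => (F s).2 k * ((D / (F s).1 : ℕ) : ℤ)
  have hb0 : ∀ s ∈ S0, ∀ k, (b0 s k : ℝ) / D = ((F s).2 k : ℝ) / (F s).1 := by
    intro s hs k
    have hdvd : (F s).1 ∣ D := Finset.dvd_prod_of_mem (fun s => (F s).1) (hS0.mem_toFinset.2 hs)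
    obtain ⟨c, hc⟩ := hdvd
    have h1 : D / (F s).1 = c := by
      rw [hc]; exact Nat.mul_div_cancel_left c (hF0 s)
    show (((F s).2 k * ((D / (F s).1 : ℕ) : ℤ) : ℤ) : ℝ) / D = _
    rw [h1]
    have hF' : (0:ℝ) < (F s).1 := by exact_mod_cast hF0 s
    have hDr : (0:ℝ) < D := by exact_mod_cast hD
    have h2 : (D : ℝ) = (F s).1 * c := by rw [hc]; push_cast; ring
    rw [div_eq_div_iff hDr.ne' hF'.ne', h2]
    push_cast
    ring
  let zz : (ι → ℤ) → (Fin d → ℤ) := fun s k => - s (jn k)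
  let sh : (ι → ℤ) → (ι → ℤ) := fun s i => s i - ∑ k, a i k * zz s k
  refine ⟨D, hD, fun s k => D * zz s k + b0 (sh s) k, fun x => ?_⟩
  have hDr : (0:ℝ) < D := by exact_mod_cast hD
  have hzz : zz (sg a x) = fun k => ⌊x k⌋ := by
    funext k
    show - ⌈ap (a (jn k)) x⌉ = ⌊x k⌋
    rw [hjn k, ap_neg, ap_single, Int.ceil_neg, neg_neg]
  have hshift : ∀ (y : Fin d → ℝ) (z : Fin d → ℤ) (i : ι),
      sg a (fun k => (z k : ℝ) + y k) i = (∑ k, a i k * z k) + sg a y i := by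
    intro y z i
    show ⌈ap (a i) (fun k => (z k : ℝ) + y k)⌉ = (∑ k, a i k * z k) + ⌈ap (a i) y⌉
    have h1 : ap (a i) (fun k => (z k : ℝ) + y k) = ap (a i) y + ((∑ k, a i k * z k : ℤ) : ℝ) := by
      rw [ap, ap]
      push_cast
      rw [← Finset.sum_add_distrib]
      exact Finset.sum_congr rfl fun k _ => by ring
    rw [h1, Int.ceil_add_intCast]
    ring
  have hsh : sh (sg a x) = sg a (fun k => x k - ⌊x k⌋) := by
    funext i
    show sg a x i - ∑ k, a i k * zz (sg a x) k = _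
    have h1 := hshift (fun k => x k - ⌊x k⌋) (fun k => ⌊x k⌋) i
    have h2 : (fun k => ((⌊x k⌋ : ℤ) : ℝ) + (x k - ⌊x k⌋)) = x := by
      funext k; ring
    rw [h2] at h1
    rw [h1, hzz]
    ring
  have hmem : sh (sg a x) ∈ S0 := by
    rw [hsh]
    refine ⟨fun k => x k - ⌊x k⌋, fun k => ⟨?_, ?_⟩, rfl⟩
    · have := Int.floor_le (x k); linarith
    · have := Int.lt_floor_add_one (x k); linarith
  have hsum : (fun k => (((D : ℤ) * zz (sg a x) k + b0 (sh (sg a x)) k : ℤ) : ℝ) / D) =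
      fun k => (zz (sg a x) k : ℝ) + ((F (sh (sg a x))).2 k : ℝ) / (F (sh (sg a x))).1 := by
    funext k
    rw [← hb0 _ hmem k]
    push_cast
    field_simp
  funext i
  rw [hsum, hshift, hF _ hmem]
  show (∑ k, a i k * zz (sg a x) k) + (sg a x i - ∑ k, a i k * zz (sg a x) k) = sg a x i
  ring

end H79KMW
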