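import Pool.Agent.Work.MP_6237c7_co.LV.Main
import Pool.Agent.Work.MP_6237c7_co.LV.Rat

set_option autoImplicit false

namespace H79KMW

open Finsupp
open scoped Pointwise

/-- Chains of signatures of the points of a set. -/
def Ch {ι : Type*} {d : ℕ} (a : ι → Fin d → ℤ) (P : Set (Fin d → ℝ)) : Set (Finset (ι → ℤ)) :=
  {c | (∀ s ∈ c, ∃ x ∈ P, s = sg a x) ∧ ∀ s ∈ c, ∀ t ∈ c, s ≤ t ∨ t ≤ s}

/-- The label of a signature. -/
def lab {ι : Type*} {d : ℕ} (b : (ι → ℤ) → (Fin d → ℤ)) (s : ι → ℤ) : Fin (d + 1) → ℤ :=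
  Fin.cons 1 (b s)

section cells
variable {ι : Type*} {d : ℕ} {a : ι → Fin d → ℤ} {P : Set (Fin d → ℝ)} {D : ℕ}
  {b : (ι → ℤ) → (Fin d → ℤ)}

/-- The rational representative. -/
noncomputable def qt (D : ℕ) (b : (ι → ℤ) → (Fin d → ℤ)) (s : ι → ℤ) : Fin d → ℝ :=
  fun k => (b s k : ℝ) / D

lemma lc_lab_zero (w : (ι → ℤ) →₀ ℝ) : lc (lab b) w 0 = ∑ s ∈ w.support, w s := by
  rw [lc_apply_of_subset w w.support (Finset.Subset.refl _)]
  refine Finset.sum_congr rfl fun s _ => ?_
  show w s * ((1 : ℤ) : ℝ) = w s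
  simp

lemma lc_lab_succ (w : (ι → ℤ) →₀ ℝ) (k : Fin d) :
    lc (lab b) w k.succ = ∑ s ∈ w.support, w s * (b s k : ℝ) := by
  rw [lc_apply_of_subset w w.support (Finset.Subset.refl _)]
  rfl

/-- The normalised point of a weight. -/
noncomputable def npt (D : ℕ) (y : Fin (d + 1) → ℝ) : Fin d → ℝ :=
  fun k => (y 0)⁻¹ * y k.succ / D

lemma ap_npt (w : (ι → ℤ) →₀ ℝ) (c : Fin d → ℤ) :
    ap c (npt D (lc (lab b) w)) = (lc (lab b) w 0)⁻¹ * ∑ s ∈ w.support, w s * ap c (qt D b s) := by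
  rw [ap, Finset.mul_sum]
  simp only [npt, lc_lab_succ, qt, ap, Finset.mul_sum, Finset.sum_div]
  rw [Finset.sum_comm]
  refine Finset.sum_congr rfl fun s _ => Finset.sum_congr rfl fun k _ => ?_
  ring

lemma body_Ch_down {c c' : Finset (ι → ℤ)} (h : c ∈ Ch a P) (h' : c' ⊆ c) : c' ∈ Ch a P :=
  ⟨fun s hs => h.1 s (h' hs), fun s hs t ht => h.2 s (h' hs) t (h' ht)⟩

lemma lc_lab_pos {w : (ι → ℤ) →₀ ℝ} (hw : ∀ s, 0 ≤ w s) (h0 : w ≠ 0) : 0 < lc (lab b) w 0 := by
  rw [lc_lab_zero]
  have hsne : w.support ≠ ∅ := by rwa [Ne, Finsupp.support_eq_empty]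
  obtain ⟨y, hy⟩ := Finset.nonempty_iff_ne_empty.2 hsne
  exact Finset.sum_pos' (fun s _ => hw s)
    ⟨y, hy, lt_of_le_of_ne (hw y) (Ne.symm (Finsupp.mem_support_iff.1 hy))⟩

lemma exists_top {w : (ι → ℤ) →₀ ℝ} (hw : w.support ∈ Ch a P) (h0 : w ≠ 0) :
    ∃ m ∈ w.support, ∀ s ∈ w.support, s ≤ m := by
  have hsne : w.support ≠ ∅ := by rwa [Ne, Finsupp.support_eq_empty]
  obtain ⟨m, hm⟩ := Finset.exists_maximal (Finset.nonempty_iff_ne_empty.2 hsne)
  refine ⟨m, hm.1, fun s hs => ?_⟩
  rcases hw.2 s hs m hm.1 with h | h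
  · exact h
  · exact hm.2 hs h

/-- The properties of the representative. -/
lemma qt_sg (hb : ∀ x : Fin d → ℝ, sg a (fun k => (b (sg a x) k : ℝ) / D) = sg a x)
    {s : ι → ℤ} (hs : ∃ x ∈ P, s = sg a x) : sg a (qt D b s) = s := by
  obtain ⟨x, _, rfl⟩ := hs
  exact hb x

lemma qt_le (hb : ∀ x : Fin d → ℝ, sg a (fun k => (b (sg a x) k : ℝ) / D) = sg a x)
    {s m : ι → ℤ} (hs : ∃ x ∈ P, s = sg a x) (hsm : s ≤ m) (i : ι) :
    ap (a i) (qt D b s) ≤ m i := by
  have h1 := congrFun (qt_sg hb hs) i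
  have h2 : ap (a i) (qt D b s) ≤ (⌈ap (a i) (qt D b s)⌉ : ℝ) := Int.le_ceil _
  have h3 : ⌈ap (a i) (qt D b s)⌉ = s i := h1
  rw [h3] at h2
  have h4 : ((s i : ℤ) : ℝ) ≤ ((m i : ℤ) : ℝ) := by exact_mod_cast hsm i
  exact h2.trans h4

lemma sg_pair {i j : ι} (hj : a j = - a i) (x : Fin d → ℝ) : sg a x i + sg a x j ≤ 1 := by
  show ⌈ap (a i) x⌉ + ⌈ap (a j) x⌉ ≤ 1
  rw [hj, ap_neg, Int.ceil_neg]
  have := Int.ceil_le_floor_add_one (ap (a i) x)
  linarith

lemma qt_ge (hb : ∀ x : Fin d → ℝ, sg a (fun k => (b (sg a x) k : ℝ) / D) = sg a x)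
    {s m : ι → ℤ} (hs : ∃ x ∈ P, s = sg a x) (hm : ∃ x ∈ P, m = sg a x) (hsm : s ≤ m)
    {i j : ι} (hj : a j = - a i) : (m i : ℝ) - 1 ≤ ap (a i) (qt D b s) := by
  have h1 := qt_le hb hs hsm j
  rw [hj, ap_neg] at h1
  obtain ⟨x, _, rfl⟩ := hm
  have h2 := sg_pair hj x
  have h3 : ((sg a x i + sg a x j : ℤ) : ℝ) ≤ ((1 : ℤ) : ℝ) := by exact_mod_cast h2
  push_cast at h3
  linarith

/-- The signature of the normalised point is the top of the chain. -/
lemma top_sig (hneg : ∀ i, ∃ j, a j = - a i)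
    (hb : ∀ x : Fin d → ℝ, sg a (fun k => (b (sg a x) k : ℝ) / D) = sg a x)
    {w : (ι → ℤ) →₀ ℝ} (hw : w ∈ body (Ch a P)) {m : ι → ℤ} (hm : m ∈ w.support)
    (htop : ∀ s ∈ w.support, s ≤ m) : sg a (npt D (lc (lab b) w)) = m := by
  funext i
  show ⌈ap (a i) (npt D (lc (lab b) w))⌉ = m i
  have hw0 : w ≠ 0 := by
    rintro rfl
    simp at hm
  have hT := lc_lab_pos (b := b) hw.1 hw0
  have hwm : 0 < w m := lt_of_le_of_ne (hw.1 m) (Ne.symm (Finsupp.mem_support_iff.1 hm))
  have hmP := hw.2.1 m hm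
  rw [ap_npt, Int.ceil_eq_iff]
  obtain ⟨j, hj⟩ := hneg i
  constructor
  · rw [lt_inv_mul_iff₀ hT, lc_lab_zero, Finset.sum_mul, ← sub_pos, ← Finset.sum_sub_distrib]
    refine Finset.sum_pos' (fun s hs => ?_) ⟨m, hm, ?_⟩
    · have h1 := qt_ge hb (hw.2.1 s hs) hmP (htop s hs) hj
      have h2 := hw.1 s
      nlinarith
    · have h1 : (m i : ℝ) - 1 < ap (a i) (qt D b m) := by
        have h2 : ⌈ap (a i) (qt D b m)⌉ = m i := congrFun (qt_sg hb hmP) i
        have h3 := Int.ceil_lt_add_one (ap (a i) (qt D b m))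
        rw [h2] at h3
        linarith
      nlinarith
  · rw [inv_mul_le_iff₀ hT, lc_lab_zero, Finset.sum_mul]
    refine Finset.sum_le_sum fun s hs => ?_
    exact mul_le_mul_of_nonneg_left (qt_le hb (hw.2.1 s hs) (htop s hs) i) (hw.1 s)

lemma Ch_inj_aux (hneg : ∀ i, ∃ j, a j = - a i)
    (hb : ∀ x : Fin d → ℝ, sg a (fun k => (b (sg a x) k : ℝ) / D) = sg a x) :
    ∀ n : ℕ, ∀ w ∈ body (Ch a P), ∀ w' ∈ body (Ch a P),
      w.support.card + w'.support.card ≤ n → lc (lab b) w = lc (lab b) w' → w = w' := by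
  classical
  intro n
  induction n with
  | zero =>
    intro w _ w' _ hc _
    have h1 : w.support.card = 0 := by omega
    have h2 : w'.support.card = 0 := by omega
    rw [Finset.card_eq_zero, Finsupp.support_eq_empty] at h1 h2
    rw [h1, h2]
  | succ n ih =>
    intro w hw w' hw' hc heq
    by_cases h0 : w = 0
    · by_contra hcon
      have h1 : w' ≠ 0 := fun h => hcon (by rw [h0, h])
      have h2 := lc_lab_pos (b := b) hw'.1 h1
      rw [← heq, h0, map_zero] at h2
      exact lt_irrefl _ h2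
    · have hp := lc_lab_pos (b := b) hw.1 h0
      have h0' : w' ≠ 0 := by
        intro h
        rw [heq, h, map_zero] at hp
        exact lt_irrefl _ hp
      obtain ⟨m, hm, htop⟩ := exists_top hw.2 h0
      obtain ⟨m', hm', htop'⟩ := exists_top hw'.2 h0'
      have hmm : m = m' := by
        rw [← top_sig hneg hb hw hm htop, ← top_sig hneg hb hw' hm' htop', heq]
      subst hmm
      have hwm : 0 < w m := lt_of_le_of_ne (hw.1 m) (Ne.symm (Finsupp.mem_support_iff.1 hm))
      have hwm' : 0 < w' m := lt_of_le_of_ne (hw'.1 m) (Ne.symm (Finsupp.mem_support_iff.1 hm'))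
      set c : ℝ := min (w m) (w' m) with hcdef
      have hsub : ∀ u : (ι → ℤ) →₀ ℝ, u ∈ body (Ch a P) → m ∈ u.support → c ≤ u m →
          u - single m c ∈ body (Ch a P) ∧ (u - single m c).support ⊆ u.support := by
        intro u hu hmu hcu
        have hss : (u - single m c).support ⊆ u.support := by
          refine supp_sub_subset _ _ _ (Finset.Subset.refl _) ?_
          refine Finsupp.support_single_subset.trans ?_
          intro z hz
          rw [Finset.mem_singleton] at hz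
          rw [hz]; exact hmu
        refine ⟨⟨fun x => ?_, body_Ch_down hu.2 hss⟩, hss⟩
        rw [Finsupp.sub_apply, Finsupp.single_apply]
        split_ifs with h
        · rw [← h]; linarith
        · rw [sub_zero]; exact hu.1 x
      obtain ⟨hu1, hu2⟩ := hsub w hw hm (min_le_left _ _)
      obtain ⟨hv1, hv2⟩ := hsub w' hw' hm' (min_le_right _ _)
      have hcard : (w - single m c).support.card + (w' - single m c).support.card ≤ n := by
        rcases le_total (w m) (w' m) with h | h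
        · have hc1 : c = w m := min_eq_left h
          have h1 : m ∉ (w - single m c).support := by
            rw [Finsupp.notMem_support_iff, Finsupp.sub_apply, Finsupp.single_eq_same, hc1, sub_self]
          have h2 : (w - single m c).support.card < w.support.card :=
            Finset.card_lt_card ⟨hu2, fun hcon => h1 (hcon hm)⟩
          have h3 := Finset.card_le_card hv2
          omega
        · have hc1 : c = w' m := min_eq_right h
          have h1 : m ∉ (w' - single m c).support := by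
            rw [Finsupp.notMem_support_iff, Finsupp.sub_apply, Finsupp.single_eq_same, hc1, sub_self]
          have h2 : (w' - single m c).support.card < w'.support.card :=
            Finset.card_lt_card ⟨hv2, fun hcon => h1 (hcon hm')⟩
          have h3 := Finset.card_le_card hu2
          omega
      have h4 := ih _ hu1 _ hv1 hcard (by rw [map_sub, map_sub, heq])
      exact sub_left_injective h4

/-- Finiteness of the set of signatures of a bounded set. -/
lemma sig_finite [Finite ι] (hP : Bornology.IsBounded P) : {s | ∃ x ∈ P, s = sg a x}.Finite := by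
  classical
  obtain ⟨R, hR⟩ := hP.exists_norm_le
  have hR' : ∀ x ∈ P, ∀ k, |x k| ≤ |R| := fun x hx k =>
    (norm_le_pi_norm x k).trans ((hR x hx).trans (le_abs_self R))
  obtain ⟨N, hN⟩ := exists_nat_ge |R|
  have hfin : (Set.pi Set.univ
      (fun i : ι => Set.Icc (-((∑ k, |a i k|) * N)) ((∑ k, |a i k|) * (N : ℤ)))).Finite :=
    Set.Finite.pi fun i => Set.finite_Icc _ _
  refine hfin.subset ?_
  rintro s ⟨x, hx, rfl⟩ i _
  have h1 : |ap (a i) x| ≤ (((∑ k, |a i k|) * (N : ℤ) : ℤ) : ℝ) := by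
    rw [ap]
    refine (Finset.abs_sum_le_sum_abs _ _).trans ?_
    push_cast
    rw [Finset.sum_mul]
    refine Finset.sum_le_sum fun k _ => ?_
    rw [abs_mul]
    exact mul_le_mul_of_nonneg_left ((hR' x hx k).trans hN) (abs_nonneg _)
  have h2 := abs_le.1 h1
  constructor
  · show -((∑ k, |a i k|) * (N : ℤ)) ≤ ⌈ap (a i) x⌉
    have h3 : ((-((∑ k, |a i k|) * (N : ℤ)) : ℤ) : ℝ) ≤ ⌈ap (a i) x⌉ := by
      rw [Int.cast_neg]
      exact h2.1.trans (Int.le_ceil _)
    exact_mod_cast h3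
  · show ⌈ap (a i) x⌉ ≤ _
    rw [Int.ceil_le]
    exact h2.2

lemma Ch_isCx [Finite ι] (hP : Bornology.IsBounded P) (hneg : ∀ i, ∃ j, a j = - a i)
    (hb : ∀ x : Fin d → ℝ, sg a (fun k => (b (sg a x) k : ℝ) / D) = sg a x) :
    IsCx (lab b) (Ch a P) := by
  classical
  refine ⟨?_, fun s hs t ht => body_Ch_down hs ht, ?_⟩
  · have hf := sig_finite (a := a) hP
    refine (hf.toFinset.powerset.finite_toSet).subset ?_
    intro c hc
    rw [Finset.mem_coe, Finset.mem_powerset]
    intro s hs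
    rw [Set.Finite.mem_toFinset]
    exact hc.1 s hs
  · intro w hw w' hw' heq
    exact Ch_inj_aux hneg hb _ w hw w' hw' le_rfl heq

/-- Every point of the set is covered. -/
lemma Ch_cover [Fintype ι] (hD : 0 < D) (hneg : ∀ i, ∃ j, a j = - a i)
    (he : ∀ k : Fin d, ∃ j, a j = Pi.single k 1)
    (hb : ∀ x : Fin d → ℝ, sg a (fun k => (b (sg a x) k : ℝ) / D) = sg a x)
    (hPc : ∀ x ∈ P, ∀ y, sg a y ≤ sg a x → y ∈ P) :
    ∀ n : ℕ, ∀ x ∈ P, (∑ i, (⌈ap (a i) x⌉ + ⌈- ap (a i) x⌉) : ℤ) ≤ n →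
      ∃ w ∈ body (Ch a P), (∀ s ∈ w.support, s ≤ sg a x) ∧
        lc (lab b) w = (Fin.cons 1 ((D : ℝ) • x) : Fin (d + 1) → ℝ) := by
  classical
  have hDr : (0:ℝ) < D := by exact_mod_cast hD
  have hM0 : ∀ x : Fin d → ℝ, (0 : ℤ) ≤ ∑ i, (⌈ap (a i) x⌉ + ⌈- ap (a i) x⌉) := by
    intro x
    refine Finset.sum_nonneg fun i _ => ?_
    have h1 := Int.le_ceil (ap (a i) x)
    have h2 := Int.le_ceil (- ap (a i) x)
    have h3 : ((0 : ℤ) : ℝ) ≤ ((⌈ap (a i) x⌉ + ⌈- ap (a i) x⌉ : ℤ) : ℝ) := by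
      push_cast; linarith
    exact_mod_cast h3
  -- the point equal to its representative
  have hlabq : ∀ x ∈ P, rv (lab b (sg a x)) =
      (Fin.cons 1 ((D : ℝ) • qt D b (sg a x)) : Fin (d + 1) → ℝ) := by
    intro x _
    funext k
    refine Fin.cases ?_ (fun k => ?_) k
    · show ((1 : ℤ) : ℝ) = 1
      simp
    · show ((b (sg a x) k : ℤ) : ℝ) = (D : ℝ) * ((b (sg a x) k : ℝ) / D)
      field_simp
  have hsing : ∀ x ∈ P, ∀ c : ℝ, 0 ≤ c → single (sg a x) c ∈ body (Ch a P) := by
    intro x hx c hc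
    refine ⟨?_, ?_⟩
    · intro z; rw [Finsupp.single_apply]; split_ifs
      · exact hc
      · exact le_rfl
    · refine ⟨fun s hs => ⟨x, hx, ?_⟩, fun s hs t ht => ?_⟩
      · have := Finsupp.support_single_subset hs
        exact Finset.mem_singleton.1 this
      · have h1 := Finset.mem_singleton.1 (Finsupp.support_single_subset hs)
        have h2 := Finset.mem_singleton.1 (Finsupp.support_single_subset ht)
        left; rw [h1, h2]
  have hstep : ∀ x ∈ P, x ≠ qt D b (sg a x) → ∃ y : Fin d → ℝ, ∃ T : ℝ, 1 < T ∧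
      y = qt D b (sg a x) + T • (x - qt D b (sg a x)) ∧ sg a y ≤ sg a x ∧
      (∑ i, (⌈ap (a i) y⌉ + ⌈- ap (a i) y⌉) : ℤ) < ∑ i, (⌈ap (a i) x⌉ + ⌈- ap (a i) x⌉) := by
    intro x hx hne
    set q : Fin d → ℝ := qt D b (sg a x) with hq
    have hsgq : sg a q = sg a x := hb x
    have hex : ∃ i, ap (a i) q < ap (a i) x := by
      by_contra hcon
      push Not at hcon
      apply hne
      funext k
      obtain ⟨j, hj⟩ := he k
      obtain ⟨j', hj'⟩ := hneg j
      have h1 := hcon j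
      have h2 := hcon j'
      rw [hj, ap_single, ap_single] at h1
      rw [hj', ap_neg, ap_neg, hj, ap_single, ap_single] at h2
      linarith
    let I : Finset ι := Finset.univ.filter (fun i => ap (a i) q < ap (a i) x)
    have hI : I.Nonempty := by
      obtain ⟨i, hi⟩ := hex
      exact ⟨i, Finset.mem_filter.2 ⟨Finset.mem_univ _, hi⟩⟩
    let T : ι → ℝ := fun i => ((sg a x i : ℝ) - ap (a i) q) / (ap (a i) x - ap (a i) q)
    obtain ⟨i0, hi0, hmin⟩ := Finset.exists_min_image I T hI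
    have hi0' : ap (a i0) q < ap (a i0) x := (Finset.mem_filter.1 hi0).2
    obtain ⟨j0, hj0⟩ := hneg i0
    have hlt : ap (a i0) x < (sg a x i0 : ℝ) := by
      have h1 : ap (a i0) x ≤ (⌈ap (a i0) x⌉ : ℝ) := Int.le_ceil _
      refine lt_of_le_of_ne h1 fun h2 => ?_
      have h3 : sg a x j0 = - ⌈ap (a i0) x⌉ := by
        show ⌈ap (a j0) x⌉ = _
        rw [hj0, ap_neg, Int.ceil_neg]
        have h4 : ⌊ap (a i0) x⌋ = ⌈ap (a i0) x⌉ := by
          rw [Int.floor_eq_iff]
          have h5 : ap (a i0) x = (⌈ap (a i0) x⌉ : ℝ) := h2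
          constructor
          · linarith
          · linarith
        rw [h4]
      have h6 : ap (a j0) q ≤ (sg a q j0 : ℝ) := Int.le_ceil _
      rw [hsgq, h3, hj0, ap_neg] at h6
      push_cast at h6
      have h5 : ap (a i0) x = (⌈ap (a i0) x⌉ : ℝ) := h2
      linarith
    have hT1 : 1 < T i0 := by
      show 1 < ((sg a x i0 : ℝ) - ap (a i0) q) / (ap (a i0) x - ap (a i0) q)
      rw [one_lt_div (by linarith)]
      linarith
    refine ⟨q + T i0 • (x - q), T i0, hT1, rfl, ?_⟩
    have hval : ∀ i, ap (a i) (q + T i0 • (x - q)) =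
        ap (a i) q + T i0 * (ap (a i) x - ap (a i) q) := by
      intro i
      rw [ap_add, ap_smul]
      have h1 : ap (a i) x = ap (a i) (x - q) + ap (a i) q := by
        rw [← ap_add, sub_add_cancel]
      have h2 : ap (a i) (x - q) = ap (a i) x - ap (a i) q := by linarith
      rw [h2]
    have hle : sg a (q + T i0 • (x - q)) ≤ sg a x := by
      intro i
      show ⌈ap (a i) (q + T i0 • (x - q))⌉ ≤ sg a x i
      rw [Int.ceil_le, hval]
      by_cases hi : ap (a i) q < ap (a i) x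
      · have h1 := hmin i (Finset.mem_filter.2 ⟨Finset.mem_univ _, hi⟩)
        have h2 : T i * (ap (a i) x - ap (a i) q) = (sg a x i : ℝ) - ap (a i) q := by
          show ((sg a x i : ℝ) - ap (a i) q) / (ap (a i) x - ap (a i) q) * _ = _
          exact div_mul_cancel₀ _ (by linarith)
        have h3 : T i0 * (ap (a i) x - ap (a i) q) ≤ T i * (ap (a i) x - ap (a i) q) :=
          mul_le_mul_of_nonneg_right h1 (by linarith)
        linarith
      · push Not at hi
        have h1 : T i0 * (ap (a i) x - ap (a i) q) ≤ 0 :=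
          mul_nonpos_of_nonneg_of_nonpos (by linarith) (by linarith)
        have h2 : ap (a i) q ≤ (sg a q i : ℝ) := Int.le_ceil _
        rw [hsgq] at h2
        linarith
    refine ⟨hle, ?_⟩
    have hneg2 : ∀ (z : Fin d → ℝ) (i j : ι), a j = - a i → ⌈- ap (a i) z⌉ = sg a z j := by
      intro z i j hj
      show _ = ⌈ap (a j) z⌉
      rw [hj, ap_neg]
    have hneg3 : ∀ i, ⌈- ap (a i) (q + T i0 • (x - q))⌉ ≤ ⌈- ap (a i) x⌉ := by
      intro i
      obtain ⟨j, hj⟩ := hneg i
      rw [hneg2 _ i j hj, hneg2 _ i j hj]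
      exact hle j
    refine Finset.sum_lt_sum (fun i _ => ?_) ⟨i0, Finset.mem_univ _, ?_⟩
    · exact add_le_add (hle i) (hneg3 i)
    · refine add_lt_add_of_le_of_lt (hle i0) ?_
      have h1 : ap (a i0) (q + T i0 • (x - q)) = (sg a x i0 : ℝ) := by
        rw [hval]
        have h2 : T i0 * (ap (a i0) x - ap (a i0) q) = (sg a x i0 : ℝ) - ap (a i0) q := by
          show ((sg a x i0 : ℝ) - ap (a i0) q) / (ap (a i0) x - ap (a i0) q) * _ = _
          exact div_mul_cancel₀ _ (by linarith)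
        linarith
      rw [h1, ← Int.cast_neg, Int.ceil_intCast, Int.lt_ceil]
      push_cast
      linarith
  intro n
  induction n with
  | zero =>
    intro x hx hM
    by_cases hxq : x = qt D b (sg a x)
    · refine ⟨single (sg a x) 1, hsing x hx 1 zero_le_one, ?_, ?_⟩
      · intro s hs
        rw [Finset.mem_singleton.1 (Finsupp.support_single_subset hs)]
      · rw [lc_single, one_smul, hlabq x hx, ← hxq]
    · exfalso
      obtain ⟨y, T, _, _, _, h5⟩ := hstep x hx hxq
      have := hM0 y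
      push_cast at hM
      linarith
  | succ n ih =>
    intro x hx hM
    by_cases hxq : x = qt D b (sg a x)
    · refine ⟨single (sg a x) 1, hsing x hx 1 zero_le_one, ?_, ?_⟩
      · intro s hs
        rw [Finset.mem_singleton.1 (Finsupp.support_single_subset hs)]
      · rw [lc_single, one_smul, hlabq x hx, ← hxq]
    · obtain ⟨y, T, hT, hy, hle, hlt⟩ := hstep x hx hxq
      have hyP : y ∈ P := hPc x hx y hle
      obtain ⟨w, hw, hws, hwl⟩ := ih y hyP (by push_cast at hM; omega)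
      have hT0 : 0 < T := by linarith
      have hTi : 0 ≤ T⁻¹ := by positivity
      have hT1 : T⁻¹ ≤ 1 := inv_le_one_of_one_le₀ hT.le
      have hsup : (single (sg a x) (1 - T⁻¹) + T⁻¹ • w).support ⊆ insert (sg a x) w.support := by
        refine supp_add_subset _ _ _ ?_ ?_
        · refine Finsupp.support_single_subset.trans ?_
          intro z hz
          rw [Finset.mem_singleton.1 hz]
          exact Finset.mem_insert_self _ _
        · exact Finsupp.support_smul.trans (Finset.subset_insert _ _)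
      have hchain : insert (sg a x) w.support ∈ Ch a P := by
        refine ⟨fun s hs => ?_, fun s hs t ht => ?_⟩
        · rcases Finset.mem_insert.1 hs with h | h
          · exact ⟨x, hx, h⟩
          · exact hw.2.1 s h
        · rcases Finset.mem_insert.1 hs with h | h
          · rcases Finset.mem_insert.1 ht with h' | h'
            · left; rw [h, h']
            · right; rw [h]; exact (hws t h').trans hle
          · rcases Finset.mem_insert.1 ht with h' | h'
            · left; rw [h']; exact (hws s h).trans hle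
            · exact hw.2.2 s h t h'
      refine ⟨single (sg a x) (1 - T⁻¹) + T⁻¹ • w, ⟨?_, body_Ch_down hchain hsup⟩, ?_, ?_⟩
      · intro z
        rw [Finsupp.add_apply, Finsupp.smul_apply, smul_eq_mul, Finsupp.single_apply]
        have h1 := hw.1 z
        have h2 : 0 ≤ T⁻¹ * w z := mul_nonneg hTi h1
        split_ifs
        · linarith
        · linarith
      · intro s hs
        rcases Finset.mem_insert.1 (hsup hs) with h | h
        · rw [h]
        · exact (hws s h).trans hle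
      · rw [map_add, map_smul, lc_single, hwl, hlabq x hx]
        funext k
        refine Fin.cases ?_ (fun k => ?_) k
        · show (1 - T⁻¹) * 1 + T⁻¹ * 1 = (1:ℝ)
          ring
        · show (1 - T⁻¹) * ((D : ℝ) * qt D b (sg a x) k) + T⁻¹ * ((D : ℝ) * y k) = (D : ℝ) * x k
          have hyk : y k = qt D b (sg a x) k + T * (x k - qt D b (sg a x) k) := by
            have := congrFun hy k
            simpa using this
          rw [hyk]
          field_simp
          ring

/-- The fan of the cells. -/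
theorem cells [Fintype ι] (a : ι → Fin d → ℤ) (hneg : ∀ i, ∃ j, a j = - a i)
    (he : ∀ k : Fin d, ∃ j, a j = Pi.single k 1) :
    ∃ D : ℕ, 0 < D ∧ ∀ P : Set (Fin d → ℝ), Convex ℝ P → Bornology.IsBounded P →
      (∀ x ∈ P, ∀ y, sg a y ≤ sg a x → y ∈ P) →
      ∃ C : Set (Finset (Fin (d + 1) → ℤ)), IsCx id C ∧ Lv C ∧
        MB C ((d.factorial * D ^ d : ℕ) : ℝ) ∧ sec C = (D : ℝ) • P := by
  classical
  obtain ⟨D, hD, b, hb⟩ := exists_rep a hneg he
  have hDr : (0:ℝ) < D := by exact_mod_cast hD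
  refine ⟨D, hD, fun P hconv hbd hPc => ?_⟩
  have hCx : IsCx (lab b) (Ch a P) := Ch_isCx hbd hneg hb
  refine ⟨push (lab b) (Ch a P), push_isCx hCx, ?_, ?_, ?_⟩
  · rintro s ⟨F, _, hs⟩ x hx
    have : x ∈ (s : Set (Fin (d + 1) → ℤ)) := hx
    rw [hs] at this
    obtain ⟨z, _, rfl⟩ := this
    rfl
  · rintro s ⟨F, hF, hs⟩ f hf
    have hf' : ∀ k, ∃ z ∈ F, f k = lab b z := by
      intro k
      have h1 : f k ∈ (s : Set (Fin (d + 1) → ℤ)) := hf k
      rw [hs] at h1
      obtain ⟨z, hz, hzf⟩ := h1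
      exact ⟨z, hz, hzf.symm⟩
    choose z hzF hzf using hf'
    have hf1 : ∀ k, f k 0 = 1 := fun k => by rw [hzf k]; rfl
    have hent : ∀ k l : Fin (d + 1), ∀ j : Fin d, |tl (f k) j - tl (f l) j| ≤ (D : ℝ) := by
      -- comparable signatures
      have hcmp : ∀ s ∈ F, ∀ t ∈ F, s ≤ t → ∀ j : Fin d, |(b s j : ℝ) - b t j| ≤ (D : ℝ) := by
        intro s hs t ht hst j
        obtain ⟨i, hi⟩ := he j
        obtain ⟨i', hi'⟩ := hneg i
        have h1 := qt_le hb (hF.1 s hs) hst i
        have h2 := qt_le hb (hF.1 t ht) le_rfl i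
        have h3 := qt_ge hb (hF.1 s hs) (hF.1 t ht) hst hi'
        have h4 := qt_ge hb (hF.1 t ht) (hF.1 t ht) le_rfl hi'
        rw [hi, ap_single] at h1 h2 h3 h4
        have h5 : |qt D b s j - qt D b t j| ≤ 1 := by
          rw [abs_le]; constructor <;> linarith
        have h6 : (b s j : ℝ) - b t j = D * (qt D b s j - qt D b t j) := by
          show (b s j : ℝ) - b t j = D * ((b s j : ℝ) / D - (b t j : ℝ) / D)
          field_simp
        rw [h6, abs_mul, abs_of_pos hDr]
        nlinarith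
      intro k l j
      have e1 : tl (f k) j = (b (z k) j : ℝ) := by rw [hzf k]; rfl
      have e2 : tl (f l) j = (b (z l) j : ℝ) := by rw [hzf l]; rfl
      rw [e1, e2]
      rcases hF.2 _ (hzF k) _ (hzF l) with h | h
      · exact hcmp _ (hzF k) _ (hzF l) h j
      · rw [abs_sub_comm]; exact hcmp _ (hzF l) _ (hzF k) h j
    rw [dt_level f hf1]
    have h := Matrix.det_le (A := Matrix.of fun i j : Fin d => tl (f i.succ) j - tl (f 0) j)
      (abv := AbsoluteValue.abs) (x := (D : ℝ)) (fun i j => hent i.succ 0 j)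
    rw [Fintype.card_fin, nsmul_eq_mul] at h
    push_cast
    exact h
  · ext x
    rw [Set.mem_smul_set_iff_inv_smul_mem₀ hDr.ne']
    show (Fin.cons 1 x : Fin (d + 1) → ℝ) ∈ supp id (push (lab b) (Ch a P)) ↔ _
    rw [supp_push hCx]
    constructor
    · rintro ⟨w, hw, hwx⟩
      have h0 : ∑ s ∈ w.support, w s = 1 := by
        rw [← lc_lab_zero (b := b), hwx]; rfl
      have h1 : (D : ℝ)⁻¹ • x = ∑ s ∈ w.support, w s • qt D b s := by
        funext k
        have h2 := lc_lab_succ (b := b) w k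
        rw [hwx] at h2
        have h3 : x k = ∑ s ∈ w.support, w s * (b s k : ℝ) := h2
        rw [Pi.smul_apply, smul_eq_mul, h3, Finset.sum_apply, Finset.mul_sum]
        refine Finset.sum_congr rfl fun s _ => ?_
        show (D : ℝ)⁻¹ * (w s * (b s k : ℝ)) = w s * ((b s k : ℝ) / D)
        field_simp
      rw [h1]
      refine hconv.sum_mem (fun s _ => hw.1 s) h0 (fun s hs => ?_)
      have h2 := qt_sg hb (hw.2.1 s hs)
      obtain ⟨y, hy, hys⟩ := hw.2.1 s hs
      exact hPc y hy _ (by rw [h2, hys])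
    · intro hx
      obtain ⟨n, hn⟩ : ∃ n : ℕ, (∑ i, (⌈ap (a i) ((D : ℝ)⁻¹ • x)⌉ +
          ⌈- ap (a i) ((D : ℝ)⁻¹ • x)⌉) : ℤ) ≤ n := ⟨_, Int.self_le_toNat _⟩
      obtain ⟨w, hw, _, hwl⟩ := Ch_cover hD hneg he hb hPc n _ hx hn
      refine ⟨w, hw, ?_⟩
      rw [hwl, smul_smul, mul_inv_cancel₀ hDr.ne', one_smul]

end cells

end H79KMW
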