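import Pool.Agent.Work.MP_6237c7_co.LV.Modular

set_option autoImplicit false

namespace H79KMW

open Finsupp MeasureTheory
open scoped Pointwise

/-- The polyhedron of a system of integer inequalities. -/
def pol {d m : ℕ} (A : Matrix (Fin m) (Fin d) ℤ) (b : Fin m → ℤ) : Set (Fin d → ℝ) :=
  {x | ∀ j, ∑ i, (A j i : ℝ) * x i ≤ (b j : ℝ)}

lemma pol_convex {d m : ℕ} (A : Matrix (Fin m) (Fin d) ℤ) (b : Fin m → ℤ) :
    Convex ℝ (pol A b) := by
  intro x hx y hy α β hα hβ hαβ j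
  show ap (A j) (α • x + β • y) ≤ (b j : ℝ)
  have h1 : ap (A j) x ≤ b j := hx j
  have h2 : ap (A j) y ≤ b j := hy j
  rw [ap_add, ap_smul, ap_smul]
  have h3 : (b j : ℝ) = α * b j + β * b j := by rw [← add_mul, hαβ, one_mul]
  rw [h3]
  exact add_le_add (mul_le_mul_of_nonneg_left h1 hα) (mul_le_mul_of_nonneg_left h2 hβ)

/-- No direction is annihilated by the rows of a nonempty bounded polyhedron. -/
lemma pol_inj {d m : ℕ} {A : Matrix (Fin m) (Fin d) ℤ} {b : Fin m → ℤ}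
    (hb : Bornology.IsBounded (pol A b)) (hne : (pol A b).Nonempty) (x : Fin d → ℝ)
    (hx : ∀ j, ap (A j) x = 0) : x = 0 := by
  obtain ⟨y, hy⟩ := hne
  obtain ⟨R, hR⟩ := hb.exists_norm_le
  by_contra hne
  have hnx : 0 < ‖x‖ := norm_pos_iff.2 hne
  let t : ℝ := (|R| + ‖y‖ + 1) / ‖x‖
  have ht : 0 ≤ t := by positivity
  have hmem : y + t • x ∈ pol A b := by
    intro j
    show ap (A j) (y + t • x) ≤ b j
    rw [ap_add, ap_smul, hx j, mul_zero, add_zero]
    exact hy j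
  have h1 := hR _ hmem
  have h2 : ‖t • x‖ ≤ ‖y + t • x‖ + ‖y‖ := by
    have h3 : t • x = (y + t • x) - y := by abel
    calc ‖t • x‖ = ‖(y + t • x) - y‖ := by rw [← h3]
      _ ≤ _ := norm_sub_le _ _
  have h3 : ‖t • x‖ = |R| + ‖y‖ + 1 := by
    rw [norm_smul, Real.norm_eq_abs, abs_of_nonneg ht]
    show (|R| + ‖y‖ + 1) / ‖x‖ * ‖x‖ = _
    exact div_mul_cancel₀ _ hnx.ne'
  have h4 := le_abs_self R
  linarith

/-- The family of all integer vectors with bounded entries. -/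
def fam (d N : ℕ) (i : Fin d → Fin (2 * N + 1)) : Fin d → ℤ := fun k => ((i k : ℕ) : ℤ) - N

lemma fam_surj {d N : ℕ} (c : Fin d → ℤ) (hc : ∀ k, |c k| ≤ (N : ℤ)) : ∃ i, fam d N i = c := by
  refine ⟨fun k => ⟨(c k + N).toNat, ?_⟩, ?_⟩
  · have := abs_le.1 (hc k)
    omega
  · funext k
    have := abs_le.1 (hc k)
    show (((c k + N).toNat : ℕ) : ℤ) - N = c k
    rw [Int.toNat_of_nonneg (by omega)]
    ring

lemma fam_abs {d N : ℕ} (i : Fin d → Fin (2 * N + 1)) (k : Fin d) : |fam d N i k| ≤ (N : ℤ) := by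
  show |((i k : ℕ) : ℤ) - N| ≤ N
  have := (i k).2
  rw [abs_le]; constructor <;> omega

/-- The theorem for bounded minors. -/
theorem modular (d Δ : ℕ) : ∃ k : ℕ, 0 < k ∧
    ∀ (m : ℕ) (A : Matrix (Fin m) (Fin d) ℤ) (b : Fin m → ℤ),
      (∀ f : Fin d → Fin m, |(A.submatrix f id).det| ≤ (Δ : ℤ)) →
      Bornology.IsBounded (pol A b) → (pol A b).Nonempty →
      ∃ K : Geometry.SimplicialComplex ℝ (Fin d → ℝ), K.faces.Finite ∧
        K.space = (k : ℝ) • pol A b ∧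
        (∀ s ∈ K.faces, ∀ x ∈ s, ∀ i : Fin d, ∃ z : ℤ, x i = (z : ℝ)) ∧
        (∀ s ∈ K.faces, s.card = d + 1 →
          volume (convexHull ℝ (s : Set (Fin d → ℝ))) = ((d.factorial : ENNReal))⁻¹) := by
  classical
  obtain ⟨J, hJ⟩ := roundProp_all d
  obtain ⟨M, hM⟩ := exists_bdd_rep d Δ
  let N : ℕ := d * Δ * M + 1
  obtain ⟨D, hD, hcells⟩ := cells (fam d N) (by
    intro i
    obtain ⟨j, hj⟩ := fam_surj (N := N) (-(fam d N i)) (fun k => by
      rw [Pi.neg_apply, abs_neg]; exact fam_abs i k)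
    exact ⟨j, hj⟩) (by
    intro k
    refine fam_surj (Pi.single k 1) (fun l => ?_)
    by_cases h : l = k
    · subst h
      rw [Pi.single_eq_same, abs_one]
      show (1 : ℤ) ≤ ((d * Δ * M + 1 : ℕ) : ℤ)
      push_cast
      have : (0 : ℤ) ≤ (d : ℤ) * Δ * M := by positivity
      linarith
    · rw [Pi.single_eq_of_ne h, abs_zero]
      exact Int.natCast_nonneg _)
  have hDr : (0:ℝ) < D := by exact_mod_cast hD
  let V : ℕ := d.factorial * D ^ d
  refine ⟨J ^ (2 * (d + 1) * Nat.clog 2 V) * D, Nat.mul_pos (pow_pos hJ.1 _) hD, ?_⟩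
  intro m A b hA hbd hne
  obtain ⟨f, hf⟩ := exists_rows A (fun x hx => pol_inj hbd hne x hx)
  obtain ⟨U, U', hUU, hU⟩ := hM _ hf (hA f)
  have hUU' : U' * U = 1 := mul_eq_one_comm.1 hUU
  have hAU : ∀ i j, |(A * U) i j| ≤ (N : ℤ) := by
    intro i j
    have := row_bound A hA f hf U hU i j
    show _ ≤ ((d * Δ * M + 1 : ℕ) : ℤ)
    push_cast at this ⊢
    linarith
  -- the transformed polytope
  have hrow : ∀ (x : Fin d → ℝ) (j : Fin m), ap ((A * U) j) x = ap (A j) (rm U x) := by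
    intro x j
    show ∑ i, (((A * U) j i : ℤ) : ℝ) * x i = ∑ l, (A j l : ℝ) * (∑ i, (U l i : ℝ) * x i)
    simp only [Finset.mul_sum]
    rw [Finset.sum_comm]
    refine Finset.sum_congr rfl fun i _ => ?_
    rw [Matrix.mul_apply]
    push_cast
    rw [Finset.sum_mul]
    exact Finset.sum_congr rfl fun l _ => by ring
  have hmemU : ∀ x, x ∈ pol (A * U) b ↔ rm U x ∈ pol A b := by
    intro x
    constructor
    · intro hx j
      show ap (A j) (rm U x) ≤ b j
      rw [← hrow]; exact hx j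
    · intro hx j
      show ap ((A * U) j) x ≤ b j
      rw [hrow]; exact hx j
  have hbd' : Bornology.IsBounded (pol (A * U) b) := by
    obtain ⟨R, hR⟩ := hbd.exists_norm_le
    rw [isBounded_iff_forall_norm_le]
    refine ⟨∑ i, ∑ j, |(U' i j : ℝ)| * |R|, fun x hx => ?_⟩
    have h1 : x = rm U' (rm U x) := (rm_rm U' U hUU' x).symm
    have h2 := hR _ ((hmemU x).1 hx)
    have hpos : 0 ≤ ∑ i, ∑ j, |(U' i j : ℝ)| * |R| :=
      Finset.sum_nonneg fun i _ => Finset.sum_nonneg fun j _ => by positivity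
    rw [pi_norm_le_iff_of_nonneg hpos]
    intro i
    rw [h1]
    show ‖∑ j, (U' i j : ℝ) * rm U x j‖ ≤ _
    rw [Real.norm_eq_abs]
    refine (Finset.abs_sum_le_sum_abs _ _).trans ?_
    have h3 : ∑ j, |(U' i j : ℝ) * rm U x j| ≤ ∑ j, |(U' i j : ℝ)| * |R| := by
      refine Finset.sum_le_sum fun j _ => ?_
      rw [abs_mul]
      refine mul_le_mul_of_nonneg_left ?_ (abs_nonneg _)
      have h4 := norm_le_pi_norm (rm U x) j
      rw [Real.norm_eq_abs] at h4
      exact h4.trans (h2.trans (le_abs_self R))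
    refine h3.trans ?_
    exact Finset.single_le_sum (f := fun i => ∑ j, |(U' i j : ℝ)| * |R|)
      (fun i _ => Finset.sum_nonneg fun j _ => by positivity) (Finset.mem_univ i)
  have hclosed : ∀ x ∈ pol (A * U) b, ∀ y, sg (fam d N) y ≤ sg (fam d N) x →
      y ∈ pol (A * U) b := by
    intro x hx y hy j
    obtain ⟨i, hi⟩ := fam_surj (N := N) ((A * U) j) (fun k => hAU j k)
    have h1 : ⌈ap (fam d N i) y⌉ ≤ ⌈ap (fam d N i) x⌉ := hy i
    rw [hi] at h1
    have h2 : ⌈ap ((A * U) j) x⌉ ≤ b j := by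
      rw [Int.ceil_le]; exact hx j
    have h3 : ap ((A * U) j) y ≤ (⌈ap ((A * U) j) y⌉ : ℝ) := Int.le_ceil _
    have h4 : ((⌈ap ((A * U) j) y⌉ : ℤ) : ℝ) ≤ ((b j : ℤ) : ℝ) := by exact_mod_cast h1.trans h2
    exact h3.trans h4
  obtain ⟨C, hC, hlv, hMB, hsec⟩ := hcells (pol (A * U) b) (pol_convex _ _) hbd' hclosed
  obtain ⟨C', hC', hlv', hMB', hsec'⟩ := transport U U' hUU hC hlv hMB
  obtain ⟨K, hK1, hK2, hK3, hK4⟩ := main_fan hJ V hC' hlv' hMB'
  refine ⟨K, hK1, ?_, hK3, hK4⟩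
  have hs : sec C' = (D : ℝ) • pol A b := by
    ext x
    rw [hsec', hsec, Set.mem_smul_set_iff_inv_smul_mem₀ hDr.ne',
      Set.mem_smul_set_iff_inv_smul_mem₀ hDr.ne', hmemU, rm_smul, rm_rm U U' hUU]
  rw [hK2, hs, smul_smul]
  congr 1
  push_cast
  ring

end H79KMW
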