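import Pool.Agent.Work.MP_6237c7_co.LV.Prox

set_option autoImplicit false
set_option linter.unusedSectionVars false

namespace H79KMW

open Finsupp

section prox
variable {n r : ℕ} {A : Fin r → Fin n → ℤ}

/-- The kernel of the rows vanishing on a vector. -/
def kerv (A : Fin r → Fin n → ℤ) (v : Fin n → ℝ) : Submodule ℝ (Fin n → ℝ) where
  carrier := {x | ∀ j, ap (A j) v = 0 → ap (A j) x = 0}
  add_mem' := by
    intro x y hx hy j hj
    rw [ap_add, hx j hj, hy j hj, add_zero]
  zero_mem' := by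
    intro j _
    simp [ap]
  smul_mem' := by
    intro c x hx j hj
    rw [ap_smul, hx j hj, mul_zero]

/-- Conformal decomposition into circuits. -/
lemma decomp {Δ : ℕ} (hA : ∀ f : Fin n → Fin r,
      |(Matrix.of (fun i => A (f i))).det| ≤ (Δ : ℤ))
    (hinj : ∀ x : Fin n → ℝ, (∀ j, ap (A j) x = 0) → x = 0) :
    ∀ N : ℕ, ∀ v : Fin n → ℝ, Module.finrank ℝ (kerv A v) ≤ N →
      ∃ (k : ℕ) (_ : k ≤ N) (lam : Fin k → ℝ) (g : Fin k → (Fin n → ℤ)), (∀ t, 0 ≤ lam t) ∧
        v = ∑ t, lam t • rv (g t) ∧ (∀ t, Cf A (rv (g t)) v) ∧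
        ∀ t j, |ap (A j) (rv (g t))| ≤ (Δ : ℝ) := by
  intro N
  induction N with
  | zero =>
    intro v hv
    have hv0 : v = 0 := by
      have h1 : Module.finrank ℝ (kerv A v) = 0 := Nat.le_zero.1 hv
      rw [Submodule.finrank_eq_zero] at h1
      have h2 : v ∈ kerv A v := fun _ h => h
      rw [h1, Submodule.mem_bot] at h2
      exact h2
    refine ⟨0, le_rfl, Fin.elim0, Fin.elim0, fun t => t.elim0, ?_, fun t => t.elim0,
      fun t => t.elim0⟩
    rw [hv0]; simp
  | succ N ih =>
    intro v hv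
    by_cases hv0 : v = 0
    · refine ⟨0, Nat.zero_le _, Fin.elim0, Fin.elim0, fun t => t.elim0, ?_, fun t => t.elim0,
        fun t => t.elim0⟩
      rw [hv0]; simp
    · obtain ⟨g, hg1, hg2, hg3⟩ := exists_circuit hA hinj _ v hv0 le_rfl
      have hker : ∀ j, ap (A j) v = 0 → ap (A j) (rv g) = 0 := by
        intro j hj
        exact le_antisymm ((hg2 j).2 hj.le) ((hg2 j).1 hj.ge)
      have hex : ∃ j, 0 < ap (A j) (rv g) * ap (A j) v := by
        obtain ⟨j, hj⟩ : ∃ j, ap (A j) (rv g) ≠ 0 := by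
          by_contra hcon
          push Not at hcon
          exact hg1 (hinj _ hcon)
        refine ⟨j, ?_⟩
        have hjv : ap (A j) v ≠ 0 := fun h => hj (hker j h)
        rcases lt_or_gt_of_ne hjv with h | h
        · have h1 := (hg2 j).2 h.le
          exact mul_pos_of_neg_of_neg (lt_of_le_of_ne h1 hj) h
        · have h1 := (hg2 j).1 h.le
          exact mul_pos (lt_of_le_of_ne h1 (Ne.symm hj)) h
      obtain ⟨t, ht, hcf, j0, hj0, hj0'⟩ := shrink hker hex
      set v' : Fin n → ℝ := v - t • rv g with hv'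
      have hlt : kerv A v' < kerv A v := by
        refine lt_of_le_of_ne ?_ ?_
        · intro x hx j hj
          apply hx j
          exact le_antisymm ((hcf j).2 hj.le) ((hcf j).1 hj.ge)
        · intro heq
          have h1 : v ∈ kerv A v := fun _ h => h
          rw [← heq] at h1
          exact hj0 (h1 j0 hj0')
      have hrank := Submodule.finrank_lt_finrank_of_lt hlt
      obtain ⟨k, hk, lam, gs, h1, h2, h3, h4⟩ := ih v' (by omega)
      refine ⟨k + 1, by omega, Fin.cons t lam, Fin.cons g gs, ?_, ?_, ?_, ?_⟩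
      · intro s
        refine Fin.cases ?_ (fun s => ?_) s
        · exact ht.le
        · exact h1 s
      · rw [Fin.sum_univ_succ]
        simp only [Fin.cons_zero, Fin.cons_succ]
        rw [← h2, hv']
        abel
      · intro s
        refine Fin.cases ?_ (fun s => ?_) s
        · exact hg2
        · exact (h3 s).trans hcf
      · intro s
        refine Fin.cases ?_ (fun s => ?_) s
        · exact hg3
        · exact h4 s

lemma ap_sum {ι : Type*} (s : Finset ι) (a : Fin n → ℤ) (f : ι → Fin n → ℝ) :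
    ap a (∑ i ∈ s, f i) = ∑ i ∈ s, ap a (f i) := by
  simp only [ap, Finset.sum_apply, Finset.mul_sum]
  rw [Finset.sum_comm]

lemma ap_sub' (a : Fin n → ℤ) (x y : Fin n → ℝ) : ap a (x - y) = ap a x - ap a y := by
  have h1 : x = (x - y) + y := by abel
  have h2 : ap a x = ap a (x - y) + ap a y := by
    conv_lhs => rw [h1]
    rw [ap_add]
  linarith

lemma int_finite {Q : Set (Fin n → ℝ)} (hQ : Bornology.IsBounded Q) :
    (Q ∩ Set.range (rv (n := n))).Finite := by
  obtain ⟨R, hR⟩ := hQ.exists_norm_le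
  obtain ⟨N, hN⟩ := exists_nat_ge R
  have hfin : (Set.pi Set.univ (fun _ : Fin n => Set.Icc (-(N : ℤ)) (N : ℤ))).Finite :=
    Set.Finite.pi fun _ => Set.finite_Icc _ _
  refine (hfin.image (rv (n := n))).subset ?_
  rintro _ ⟨hx, y, rfl⟩
  refine ⟨y, fun k _ => ?_, rfl⟩
  have h1 := (norm_le_pi_norm (rv y) k).trans ((hR _ hx).trans hN)
  have h2 : |((y k : ℤ) : ℝ)| ≤ N := h1
  rw [← Int.cast_abs] at h2
  have h3 : |y k| ≤ (N : ℤ) := by exact_mod_cast h2
  exact ⟨(abs_le.1 h3).1, (abs_le.1 h3).2⟩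

/-- Every point of an integral polytope with bounded minors lies in the hull of the integer
points close to it. -/
theorem proximity {Δ : ℕ} (hA : ∀ f : Fin n → Fin r,
      |(Matrix.of (fun i => A (f i))).det| ≤ (Δ : ℤ))
    (hinj : ∀ x : Fin n → ℝ, (∀ j, ap (A j) x = 0) → x = 0) {β : Fin r → ℝ}
    (hbd : Bornology.IsBounded {x : Fin n → ℝ | ∀ j, ap (A j) x ≤ β j})
    (hvert : {x : Fin n → ℝ | ∀ j, ap (A j) x ≤ β j} ⊆
      convexHull ℝ ({x : Fin n → ℝ | ∀ j, ap (A j) x ≤ β j} ∩ Set.range (rv (n := n))))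
    {c : Fin n → ℝ} (hc : ∀ j, ap (A j) c ≤ β j) :
    c ∈ convexHull ℝ {x : Fin n → ℝ | (∀ j, ap (A j) x ≤ β j) ∧ x ∈ Set.range (rv (n := n)) ∧
      ∀ j, |ap (A j) (x - c)| ≤ (n : ℝ) * Δ} := by
  classical
  set Q : Set (Fin n → ℝ) := {x : Fin n → ℝ | ∀ j, ap (A j) x ≤ β j} with hQ
  set S : Set (Fin n → ℝ) := {x : Fin n → ℝ | (∀ j, ap (A j) x ≤ β j) ∧
    x ∈ Set.range (rv (n := n)) ∧ ∀ j, |ap (A j) (x - c)| ≤ (n : ℝ) * Δ} with hS
  have hQfin := int_finite hbd
  have hSfin : S.Finite := hQfin.subset fun x hx => ⟨hx.1, hx.2.1⟩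
  by_contra hcon
  have hclosed : IsClosed (convexHull ℝ S) := hSfin.isClosed_convexHull ℝ
  obtain ⟨f, u, hfu, huc⟩ := geometric_hahn_banach_closed_point (convex_convexHull ℝ S) hclosed hcon
  have hne : (Q ∩ Set.range (rv (n := n))).Nonempty := by
    by_contra hempty
    rw [Set.not_nonempty_iff_eq_empty] at hempty
    have h1 := hvert hc
    rw [hempty, convexHull_empty] at h1
    exact h1
  obtain ⟨z, ⟨hzQ, zi, hzi⟩, hzmax⟩ := hQfin.exists_maximalFor (fun x => f x) _ hne
  have hmax : ∀ x ∈ Q ∩ Set.range (rv (n := n)), f x ≤ f z := by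
    intro x hx
    rcases le_total (f x) (f z) with h | h
    · exact h
    · exact hzmax hx h
  have hmaxQ : ∀ x ∈ Q, f x ≤ f z := by
    intro x hx
    have h1 := hvert hx
    have h2 : convexHull ℝ (Q ∩ Set.range (rv (n := n))) ⊆ {x | f x ≤ f z} := by
      refine convexHull_min hmax ?_
      have : {x : Fin n → ℝ | f x ≤ f z} = f ⁻¹' (Set.Iic (f z)) := rfl
      rw [this]
      exact (convex_Iic (f z)).linear_preimage f.toLinearMap
    exact h2 h1
  obtain ⟨k, hk, lam, g, hlam, hdec, hcf, hΔ⟩ := decomp hA hinj n (z - c) (by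
    have h1 := Submodule.finrank_le (kerv A (z - c))
    rw [Module.finrank_fin_fun] at h1
    exact h1)
  -- the close integer point
  let x' : Fin n → ℝ := c + ∑ t, Int.fract (lam t) • rv (g t)
  have hx'z : x' = z - ∑ t, ((⌊lam t⌋ : ℤ) : ℝ) • rv (g t) := by
    have h1 : z = c + ∑ t, lam t • rv (g t) := by rw [← hdec]; abel
    have h2 : ∑ t, lam t • rv (g t) = ∑ t, Int.fract (lam t) • rv (g t) +
        ∑ t, ((⌊lam t⌋ : ℤ) : ℝ) • rv (g t) := by
      rw [← Finset.sum_add_distrib]
      refine Finset.sum_congr rfl fun t _ => ?_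
      rw [← add_smul, Int.fract_add_floor]
    show c + ∑ t, Int.fract (lam t) • rv (g t) = _
    rw [h1, h2]
    abel
  have hapx' : ∀ j, ap (A j) x' = ap (A j) c + ∑ t, Int.fract (lam t) * ap (A j) (rv (g t)) := by
    intro j
    show ap (A j) (c + ∑ t, Int.fract (lam t) • rv (g t)) = _
    rw [ap_add, ap_sum]
    congr 1
    exact Finset.sum_congr rfl fun t _ => ap_smul _ _ _
  have hapz : ∀ j, ap (A j) x' = ap (A j) z - ∑ t, ((⌊lam t⌋ : ℤ) : ℝ) * ap (A j) (rv (g t)) := by
    intro j
    rw [hx'z, ap_sub', ap_sum]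
    congr 1
    exact Finset.sum_congr rfl fun t _ => ap_smul _ _ _
  have hfl : ∀ t, (0:ℝ) ≤ ((⌊lam t⌋ : ℤ) : ℝ) := fun t => by
    exact_mod_cast Int.floor_nonneg.2 (hlam t)
  have hx'Q : ∀ j, ap (A j) x' ≤ β j := by
    intro j
    rcases le_total 0 (ap (A j) (z - c)) with h | h
    · rw [hapz]
      have h1 : 0 ≤ ∑ t, ((⌊lam t⌋ : ℤ) : ℝ) * ap (A j) (rv (g t)) :=
        Finset.sum_nonneg fun t _ => mul_nonneg (hfl t) ((hcf t j).1 h)
      have h2 := hzQ j
      linarith
    · rw [hapx']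
      have h1 : ∑ t, Int.fract (lam t) * ap (A j) (rv (g t)) ≤ 0 :=
        Finset.sum_nonpos fun t _ => mul_nonpos_of_nonneg_of_nonpos (Int.fract_nonneg _)
          ((hcf t j).2 h)
      have h2 := hc j
      linarith
  have hx'int : x' ∈ Set.range (rv (n := n)) := by
    refine ⟨fun i => zi i - ∑ t, ⌊lam t⌋ * g t i, ?_⟩
    rw [hx'z, ← hzi]
    funext i
    show (((zi i - ∑ t, ⌊lam t⌋ * g t i : ℤ)) : ℝ) = _
    push_cast
    rw [Pi.sub_apply, Finset.sum_apply]
    rfl
  have hx'close : ∀ j, |ap (A j) (x' - c)| ≤ (n : ℝ) * Δ := by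
    intro j
    have h1 : ap (A j) (x' - c) = ∑ t, Int.fract (lam t) * ap (A j) (rv (g t)) := by
      rw [ap_sub', hapx']; ring
    rw [h1]
    refine (Finset.abs_sum_le_sum_abs _ _).trans ?_
    have h2 : ∀ t ∈ (Finset.univ : Finset (Fin k)),
        |Int.fract (lam t) * ap (A j) (rv (g t))| ≤ (Δ : ℝ) := by
      intro t _
      rw [abs_mul, abs_of_nonneg (Int.fract_nonneg _)]
      have h3 := hΔ t j
      have h4 := Int.fract_lt_one (lam t)
      have h5 := Int.fract_nonneg (lam t)
      have h6 := abs_nonneg (ap (A j) (rv (g t)))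
      nlinarith
    refine (Finset.sum_le_card_nsmul _ _ _ h2).trans ?_
    rw [Finset.card_univ, Fintype.card_fin, nsmul_eq_mul]
    refine mul_le_mul_of_nonneg_right ?_ (Nat.cast_nonneg _)
    exact_mod_cast hk
  have hx'S : x' ∈ S := ⟨hx'Q, hx'int, hx'close⟩
  have h1 := hfu x' (subset_convexHull ℝ S hx'S)
  -- f x' is at least f c
  have h2 : f c ≤ f x' := by
    have h3 : f x' = f c + ∑ t, Int.fract (lam t) * f (rv (g t)) := by
      show f (c + ∑ t, Int.fract (lam t) • rv (g t)) = _
      rw [map_add, map_sum]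
      congr 1
      refine Finset.sum_congr rfl fun t _ => ?_
      rw [map_smul, smul_eq_mul]
    rw [h3]
    have h4 : 0 ≤ ∑ t, Int.fract (lam t) * f (rv (g t)) := by
      refine Finset.sum_nonneg fun t _ => ?_
      rcases (hlam t).eq_or_lt with h | h
      · rw [← h]; simp
      · refine mul_nonneg (Int.fract_nonneg _) ?_
        have hmem : z - lam t • rv (g t) ∈ Q := by
          intro j
          rw [ap_sub', ap_smul]
          rcases le_total 0 (ap (A j) (z - c)) with h' | h'
          · have h5 := mul_nonneg h.le ((hcf t j).1 h')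
            have h6 := hzQ j
            linarith
          · have h5 : ap (A j) z = ap (A j) c + ∑ s, lam s * ap (A j) (rv (g s)) := by
              have h6 : ap (A j) (z - c) = ∑ s, lam s * ap (A j) (rv (g s)) := by
                rw [hdec, ap_sum]
                exact Finset.sum_congr rfl fun s _ => ap_smul _ _ _
              rw [ap_sub'] at h6
              linarith
            have h6 : ∑ s, lam s * ap (A j) (rv (g s)) ≤ lam t * ap (A j) (rv (g t)) := by
              rw [← Finset.add_sum_erase _ _ (Finset.mem_univ t)]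
              have h7 : ∑ s ∈ Finset.univ.erase t, lam s * ap (A j) (rv (g s)) ≤ 0 :=
                Finset.sum_nonpos fun s _ => mul_nonpos_of_nonneg_of_nonpos (hlam s)
                  ((hcf s j).2 h')
              linarith
            have h7 := hc j
            linarith
        have h5 := hmaxQ _ hmem
        rw [map_sub, map_smul, smul_eq_mul] at h5
        have h6 : 0 ≤ lam t * f (rv (g t)) := by linarith
        exact nonneg_of_mul_nonneg_right h6 h
    linarith
  linarith

end prox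

end H79KMW
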