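import Pool.Agent.Work.MP_6237c7_co.LV.Asm4
import Pool.Agent.Work.MP_6237c7_co.LV.Prox2

set_option autoImplicit false
set_option linter.unusedSectionVars false

namespace H79KMW

open Finsupp

section frame
variable {β' : Type*} {N : ℕ}

/-- Extension of an independent family of integer vectors to a nonsingular matrix. -/
lemma exists_frame (u : β' → Fin (N + 1) → ℤ) (N0 : ℕ) (I : Finset β')
    (hli : LinearIndependent ℝ (fun v : I => rv (u v))) (hbd : ∀ v ∈ I, ∀ k, |u v k| ≤ (N0 : ℤ)) :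
    ∃ (Mx : Matrix (Fin (N + 1)) (Fin (N + 1)) ℤ) (j : β' → Fin (N + 1)), Mx.det ≠ 0 ∧
      (∀ i k, |Mx i k| ≤ (N0 : ℤ) + 1) ∧ (∀ v ∈ I, Mx (j v) = u v) ∧
      (∀ v ∈ I, ∀ v' ∈ I, j v = j v' → v = v') := by
  classical
  let uz : β' ⊕ Fin (N + 1) → (Fin (N + 1) → ℤ) := Sum.elim u (fun k => Pi.single k 1)
  let vv : β' ⊕ Fin (N + 1) → (Fin (N + 1) → ℝ) := fun x => rv (uz x)
  let s : Set (β' ⊕ Fin (N + 1)) := Sum.inl '' (I : Set β')
  let t : Set (β' ⊕ Fin (N + 1)) := s ∪ Set.range Sum.inr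
  have hs : LinearIndepOn ℝ vv s := by
    have h1 : ∀ x : s, ∃ v : I, Sum.inl (v : β') = (x : β' ⊕ Fin (N + 1)) := by
      rintro ⟨x, v, hv, rfl⟩
      exact ⟨⟨v, hv⟩, rfl⟩
    choose f hf using h1
    have hinj : Function.Injective f := by
      intro x y hxy
      apply Subtype.ext
      rw [← hf x, ← hf y, hxy]
    have h2 := hli.comp f hinj
    show LinearIndependent ℝ (fun x : s => vv x)
    convert h2 using 1
    funext x
    show rv (uz (x : β' ⊕ Fin (N + 1))) = rv (u (f x))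
    rw [← hf x]
    rfl
  obtain ⟨bb, hbt, hsb, hspan, hbli⟩ := exists_linearIndepOn_extension hs
    (show s ⊆ t from Set.subset_union_left)
  have hstd : ∀ k : Fin (N + 1), vv (Sum.inr k) = Pi.single k 1 := by
    intro k
    funext l
    show (((Pi.single k (1 : ℤ) : Fin (N + 1) → ℤ) l : ℤ) : ℝ) =
      (Pi.single k (1 : ℝ) : Fin (N + 1) → ℝ) l
    by_cases h : l = k
    · subst h; simp
    · rw [Pi.single_eq_of_ne h, Pi.single_eq_of_ne h]; simp
  have hli' : LinearIndependent ℝ (fun x : bb => vv x) := hbli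
  have hsp' : ⊤ ≤ Submodule.span ℝ (Set.range (fun x : bb => vv x)) := by
    have h2 : vv '' bb = Set.range (fun x : bb => vv x) := by
      rw [Set.image_eq_range]
    intro y _
    rw [pi_eq_sum_univ' y]
    refine Submodule.sum_mem _ fun k _ => Submodule.smul_mem _ _ ?_
    have h1 := hspan ⟨Sum.inr k, Or.inr ⟨k, rfl⟩, rfl⟩
    rw [h2, hstd] at h1
    exact h1
  let bs := Module.Basis.mk hli' hsp'
  have hfinb : Finite bb := Module.Finite.finite_basis bs
  have : Fintype bb := Fintype.ofFinite _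
  have hcard : Fintype.card bb = N + 1 := by
    have h1 := Module.finrank_eq_card_basis bs
    rw [Module.finrank_fin_fun] at h1
    exact h1.symm
  let e : Fin (N + 1) ≃ bb := (Fintype.equivFinOfCardEq hcard).symm
  let Mx : Matrix (Fin (N + 1)) (Fin (N + 1)) ℤ := Matrix.of (fun i => uz (e i))
  have hmem : ∀ v ∈ I, (Sum.inl v : β' ⊕ Fin (N + 1)) ∈ bb := fun v hv => hsb ⟨v, hv, rfl⟩
  refine ⟨Mx, fun v => if h : (Sum.inl v : β' ⊕ Fin (N + 1)) ∈ bb then e.symm ⟨_, h⟩ else 0,
    ?_, ?_, ?_, ?_⟩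
  · have hli2 : LinearIndependent ℝ (fun i => vv (e i)) := hli'.comp e e.injective
    have hunit : IsUnit (Mx.map (Int.castRingHom ℝ)) := by
      rw [← Matrix.linearIndependent_rows_iff_isUnit]
      exact hli2
    intro h0
    rw [Matrix.isUnit_iff_isUnit_det, isUnit_iff_ne_zero] at hunit
    apply hunit
    have h1 := RingHom.map_det (Int.castRingHom ℝ) Mx
    rw [RingHom.mapMatrix_apply] at h1
    rw [← h1, h0, map_zero]
  · intro i k
    show |uz (e i) k| ≤ (N0 : ℤ) + 1
    rcases hbt (e i).2 with ⟨v, hv, hve⟩ | ⟨l, hl⟩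
    · rw [← hve]
      have := hbd v hv k
      show |u v k| ≤ _
      linarith
    · rw [← hl]
      show |(Pi.single l (1 : ℤ) : Fin (N + 1) → ℤ) k| ≤ _
      by_cases h : k = l
      · subst h
        rw [Pi.single_eq_same, abs_one]
        have : (0 : ℤ) ≤ N0 := Int.natCast_nonneg _
        linarith
      · rw [Pi.single_eq_of_ne h, abs_zero]
        have : (0 : ℤ) ≤ N0 := Int.natCast_nonneg _
        linarith
  · intro v hv
    show Mx (if h : (Sum.inl v : β' ⊕ Fin (N + 1)) ∈ bb then e.symm ⟨_, h⟩ else 0) = u v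
    rw [dif_pos (hmem v hv)]
    show uz (e (e.symm ⟨_, hmem v hv⟩)) = u v
    rw [Equiv.apply_symm_apply]
    rfl
  · intro v hv v' hv' h
    have h0 : (if h : (Sum.inl v : β' ⊕ Fin (N + 1)) ∈ bb then e.symm ⟨_, h⟩ else 0) =
      (if h : (Sum.inl v' : β' ⊕ Fin (N + 1)) ∈ bb then e.symm ⟨_, h⟩ else 0) := h
    rw [dif_pos (hmem v hv), dif_pos (hmem v' hv')] at h0
    have h1 := e.symm.injective h0
    have h2 := congrArg Subtype.val h1
    exact Sum.inl.inj h2

/-- Cofactor functionals. -/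
noncomputable def cf (Mx : Matrix (Fin N) (Fin N) ℤ) (i : Fin N) : (Fin N → ℝ) →ₗ[ℝ] ℝ :=
  ∑ k, ((Mx.adjugate k i : ℤ) : ℝ) • LinearMap.proj k

lemma cf_apply (Mx : Matrix (Fin N) (Fin N) ℤ) (i : Fin N) (y : Fin N → ℝ) :
    cf Mx i y = ∑ k, (Mx.adjugate k i : ℝ) * y k := by
  simp [cf]

lemma cf_row (Mx : Matrix (Fin N) (Fin N) ℤ) (i l : Fin N) :
    cf Mx i (rv (Mx l)) = if l = i then (Mx.det : ℝ) else 0 := by
  rw [cf_apply]
  have h1 : (Mx * Mx.adjugate) l i = (Mx.det • (1 : Matrix (Fin N) (Fin N) ℤ)) l i := by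
    rw [Matrix.mul_adjugate]
  rw [Matrix.mul_apply, Matrix.smul_apply, Matrix.one_apply] at h1
  have h2 : ∑ k, (Mx.adjugate k i : ℝ) * rv (Mx l) k =
      ((∑ k, Mx l k * Mx.adjugate k i : ℤ) : ℝ) := by
    push_cast
    exact Finset.sum_congr rfl fun k _ => mul_comm _ _
  rw [h2, h1]
  split_ifs <;> simp

lemma cf_sum (Mx : Matrix (Fin N) (Fin N) ℤ) (y : Fin N → ℝ) :
    ∑ i, cf Mx i y • rv (Mx i) = (Mx.det : ℝ) • y := by
  funext c
  rw [Finset.sum_apply]
  simp only [Pi.smul_apply, smul_eq_mul, cf_apply, Finset.sum_mul]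
  rw [Finset.sum_comm]
  have h1 : ∀ k, ∑ i, (Mx.adjugate k i : ℝ) * y k * rv (Mx i) c =
      y k * (((Mx.adjugate * Mx) k c : ℤ) : ℝ) := by
    intro k
    rw [Matrix.mul_apply]
    push_cast
    rw [Finset.mul_sum]
    refine Finset.sum_congr rfl fun i _ => ?_
    show (Mx.adjugate k i : ℝ) * y k * (Mx i c : ℝ) = _
    ring
  simp only [h1, Matrix.adjugate_mul, Matrix.smul_apply, Matrix.one_apply]
  rw [Finset.sum_eq_single c]
  · simp [mul_comm]
  · intro k _ hk
    simp [hk]
  · intro h; exact absurd (Finset.mem_univ _) h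

lemma adj_bound (Mx : Matrix (Fin N) (Fin N) ℤ) {c : ℤ} (hc : 1 ≤ c) (h : ∀ i k, |Mx i k| ≤ c)
    (k i : Fin N) : |Mx.adjugate k i| ≤ (N.factorial : ℤ) * c ^ N := by
  rw [Matrix.adjugate_apply]
  have h1 := Matrix.det_le (A := Mx.updateRow i (Pi.single k 1)) (abv := AbsoluteValue.abs)
    (x := c) (by
      intro r s
      by_cases hr : r = i
      · subst hr
        rw [Matrix.updateRow_self]
        by_cases hs : s = k
        · subst hs
          rw [Pi.single_eq_same]
          show |(1 : ℤ)| ≤ c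
          rw [abs_one]; exact hc
        · rw [Pi.single_eq_of_ne hs]
          show |(0 : ℤ)| ≤ c
          rw [abs_zero]; linarith
      · rw [Matrix.updateRow_ne hr]
        exact h r s)
  rw [Fintype.card_fin, nsmul_eq_mul] at h1
  exact h1

end frame

section induction
variable {β' : Type*} {N : ℕ}

/-- Moving along a dependency until a weight vanishes. -/
lemma shrink_supp {μ κ : β' →₀ ℝ} (hμ : ∀ x, 0 ≤ μ x) (hsub : κ.support ⊆ μ.support)
    (hex : ∃ x, 0 < κ x) : ∃ t : ℝ, 0 < t ∧ (∀ x, 0 ≤ (μ - t • κ) x) ∧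
      (μ - t • κ).support ⊆ μ.support ∧ (μ - t • κ).support.card < μ.support.card := by
  classical
  let S := μ.support.filter (fun x => 0 < κ x)
  have hS : S.Nonempty := by
    obtain ⟨x, hx⟩ := hex
    exact ⟨x, Finset.mem_filter.2 ⟨hsub (Finsupp.mem_support_iff.2 hx.ne'), hx⟩⟩
  obtain ⟨x0, hx0, hmin⟩ := Finset.exists_min_image S (fun x => μ x / κ x) hS
  have hx0' := Finset.mem_filter.1 hx0
  have hμx0 : 0 < μ x0 := lt_of_le_of_ne (hμ x0) (Ne.symm (Finsupp.mem_support_iff.1 hx0'.1))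
  have hss : (μ - (μ x0 / κ x0) • κ).support ⊆ μ.support :=
    supp_sub_subset _ _ _ (Finset.Subset.refl _) (supp_smul_subset _ _ _ hsub)
  have hzero : (μ - (μ x0 / κ x0) • κ) x0 = 0 := by
    rw [Finsupp.sub_apply, Finsupp.smul_apply, smul_eq_mul, div_mul_cancel₀ _ hx0'.2.ne', sub_self]
  refine ⟨μ x0 / κ x0, div_pos hμx0 hx0'.2, fun x => ?_, hss, ?_⟩
  · rw [Finsupp.sub_apply, Finsupp.smul_apply, smul_eq_mul]
    have hpos : 0 < μ x0 / κ x0 := div_pos hμx0 hx0'.2
    by_cases hx : 0 < κ x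
    · have hxS : x ∈ S := Finset.mem_filter.2 ⟨hsub (Finsupp.mem_support_iff.2 hx.ne'), hx⟩
      have h1 := hmin x hxS
      have h2 : μ x / κ x * κ x = μ x := div_mul_cancel₀ _ hx.ne'
      have h3 : μ x0 / κ x0 * κ x ≤ μ x / κ x * κ x := mul_le_mul_of_nonneg_right h1 hx.le
      linarith
    · push Not at hx
      have h1 := mul_nonpos_of_nonneg_of_nonpos hpos.le hx
      have h2 := hμ x
      linarith
  · refine Finset.card_lt_card ⟨hss, fun hcon => ?_⟩
    have h1 := hcon hx0'.1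
    exact (Finsupp.mem_support_iff.1 h1) hzero

/-- Reduction to weights with independent supports. -/
lemma basic_induction (u : β' → Fin (N + 1) → ℤ) (hlev : ∀ v, u v 0 = 1) (Q : (β' →₀ ℝ) → Prop)
    (hbase : ∀ μ : β' →₀ ℝ, (∀ x, 0 ≤ μ x) →
      LinearIndependent ℝ (fun v : μ.support => rv (u v)) → Q μ)
    (hstep : ∀ μ μ1 μ2 : β' →₀ ℝ, (∀ x, 0 ≤ μ1 x) → (∀ x, 0 ≤ μ2 x) →
      μ1.support ⊆ μ.support → μ2.support ⊆ μ.support → ∀ α β : ℝ, 0 ≤ α → 0 ≤ β → α + β = 1 →
      μ = α • μ1 + β • μ2 → lc u μ1 = lc u μ → lc u μ2 = lc u μ → Q μ1 → Q μ2 → Q μ) :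
    ∀ M : ℕ, ∀ μ : β' →₀ ℝ, (∀ x, 0 ≤ μ x) → μ.support.card ≤ M → Q μ := by
  classical
  intro M
  induction M with
  | zero =>
    intro μ hμ hc
    have h0 : μ.support = ∅ := Finset.card_eq_zero.1 (Nat.le_zero.1 hc)
    refine hbase μ hμ ?_
    have : IsEmpty μ.support := by
      rw [h0]
      exact ⟨fun x => absurd x.2 (Finset.notMem_empty _)⟩
    exact linearIndependent_empty_type
  | succ M ih =>
    intro μ hμ hc
    by_cases hli : LinearIndependent ℝ (fun v : μ.support => rv (u v))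
    · exact hbase μ hμ hli
    · rw [Fintype.not_linearIndependent_iff] at hli
      obtain ⟨g, hg0, i0, hi0⟩ := hli
      let κ : β' →₀ ℝ := ∑ v : μ.support, single (v : β') (g v)
      have hκapp : ∀ v : μ.support, κ v = g v := by
        intro v
        show (∑ v : μ.support, single (v : β') (g v)) (v : β') = g v
        rw [Finsupp.finsetSum_apply, Finset.sum_eq_single v]
        · rw [Finsupp.single_eq_same]
        · intro v' _ hv'
          rw [Finsupp.single_apply, if_neg]
          exact fun h => hv' (Subtype.ext h)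
        · intro h; exact absurd (Finset.mem_univ _) h
      have hκs : κ.support ⊆ μ.support := by
        refine Finsupp.support_finsetSum.trans ?_
        intro z hz
        rw [Finset.mem_biUnion] at hz
        obtain ⟨x, _, hx⟩ := hz
        rw [Finset.mem_singleton.1 (Finsupp.support_single_subset hx)]
        exact x.2
      have hκl : lc u κ = 0 := by
        show lc u (∑ v : μ.support, single (v : β') (g v)) = 0
        rw [map_sum, ← hg0]
        exact Finset.sum_congr rfl fun v _ => lc_single _ _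
      have hκne : κ (i0 : β') ≠ 0 := by rw [hκapp]; exact hi0
      have hκsum : ∑ v ∈ μ.support, κ v = 0 := by
        have h1 := congrFun hκl 0
        rw [lc_apply_of_subset κ μ.support hκs, Pi.zero_apply] at h1
        rw [← h1]
        refine Finset.sum_congr rfl fun v _ => ?_
        rw [hlev v]; simp
      have hboth : (∃ x, 0 < κ x) ∧ ∃ x, κ x < 0 := by
        rcases lt_or_gt_of_ne hκne with h | h
        · refine ⟨?_, _, h⟩
          by_contra hcon
          push Not at hcon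
          have h1 : ∑ v ∈ μ.support, κ v < 0 :=
            Finset.sum_neg' (fun v _ => hcon v) ⟨i0, i0.2, h⟩
          linarith
        · refine ⟨⟨_, h⟩, ?_⟩
          by_contra hcon
          push Not at hcon
          have h1 : 0 < ∑ v ∈ μ.support, κ v :=
            Finset.sum_pos' (fun v _ => hcon v) ⟨i0, i0.2, h⟩
          linarith
      obtain ⟨t1, ht1, hn1, hs1, hc1⟩ := shrink_supp hμ hκs hboth.1
      obtain ⟨t2, ht2, hn2, hs2, hc2⟩ := shrink_supp (κ := -κ) hμ (by
        rw [Finsupp.support_neg]; exact hκs) (by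
        obtain ⟨x, hx⟩ := hboth.2
        exact ⟨x, by rw [Finsupp.neg_apply]; linarith⟩)
      refine hstep μ _ _ hn1 hn2 hs1 hs2 (t2 / (t1 + t2)) (t1 / (t1 + t2)) (by positivity)
        (by positivity) ?_ ?_ ?_ ?_ (ih _ hn1 (by omega)) (ih _ hn2 (by omega))
      · field_simp
        ring
      · ext x
        simp only [Finsupp.add_apply, Finsupp.smul_apply, Finsupp.sub_apply, Finsupp.neg_apply,
          smul_eq_mul]
        field_simp
        ring
      · rw [map_sub, map_smul, hκl, smul_zero, sub_zero]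
      · rw [map_sub, map_smul, map_neg, hκl, neg_zero, smul_zero, sub_zero]

end induction

end H79KMW
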