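import Pool.Agent.Work.MP_6237c7_co.LV.Grid

set_option autoImplicit false
set_option linter.unusedSectionVars false

namespace H79KMW

open Finsupp

section top
variable {β' : Type*} {m : ℕ}

/-- Coordinates with respect to the independent rows. -/
noncomputable def Tp (Mx : Matrix (Fin (m + 1)) (Fin (m + 1)) ℤ) (j : β' → Fin (m + 1))
    (I : Finset β') : (Fin (m + 1) → ℝ) →ₗ[ℝ] (β' →₀ ℝ) :=
  ∑ v ∈ I, (Finsupp.lsingle v).comp ((Mx.det : ℝ)⁻¹ • cf Mx (j v))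

variable {Mx : Matrix (Fin (m + 1)) (Fin (m + 1)) ℤ} {j : β' → Fin (m + 1)} {I : Finset β'}

lemma Tp_eq (y : Fin (m + 1) → ℝ) :
    Tp Mx j I y = ∑ v ∈ I, single v ((Mx.det : ℝ)⁻¹ * cf Mx (j v) y) := by
  simp [Tp, LinearMap.sum_apply]

lemma Tp_mem (y : Fin (m + 1) → ℝ) {v : β'} (hv : v ∈ I) :
    Tp Mx j I y v = (Mx.det : ℝ)⁻¹ * cf Mx (j v) y := by
  classical
  rw [Tp_eq, Finsupp.finsetSum_apply, Finset.sum_eq_single v]
  · rw [Finsupp.single_eq_same]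
  · intro v' _ hv'
    rw [Finsupp.single_apply, if_neg hv']
  · intro h; exact absurd hv h

lemma Tp_supp (y : Fin (m + 1) → ℝ) : (Tp Mx j I y).support ⊆ I := by
  classical
  rw [Tp_eq]
  refine Finsupp.support_finsetSum.trans ?_
  intro z hz
  rw [Finset.mem_biUnion] at hz
  obtain ⟨x, hx, hx'⟩ := hz
  rw [Finset.mem_singleton.1 (Finsupp.support_single_subset hx')]
  exact hx

variable {u : β' → Fin (m + 1) → ℤ}

lemma cf_lc (hj : ∀ v ∈ I, Mx (j v) = u v) {μ : β' →₀ ℝ} (hμ : μ.support ⊆ I) (i : Fin (m + 1)) :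
    cf Mx i (lc u μ) = ∑ v ∈ I, μ v * (if j v = i then (Mx.det : ℝ) else 0) := by
  have h1 : lc u μ = ∑ v ∈ I, μ v • rv (u v) := by
    funext k
    rw [lc_apply_of_subset μ I hμ, Finset.sum_apply]
    rfl
  rw [h1, map_sum]
  refine Finset.sum_congr rfl fun v hv => ?_
  rw [map_smul, smul_eq_mul, ← hj v hv, cf_row]

lemma Tp_left (hdet : Mx.det ≠ 0) (hj : ∀ v ∈ I, Mx (j v) = u v)
    (hinj : ∀ v ∈ I, ∀ v' ∈ I, j v = j v' → v = v') {μ : β' →₀ ℝ} (hμ : μ.support ⊆ I) :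
    Tp Mx j I (lc u μ) = μ := by
  classical
  have hd : (Mx.det : ℝ) ≠ 0 := by exact_mod_cast hdet
  ext v
  by_cases hv : v ∈ I
  · rw [Tp_mem _ hv, cf_lc hj hμ, Finset.sum_eq_single v]
    · rw [if_pos rfl]
      field_simp
    · intro v' hv' hne
      rw [if_neg (fun h => hne (hinj v' hv' v hv h)), mul_zero]
    · intro h; exact absurd hv h
  · have h1 : Tp Mx j I (lc u μ) v = 0 := by
      by_contra hne
      exact hv (Tp_supp _ (Finsupp.mem_support_iff.2 hne))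
    have h2 : μ v = 0 := by
      by_contra hne
      exact hv (hμ (Finsupp.mem_support_iff.2 hne))
    rw [h1, h2]

lemma Tp_lc (hdet : Mx.det ≠ 0) (hj : ∀ v ∈ I, Mx (j v) = u v)
    (hinj : ∀ v ∈ I, ∀ v' ∈ I, j v = j v' → v = v') {y : Fin (m + 1) → ℝ}
    (hy : ∀ i, (∀ v ∈ I, j v ≠ i) → cf Mx i y = 0) : lc u (Tp Mx j I y) = y := by
  classical
  have hd : (Mx.det : ℝ) ≠ 0 := by exact_mod_cast hdet
  rw [Tp_eq, map_sum]
  have h1 : ∀ v ∈ I, lc u (single v ((Mx.det : ℝ)⁻¹ * cf Mx (j v) y)) =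
      (fun i => ((Mx.det : ℝ)⁻¹ * cf Mx i y) • rv (Mx i)) (j v) := by
    intro v hv
    rw [lc_single, ← hj v hv]
  rw [Finset.sum_congr rfl h1, ← Finset.sum_image (f := fun i =>
    ((Mx.det : ℝ)⁻¹ * cf Mx i y) • rv (Mx i)) (fun v hv v' hv' h => hinj v hv v' hv' h)]
  rw [Finset.sum_subset (Finset.subset_univ _)]
  · have h2 : ∑ i, ((Mx.det : ℝ)⁻¹ * cf Mx i y) • rv (Mx i) =
        (Mx.det : ℝ)⁻¹ • ∑ i, cf Mx i y • rv (Mx i) := by
      rw [Finset.smul_sum]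
      exact Finset.sum_congr rfl fun i _ => by rw [smul_smul]
    rw [h2, cf_sum, smul_smul, inv_mul_cancel₀ hd, one_smul]
  · intro i _ hi
    rw [hy i (fun v hv h => hi (Finset.mem_image.2 ⟨v, hv, h⟩)), mul_zero, zero_smul]

lemma cf_cons (i : Fin (m + 1)) (y : Fin m → ℝ) :
    cf Mx i (Fin.cons 1 y : Fin (m + 1) → ℝ) =
      (Mx.adjugate 0 i : ℝ) + ap (fun k => Mx.adjugate k.succ i) y := by
  rw [cf_apply, Fin.sum_univ_succ, ap]
  simp

/-- Signs are inherited by smaller signatures. -/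
lemma ineq_transfer {ι : Type*} {a : ι → Fin m → ℤ} {c : Fin m → ℤ} (hfam : ∃ i, a i = c)
    {z t : Fin m → ℝ} (hzt : sg a t ≤ sg a z) {α : ℤ} (h : (α : ℝ) + ap c z ≤ 0) :
    (α : ℝ) + ap c t ≤ 0 := by
  obtain ⟨i, rfl⟩ := hfam
  have h1 : ⌈ap (a i) z⌉ ≤ -α := by
    rw [Int.ceil_le]
    push_cast
    linarith
  have h2 : ⌈ap (a i) t⌉ ≤ ⌈ap (a i) z⌉ := hzt i
  have h3 := Int.le_ceil (ap (a i) t)
  have h4 : ((⌈ap (a i) t⌉ : ℤ) : ℝ) ≤ ((-α : ℤ) : ℝ) := by exact_mod_cast h2.trans h1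
  push_cast at h4
  linarith

lemma cf_transfer {ι : Type*} {a : ι → Fin m → ℤ} {N1 : ℕ}
    (hfam : ∀ c : Fin m → ℤ, (∀ k, |c k| ≤ (N1 : ℤ)) → ∃ i, a i = c)
    (hadj : ∀ k i, |Mx.adjugate k i| ≤ (N1 : ℤ)) {z t : Fin m → ℝ} (hzt : sg a t ≤ sg a z)
    (i : Fin (m + 1)) :
    (cf Mx i (Fin.cons 1 z : Fin (m + 1) → ℝ) ≤ 0 → cf Mx i (Fin.cons 1 t : Fin (m + 1) → ℝ) ≤ 0) ∧
    (0 ≤ cf Mx i (Fin.cons 1 z : Fin (m + 1) → ℝ) →
      0 ≤ cf Mx i (Fin.cons 1 t : Fin (m + 1) → ℝ)) := by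
  rw [cf_cons, cf_cons]
  constructor
  · intro h
    exact ineq_transfer (hfam _ (fun k => hadj k.succ i)) hzt h
  · intro h
    have hneg : ∀ y : Fin m → ℝ, ap (-(fun k => Mx.adjugate k.succ i)) y =
        - ap (fun k => Mx.adjugate k.succ i) y := fun y => ap_neg _ _
    have h1 := ineq_transfer (a := a) (c := -(fun k => Mx.adjugate k.succ i))
      (hfam _ (fun k => by rw [Pi.neg_apply, abs_neg]; exact hadj k.succ i)) hzt
      (α := -(Mx.adjugate 0 i)) (by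
        rw [hneg]; push_cast; linarith)
    rw [hneg] at h1
    push_cast at h1
    linarith

lemma Tp_good {ι : Type*} {a : ι → Fin m → ℤ} {N1 : ℕ}
    (hfam : ∀ c : Fin m → ℤ, (∀ k, |c k| ≤ (N1 : ℤ)) → ∃ i, a i = c)
    (hadj : ∀ k i, |Mx.adjugate k i| ≤ (N1 : ℤ)) {z t : Fin m → ℝ} (hzt : sg a t ≤ sg a z)
    (hdet : Mx.det ≠ 0) (hj : ∀ v ∈ I, Mx (j v) = u v)
    (hinj : ∀ v ∈ I, ∀ v' ∈ I, j v = j v' → v = v') {μ : β' →₀ ℝ} (hμ0 : ∀ v, 0 ≤ μ v)
    (hμ : μ.support ⊆ I) (hl : lc u μ = (Fin.cons 1 z : Fin (m + 1) → ℝ)) :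
    (∀ v, 0 ≤ Tp Mx j I (Fin.cons 1 t : Fin (m + 1) → ℝ) v) ∧
      lc u (Tp Mx j I (Fin.cons 1 t : Fin (m + 1) → ℝ)) = (Fin.cons 1 t : Fin (m + 1) → ℝ) := by
  classical
  have hd : (Mx.det : ℝ) ≠ 0 := by exact_mod_cast hdet
  have hz : ∀ i, cf Mx i (Fin.cons 1 z : Fin (m + 1) → ℝ) =
      ∑ v ∈ I, μ v * (if j v = i then (Mx.det : ℝ) else 0) := by
    intro i
    rw [← hl, cf_lc hj hμ]
  have hsign : ∀ i, 0 ≤ (Mx.det : ℝ)⁻¹ * cf Mx i (Fin.cons 1 t : Fin (m + 1) → ℝ) := by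
    intro i
    rcases lt_or_gt_of_ne hd with h | h
    · have h1 : cf Mx i (Fin.cons 1 z : Fin (m + 1) → ℝ) ≤ 0 := by
        rw [hz]
        refine Finset.sum_nonpos fun v _ => mul_nonpos_of_nonneg_of_nonpos (hμ0 v) ?_
        split_ifs
        · exact h.le
        · exact le_rfl
      have h2 := (cf_transfer hfam hadj hzt i).1 h1
      exact mul_nonneg_of_nonpos_of_nonpos (inv_nonpos.2 h.le) h2
    · have h1 : 0 ≤ cf Mx i (Fin.cons 1 z : Fin (m + 1) → ℝ) := by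
        rw [hz]
        refine Finset.sum_nonneg fun v _ => mul_nonneg (hμ0 v) ?_
        split_ifs
        · exact h.le
        · exact le_rfl
      have h2 := (cf_transfer hfam hadj hzt i).2 h1
      exact mul_nonneg (inv_nonneg.2 h.le) h2
  refine ⟨fun v => ?_, Tp_lc hdet hj hinj ?_⟩
  · by_cases hv : v ∈ I
    · rw [Tp_mem _ hv]; exact hsign _
    · have h1 : Tp Mx j I (Fin.cons 1 t : Fin (m + 1) → ℝ) v = 0 := by
        by_contra hne
        exact hv (Tp_supp _ (Finsupp.mem_support_iff.2 hne))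
      rw [h1]
  · intro i hi
    have h1 : cf Mx i (Fin.cons 1 z : Fin (m + 1) → ℝ) = 0 := by
      rw [hz]
      refine Finset.sum_eq_zero fun v hv => ?_
      rw [if_neg (hi v hv), mul_zero]
    exact le_antisymm ((cf_transfer hfam hadj hzt i).1 h1.le)
      ((cf_transfer hfam hadj hzt i).2 h1.ge)

end top

section PV
variable {m n : ℕ}

/-- The base part of a lifted vertex. -/
def ub (v : Fin (m + n + 1) → ℤ) : Fin (m + 1) → ℤ :=
  Fin.cons 1 (fun k => v (Fin.castAdd n k).succ)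

/-- The fibre functionals. -/
noncomputable def fb (k : Fin n) : ((Fin (m + n + 1) → ℤ) →₀ ℝ) →ₗ[ℝ] ℝ :=
  Finsupp.linearCombination ℝ (fun v => ((v (Fin.natAdd m k).succ : ℤ) : ℝ))

/-- The polytope spanned by lifted vertices. -/
def PV (V : Finset (Fin (m + n + 1) → ℤ)) : Set ((Fin m → ℝ) × (Fin n → ℝ)) :=
  {q | ∃ μ : (Fin (m + n + 1) → ℤ) →₀ ℝ, (∀ v, 0 ≤ μ v) ∧ μ.support ⊆ V ∧
    lc ub μ = (Fin.cons 1 q.1 : Fin (m + 1) → ℝ) ∧ ∀ k, fb k μ = q.2 k}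

variable {V : Finset (Fin (m + n + 1) → ℤ)}

lemma PV_convex : Convex ℝ (PV V) := by
  rintro q ⟨μ, h1, h2, h3, h4⟩ q' ⟨μ', h1', h2', h3', h4'⟩ α β hα hβ hαβ
  refine ⟨α • μ + β • μ', ?_, ?_, ?_, ?_⟩
  · intro v
    rw [Finsupp.add_apply, Finsupp.smul_apply, Finsupp.smul_apply, smul_eq_mul, smul_eq_mul]
    exact add_nonneg (mul_nonneg hα (h1 v)) (mul_nonneg hβ (h1' v))
  · exact supp_add_subset _ _ _ (supp_smul_subset _ _ _ h2) (supp_smul_subset _ _ _ h2')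
  · rw [map_add, map_smul, map_smul, h3, h3']
    funext k
    refine Fin.cases ?_ (fun k => ?_) k
    · show α * 1 + β * 1 = (1:ℝ)
      linarith
    · rfl
  · intro k
    rw [map_add, map_smul, map_smul, h4, h4']
    rfl

/-- Splitting of points along the cells of the base. -/
lemma PV_grid {ι : Type*} {a : ι → Fin m → ℤ} {w N1 D : ℕ} {b : (ι → ℤ) → (Fin m → ℤ)}
    {W : Set (Fin m → ℝ)}
    (hfam : ∀ c : Fin m → ℤ, (∀ k, |c k| ≤ (N1 : ℤ)) → ∃ i, a i = c)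
    (hN1 : ((m + 1).factorial : ℤ) * ((w : ℤ) + 2) ^ (m + 1) ≤ N1)
    (hb : ∀ x : Fin m → ℝ, sg a (fun k => (b (sg a x) k : ℝ) / D) = sg a x)
    (hV : ∀ v ∈ V, ∀ k : Fin m, |v (Fin.castAdd n k).succ| ≤ (w : ℤ))
    (z : Fin m → ℝ) (c : Fin n → ℝ) (hzc : (z, c) ∈ PV V) (ω : (ι → ℤ) →₀ ℝ)
    (hω : ω ∈ body (Ch a W)) (hω1 : ∑ s ∈ ω.support, ω s = 1)
    (hωz : ∀ k, ∑ s ∈ ω.support, ω s * qt D b s k = z k)
    (hωs : ∀ s ∈ ω.support, s ≤ sg a z) :
    ∃ x : (ι → ℤ) → (Fin n → ℝ), (∀ s ∈ ω.support, (qt D b s, x s) ∈ PV V) ∧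
      ∀ k, ∑ s ∈ ω.support, ω s * x s k = c k := by
  classical
  obtain ⟨μ0, hμ0, hμs, hμl, hμc⟩ := hzc
  have key := basic_induction (β' := Fin (m + n + 1) → ℤ) (ub (m := m) (n := n)) (fun v => rfl)
    (fun μ => μ.support ⊆ V → lc ub μ = (Fin.cons 1 z : Fin (m + 1) → ℝ) →
      ∃ x : (ι → ℤ) → (Fin n → ℝ), (∀ s ∈ ω.support, (qt D b s, x s) ∈ PV V) ∧
        ∀ k, ∑ s ∈ ω.support, ω s * x s k = fb k μ) ?_ ?_ _ μ0 hμ0 le_rfl hμs hμl
  · obtain ⟨x, hx1, hx2⟩ := key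
    exact ⟨x, hx1, fun k => by rw [hx2 k, hμc k]⟩
  · intro μ hμ hli hsub hl
    have hubd : ∀ v ∈ μ.support, ∀ k, |ub v k| ≤ (((w + 1 : ℕ)) : ℤ) := by
      intro v hv k
      push_cast
      refine Fin.cases ?_ (fun k => ?_) k
      · show |(1 : ℤ)| ≤ (w : ℤ) + 1
        rw [abs_one]
        have : (0 : ℤ) ≤ w := Int.natCast_nonneg _
        linarith
      · have := hV v (hsub hv) k
        show |v (Fin.castAdd n k).succ| ≤ (w : ℤ) + 1
        linarith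
    obtain ⟨Mx, j, hdet, hMb, hj, hinj⟩ := exists_frame ub (w + 1) μ.support hli hubd
    have hadj : ∀ k i, |Mx.adjugate k i| ≤ (N1 : ℤ) := by
      intro k i
      have h1 := adj_bound Mx (c := (w : ℤ) + 2) (by
        have : (0 : ℤ) ≤ w := Int.natCast_nonneg _
        linarith) (fun i k => by
        have := hMb i k
        push_cast at this
        linarith) k i
      exact h1.trans hN1
    have hgood : ∀ s ∈ ω.support, (∀ v, 0 ≤ Tp Mx j μ.support
        (Fin.cons 1 (qt D b s) : Fin (m + 1) → ℝ) v) ∧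
        lc ub (Tp Mx j μ.support (Fin.cons 1 (qt D b s) : Fin (m + 1) → ℝ)) =
          (Fin.cons 1 (qt D b s) : Fin (m + 1) → ℝ) := by
      intro s hs
      refine Tp_good hfam hadj ?_ hdet hj hinj hμ (Finset.Subset.refl _) hl
      rw [qt_sg hb (hω.2.1 s hs)]
      exact hωs s hs
    refine ⟨fun s k => fb k (Tp Mx j μ.support (Fin.cons 1 (qt D b s) : Fin (m + 1) → ℝ)), ?_, ?_⟩
    · intro s hs
      exact ⟨_, (hgood s hs).1, (Tp_supp _).trans hsub, (hgood s hs).2, fun k => rfl⟩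
    · intro k
      have h1 : ∑ s ∈ ω.support, ω s •
          (Fin.cons 1 (qt D b s) : Fin (m + 1) → ℝ) = (Fin.cons 1 z : Fin (m + 1) → ℝ) := by
        funext l
        rw [Finset.sum_apply]
        refine Fin.cases ?_ (fun l => ?_) l
        · show ∑ s ∈ ω.support, ω s * 1 = (1:ℝ)
          simp only [mul_one]
          exact hω1
        · exact hωz l
      have h2 : ∑ s ∈ ω.support, ω s • Tp Mx j μ.support
          (Fin.cons 1 (qt D b s) : Fin (m + 1) → ℝ) = μ := by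
        calc ∑ s ∈ ω.support, ω s • Tp Mx j μ.support
              (Fin.cons 1 (qt D b s) : Fin (m + 1) → ℝ) =
              Tp Mx j μ.support (∑ s ∈ ω.support, ω s •
                (Fin.cons 1 (qt D b s) : Fin (m + 1) → ℝ)) := by
                rw [map_sum]
                exact Finset.sum_congr rfl fun s _ => (map_smul _ _ _).symm
          _ = Tp Mx j μ.support (lc ub μ) := by rw [h1, hl]
          _ = μ := Tp_left hdet hj hinj (Finset.Subset.refl μ.support)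
      conv_rhs => rw [← h2]
      rw [map_sum]
      exact Finset.sum_congr rfl fun s _ => by rw [map_smul, smul_eq_mul]
  · intro μ μ1 μ2 _ _ hs1 hs2 α β hα hβ hαβ hμe hl1 hl2 hQ1 hQ2 hsub hl
    obtain ⟨x1, h11, h12⟩ := hQ1 (hs1.trans hsub) (hl1.trans hl)
    obtain ⟨x2, h21, h22⟩ := hQ2 (hs2.trans hsub) (hl2.trans hl)
    refine ⟨fun s => α • x1 s + β • x2 s, ?_, ?_⟩
    · intro s hs
      have h := PV_convex (h11 s hs) (h21 s hs) hα hβ hαβ
      have e : (α • ((qt D b s, x1 s) : (Fin m → ℝ) × (Fin n → ℝ)) +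
          β • ((qt D b s, x2 s) : (Fin m → ℝ) × (Fin n → ℝ))) =
          (qt D b s, α • x1 s + β • x2 s) := by
        refine Prod.ext ?_ rfl
        funext k
        show α * qt D b s k + β * qt D b s k = qt D b s k
        rw [← add_mul, hαβ, one_mul]
      rw [e] at h
      exact h
    · intro k
      rw [hμe, map_add, map_smul, map_smul, ← h12 k, ← h22 k, smul_eq_mul, smul_eq_mul,
        Finset.mul_sum, Finset.mul_sum, ← Finset.sum_add_distrib]
      refine Finset.sum_congr rfl fun s _ => ?_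
      show ω s * (α * x1 s k + β * x2 s k) = _
      ring

/-- Fibres over rational base points are hulls of rational points. -/
lemma PV_vert {w D F : ℕ} (hD : 0 < D) (hF : 0 < F)
    (hV : ∀ v ∈ V, ∀ k : Fin m, |v (Fin.castAdd n k).succ| ≤ (w : ℤ))
    (hFd : ∀ δ : ℤ, δ ≠ 0 → |δ| ≤ ((m + 1).factorial : ℤ) * ((w : ℤ) + 2) ^ (m + 1) →
      δ ∣ (F : ℤ))
    (bt : Fin m → ℤ) (c : Fin n → ℝ) (hc : ((fun k => (bt k : ℝ) / D), c) ∈ PV V) :
    (fun k => ((D * F : ℕ) : ℝ) * c k) ∈ convexHull ℝ ({y : Fin n → ℝ |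
      ((fun k => (bt k : ℝ) / D), (fun k => y k / ((D * F : ℕ) : ℝ))) ∈ PV V} ∩
        Set.range (rv (n := n))) := by
  classical
  have hE : (0:ℝ) < ((D * F : ℕ) : ℝ) := by exact_mod_cast Nat.mul_pos hD hF
  have hDr : (D : ℝ) ≠ 0 := by exact_mod_cast hD.ne'
  obtain ⟨μ0, hμ0, hμs, hμl, hμc⟩ := hc
  have key := basic_induction (β' := Fin (m + n + 1) → ℤ) (ub (m := m) (n := n)) (fun v => rfl)
    (fun μ => μ.support ⊆ V → (∀ v, 0 ≤ μ v) → lc ub μ = (Fin.cons 1 (fun k => (bt k : ℝ) / D) :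
      Fin (m + 1) → ℝ) →
      (fun k => ((D * F : ℕ) : ℝ) * fb k μ) ∈ convexHull ℝ ({y : Fin n → ℝ |
      ((fun k => (bt k : ℝ) / D), (fun k => y k / ((D * F : ℕ) : ℝ))) ∈ PV V} ∩
        Set.range (rv (n := n)))) ?_ ?_ _ μ0 hμ0 le_rfl hμs hμ0 hμl
  · have e : (fun k => ((D * F : ℕ) : ℝ) * fb k μ0) = (fun k => ((D * F : ℕ) : ℝ) * c k) := by
      funext k; rw [hμc k]
    rw [e] at key
    exact key
  · intro μ hμ hli hsub _ hl
    have hubd : ∀ v ∈ μ.support, ∀ k, |ub v k| ≤ (((w + 1 : ℕ)) : ℤ) := by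
      intro v hv k
      push_cast
      refine Fin.cases ?_ (fun k => ?_) k
      · show |(1 : ℤ)| ≤ (w : ℤ) + 1
        rw [abs_one]
        have : (0 : ℤ) ≤ w := Int.natCast_nonneg _
        linarith
      · have := hV v (hsub hv) k
        show |v (Fin.castAdd n k).succ| ≤ (w : ℤ) + 1
        linarith
    obtain ⟨Mx, j, hdet, hMb, hj, hinj⟩ := exists_frame ub (w + 1) μ.support hli hubd
    have hdb : |Mx.det| ≤ ((m + 1).factorial : ℤ) * ((w : ℤ) + 2) ^ (m + 1) := by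
      have h1 := Matrix.det_le (A := Mx) (abv := AbsoluteValue.abs) (x := (w : ℤ) + 2)
        (fun i k => by
          have := hMb i k
          push_cast at this
          show |Mx i k| ≤ _
          linarith)
      rw [Fintype.card_fin, nsmul_eq_mul] at h1
      exact h1
    obtain ⟨F', hF'⟩ := hFd _ hdet hdb
    have hd : (Mx.det : ℝ) ≠ 0 := by exact_mod_cast hdet
    have hFr : (F : ℝ) = (Mx.det : ℝ) * F' := by
      have : ((F : ℤ) : ℝ) = ((Mx.det * F' : ℤ) : ℝ) := by rw [hF']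
      rw [Int.cast_mul, Int.cast_natCast] at this
      exact this
    have hTμ : Tp Mx j μ.support (Fin.cons 1 (fun k => (bt k : ℝ) / D) : Fin (m + 1) → ℝ) = μ := by
      rw [← hl]; exact Tp_left hdet hj hinj (Finset.Subset.refl _)
    have hint : ∀ v ∈ μ.support, ((D * F : ℕ) : ℝ) * μ v =
        ((F' * (D * Mx.adjugate 0 (j v) + ∑ k : Fin m, Mx.adjugate k.succ (j v) * bt k) : ℤ) : ℝ) := by
      intro v hv
      have h1 : μ v = (Mx.det : ℝ)⁻¹ * ((Mx.adjugate 0 (j v) : ℝ) +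
          ap (fun k => Mx.adjugate k.succ (j v)) (fun k => (bt k : ℝ) / D)) := by
        conv_lhs => rw [← hTμ]
        rw [Tp_mem _ hv, cf_cons]
      have h2 : (D : ℝ) * ap (fun k => Mx.adjugate k.succ (j v)) (fun k => (bt k : ℝ) / D) =
          ∑ k : Fin m, (Mx.adjugate k.succ (j v) : ℝ) * (bt k : ℝ) := by
        rw [ap, Finset.mul_sum]
        refine Finset.sum_congr rfl fun k _ => ?_
        field_simp
      have h3 : ((D * F : ℕ) : ℝ) = D * ((Mx.det : ℝ) * F') := by rw [Nat.cast_mul, hFr]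
      have h4 : ((∑ k : Fin m, Mx.adjugate k.succ (j v) * bt k : ℤ) : ℝ) =
          (D : ℝ) * ap (fun k => Mx.adjugate k.succ (j v)) (fun k => (bt k : ℝ) / D) := by
        rw [h2, Int.cast_sum]
        exact Finset.sum_congr rfl fun k _ => Int.cast_mul _ _
      rw [h1, h3, Int.cast_mul, Int.cast_add, Int.cast_mul, Int.cast_natCast, h4]
      field_simp
    refine subset_convexHull ℝ _ ⟨?_, ?_⟩
    · refine ⟨μ, hμ, hsub, hl, fun k => ?_⟩
      show fb k μ = ((D * F : ℕ) : ℝ) * fb k μ / ((D * F : ℕ) : ℝ)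
      rw [mul_div_cancel_left₀ _ hE.ne']
    · refine ⟨fun k => ∑ v ∈ μ.support, (F' * (D * Mx.adjugate 0 (j v) +
        ∑ k : Fin m, Mx.adjugate k.succ (j v) * bt k)) * v (Fin.natAdd m k).succ, ?_⟩
      funext k
      show ((∑ v ∈ μ.support, (F' * (D * Mx.adjugate 0 (j v) +
        ∑ k : Fin m, Mx.adjugate k.succ (j v) * bt k)) * v (Fin.natAdd m k).succ : ℤ) : ℝ) =
        ((D * F : ℕ) : ℝ) * fb k μ
      rw [fb, Finsupp.linearCombination_apply, Finsupp.sum, Finset.mul_sum, Int.cast_sum]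
      refine Finset.sum_congr rfl fun v hv => ?_
      rw [Int.cast_mul, ← hint v hv, smul_eq_mul]
      ring
  · intro μ μ1 μ2 hn1 hn2 hs1 hs2 α β hα hβ hαβ hμe hl1 hl2 hQ1 hQ2 hsub _ hl
    have h1 := hQ1 (hs1.trans hsub) hn1 (hl1.trans hl)
    have h2 := hQ2 (hs2.trans hsub) hn2 (hl2.trans hl)
    have h3 := (convex_convexHull ℝ _) h1 h2 hα hβ hαβ
    have e : (α • (fun k => ((D * F : ℕ) : ℝ) * fb k μ1) +
        β • (fun k => ((D * F : ℕ) : ℝ) * fb k μ2) : Fin n → ℝ) =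
        (fun k => ((D * F : ℕ) : ℝ) * fb k μ) := by
      funext k
      rw [hμe, map_add, map_smul, map_smul]
      show α * (((D * F : ℕ) : ℝ) * fb k μ1) + β * (((D * F : ℕ) : ℝ) * fb k μ2) =
        ((D * F : ℕ) : ℝ) * (α * fb k μ1 + β * fb k μ2)
      ring
    rw [e] at h3
    exact h3

end PV

end H79KMW
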