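import Pool.Agent.Work.MP_6237c7_co.Fin2

set_option autoImplicit false

namespace H79KMW

open Finsupp MeasureTheory
open scoped Pointwise

/-- The section of a fan of level one. -/
def sec {d : ℕ} (C : Set (Finset (Fin (d + 1) → ℤ))) : Set (Fin d → ℝ) :=
  {x | (Fin.cons 1 x : Fin (d + 1) → ℝ) ∈ supp id C}

/-- Repeated rounds applied to an arbitrary fan of level one. -/
lemma main_fan {d J : ℕ} (hJ : RoundProp d J) (v : ℕ)
    {C0 : Set (Finset (Fin (d + 1) → ℤ))} (hC0 : IsCx id C0) (hlv0 : Lv C0)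
    (hMB0 : MB C0 (v : ℝ)) :
    ∃ K : Geometry.SimplicialComplex ℝ (Fin d → ℝ), K.faces.Finite ∧
      K.space = ((J ^ (2 * (d + 1) * Nat.clog 2 v) : ℕ) : ℝ) • sec C0 ∧
      (∀ s ∈ K.faces, ∀ x ∈ s, ∀ i : Fin d, ∃ z : ℤ, x i = (z : ℝ)) ∧
      (∀ s ∈ K.faces, s.card = d + 1 →
        volume (convexHull ℝ (s : Set (Fin d → ℝ))) = ((d.factorial : ENNReal))⁻¹) := by
  classical
  set R : ℕ := 2 * (d + 1) * Nat.clog 2 v with hR
  set k : ℕ := J ^ R with hk
  have hk0 : 0 < k := pow_pos hJ.1 R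
  obtain ⟨K, hK, hlv, hMB, hsupp⟩ := iter_round hJ hC0 hlv0 hMB0 R
  rw [max_eq_left (theta_pow d _ v (Nat.le_pow_clog (by norm_num) v))] at hMB
  obtain ⟨X, hX1, hX2, hX3, hX4⟩ := exists_complex hK hlv hMB
  refine ⟨X, hX1, ?_, hX3, hX4⟩
  have hkR : (0:ℝ) < (k : ℝ) := by exact_mod_cast hk0
  rw [hX2]
  ext x
  rw [Set.mem_smul_set_iff_inv_smul_mem₀ hkR.ne']
  show (Fin.cons 1 x : Fin (d + 1) → ℝ) ∈ supp id K ↔
    (Fin.cons 1 ((k : ℝ)⁻¹ • x) : Fin (d + 1) → ℝ) ∈ supp id C0
  rw [hsupp]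
  have hcons : (fun j : Fin (d + 1) => if j = 0 then ((J ^ R : ℕ) : ℝ) * (Fin.cons 1 x : Fin (d + 1) → ℝ) 0
      else (Fin.cons 1 x : Fin (d + 1) → ℝ) j) =
      (k : ℝ) • (Fin.cons 1 ((k : ℝ)⁻¹ • x) : Fin (d + 1) → ℝ) := by
    funext j
    refine Fin.cases ?_ (fun i => ?_) j
    · simp [hk]
    · simp only [Fin.succ_ne_zero, if_false, Fin.cons_succ, Pi.smul_apply, smul_eq_mul]
      rw [mul_inv_cancel_left₀ hkR.ne']
  constructor
  · intro h
    have h1 : (k : ℝ) • (Fin.cons 1 ((k : ℝ)⁻¹ • x) : Fin (d + 1) → ℝ) ∈ supp id C0 := by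
      rw [← hcons]; exact h
    have h2 := supp_smul_mem hC0 h1 (c := (k : ℝ)⁻¹) (by positivity)
    rw [smul_smul, inv_mul_cancel₀ hkR.ne', one_smul] at h2
    exact h2
  · intro h
    have h2 := supp_smul_mem hC0 h hkR.le
    rw [← hcons] at h2
    exact h2

/-- The height one lift of a point. -/
noncomputable def lft {d : ℕ} (x : Fin d → ℝ) : Fin (d + 1) → ℤ :=
  Fin.cons 1 (fun i => ⌊x i⌋)

lemma lft_zero {d : ℕ} (x : Fin d → ℝ) : lft x 0 = 1 := rfl

lemma tl_lft {d : ℕ} {x : Fin d → ℝ} (hx : ∀ i : Fin d, ∃ z : ℤ, x i = (z : ℝ)) :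
    tl (lft x) = x := by
  funext i
  obtain ⟨z, hz⟩ := hx i
  show ((⌊x i⌋ : ℤ) : ℝ) = x i
  rw [hz, Int.floor_intCast]

/-- The fan over a geometric simplicial complex. -/
def fanOf {d : ℕ} (X : Geometry.SimplicialComplex ℝ (Fin d → ℝ)) :
    Set (Finset (Fin (d + 1) → ℤ)) :=
  {s | s = ∅ ∨ ∃ t ∈ X.faces, (s : Set (Fin (d + 1) → ℤ)) = lft '' (t : Set (Fin d → ℝ))}

section fanOf
variable {d : ℕ} {X : Geometry.SimplicialComplex ℝ (Fin d → ℝ)}

lemma fanOf_lv : Lv (fanOf X) := by
  rintro s (rfl | ⟨t, _, hs⟩) x hx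
  · simp at hx
  · have : x ∈ (s : Set (Fin (d + 1) → ℤ)) := hx
    rw [hs] at this
    obtain ⟨y, _, rfl⟩ := this
    rfl

lemma fanOf_tl (hX : ∀ s ∈ X.faces, ∀ x ∈ s, ∀ i : Fin d, ∃ z : ℤ, x i = (z : ℝ))
    {t : Finset (Fin d → ℝ)} (ht : t ∈ X.faces) {s : Finset (Fin (d + 1) → ℤ)}
    (hs : (s : Set (Fin (d + 1) → ℤ)) = lft '' (t : Set (Fin d → ℝ))) :
    tl '' (s : Set (Fin (d + 1) → ℤ)) = (t : Set (Fin d → ℝ)) := by
  rw [hs]
  ext x
  constructor
  · rintro ⟨_, ⟨z, hz, rfl⟩, rfl⟩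
    rw [tl_lft (hX t ht z hz)]; exact hz
  · intro hx
    exact ⟨lft x, ⟨x, hx, rfl⟩, tl_lft (hX t ht x hx)⟩

/-- Linear independence of the lifted faces. -/
lemma fanOf_indep (hX : ∀ s ∈ X.faces, ∀ x ∈ s, ∀ i : Fin d, ∃ z : ℤ, x i = (z : ℝ))
    {t : Finset (Fin d → ℝ)} (ht : t ∈ X.faces) {s : Finset (Fin (d + 1) → ℤ)}
    (hs : (s : Set (Fin (d + 1) → ℤ)) = lft '' (t : Set (Fin d → ℝ)))
    (w : (Fin (d + 1) → ℤ) →₀ ℝ) (hw : w.support ⊆ s) (h0 : lc id w = 0) : w = 0 := by
  classical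
  have hAI := X.indep ht
  rw [affineIndependent_iff] at hAI
  have hinj : Set.InjOn lft (t : Set (Fin d → ℝ)) := by
    intro x hx y hy h
    rw [← tl_lft (hX t ht x hx), ← tl_lft (hX t ht y hy), h]
  have hst : s = t.image lft := by
    apply Finset.coe_injective
    rw [hs, Finset.coe_image]
  have hsum : ∀ k, ∑ x ∈ t, w (lft x) * (lft x k : ℝ) = 0 := by
    intro k
    have h1 := congrFun h0 k
    rw [lc_apply_of_subset w s hw, hst, Finset.sum_image hinj, Pi.zero_apply] at h1
    exact h1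
  have key := hAI Finset.univ (fun x => w (lft (x : Fin d → ℝ))) (by
    have := hsum 0
    simp only [lft_zero, Int.cast_one, mul_one] at this
    rw [← this, ← Finset.sum_coe_sort t]) (by
    funext j
    have := hsum j.succ
    rw [Finset.sum_apply, Pi.zero_apply, ← this, ← Finset.sum_coe_sort t]
    refine Finset.sum_congr rfl fun x _ => ?_
    rw [Pi.smul_apply, smul_eq_mul]
    congr 1
    have := congrFun (tl_lft (hX t ht x x.2)) j
    exact this.symm)
  ext z
  rw [Finsupp.zero_apply]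
  by_contra hz
  have hz' : z ∈ s := hw (Finsupp.mem_support_iff.2 hz)
  rw [hst] at hz'
  obtain ⟨x, hx, rfl⟩ := Finset.mem_image.1 hz'
  exact hz (key ⟨x, hx⟩ (Finset.mem_univ _))

lemma fanOf_isCx (hfin : X.faces.Finite)
    (hX : ∀ s ∈ X.faces, ∀ x ∈ s, ∀ i : Fin d, ∃ z : ℤ, x i = (z : ℝ)) : IsCx id (fanOf X) := by
  classical
  refine ⟨?_, ?_, ?_⟩
  · refine ((hfin.image (fun t => t.image lft)).insert ∅).subset ?_
    rintro s (rfl | ⟨t, ht, hs⟩)
    · exact Set.mem_insert _ _
    · refine Set.mem_insert_of_mem _ ⟨t, ht, ?_⟩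
      apply Finset.coe_injective
      simp only [Finset.coe_image]
      exact hs.symm
  · rintro s (rfl | ⟨t, ht, hs⟩) u hu
    · left; exact Finset.subset_empty.1 hu
    · rcases u.eq_empty_or_nonempty with h | h
      · left; exact h
      · right
        have hu2 : (u : Set (Fin (d + 1) → ℤ)) = lft '' ((t.filter (fun x => lft x ∈ u) :
            Finset (Fin d → ℝ)) : Set (Fin d → ℝ)) := by
          ext y
          constructor
          · intro hy
            have h1 : y ∈ (s : Set (Fin (d + 1) → ℤ)) := hu hy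
            rw [hs] at h1
            obtain ⟨x, hx, rfl⟩ := h1
            exact ⟨x, by rw [Finset.coe_filter]; exact ⟨hx, hy⟩, rfl⟩
          · rintro ⟨x, hx, rfl⟩
            rw [Finset.coe_filter] at hx
            exact hx.2
        refine ⟨t.filter (fun x => lft x ∈ u), ?_, hu2⟩
        refine X.down_closed ht (Finset.filter_subset _ _) ?_
        obtain ⟨y, hy⟩ := h
        have h1 : y ∈ (u : Set (Fin (d + 1) → ℤ)) := hy
        rw [hu2] at h1
        obtain ⟨x, hx, _⟩ := h1
        exact ⟨x, hx⟩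
  · -- injectivity
    have hform : ∀ w ∈ body (fanOf X), w ≠ 0 → 0 < lc id w 0 ∧
        ∃ t ∈ X.faces, (w.support : Set (Fin (d + 1) → ℤ)) = lft '' (t : Set (Fin d → ℝ)) := by
      intro w hw hne
      have hsne : w.support ≠ ∅ := by rwa [Ne, Finsupp.support_eq_empty]
      obtain ⟨y, hy⟩ := Finset.nonempty_iff_ne_empty.2 hsne
      refine ⟨?_, ?_⟩
      · rw [lc_apply_of_subset w w.support (Finset.Subset.refl _)]
        refine Finset.sum_pos' (fun x hx => ?_) ⟨y, hy, ?_⟩
        · have : (id x : Fin (d + 1) → ℤ) 0 = 1 := fanOf_lv _ hw.2 x hx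
          rw [this]; simpa using hw.1 x
        · have : (id y : Fin (d + 1) → ℤ) 0 = 1 := fanOf_lv _ hw.2 y hy
          rw [this]
          have h1 : 0 < w y := lt_of_le_of_ne (hw.1 y) (Ne.symm (Finsupp.mem_support_iff.1 hy))
          simpa using h1
      · rcases hw.2 with h | h
        · exact absurd h hsne
        · exact h
    intro w hw w' hw' heq
    by_cases h0 : w = 0
    · by_contra hcon
      have h1 : w' ≠ 0 := fun h => hcon (by rw [h0, h])
      have h2 := (hform w' hw' h1).1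
      have heq2 : lc id w = lc id w' := heq
      rw [← heq2, h0, map_zero] at h2
      exact lt_irrefl _ h2
    · obtain ⟨hp, t, ht, hts⟩ := hform w hw h0
      have heq2 : lc id w = lc id w' := heq
      have h0' : w' ≠ 0 := by
        intro h
        rw [heq2, h, map_zero] at hp
        exact lt_irrefl _ hp
      obtain ⟨hp', t', ht', hts'⟩ := hform w' hw' h0'
      set T : ℝ := lc id w 0 with hT
      let x : Fin d → ℝ := fun j => T⁻¹ * lc id w j.succ
      have hx1 : lc id (T⁻¹ • w) = (Fin.cons 1 x : Fin (d + 1) → ℝ) := by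
        rw [map_smul]
        funext k
        refine Fin.cases ?_ (fun j => ?_) k
        · rw [Pi.smul_apply, smul_eq_mul, ← hT, inv_mul_cancel₀ hp.ne']; rfl
        · rfl
      have hx2 : lc id (T⁻¹ • w') = (Fin.cons 1 x : Fin (d + 1) → ℝ) := by
        rw [map_smul, ← heq2, ← map_smul, hx1]
      have hTi : 0 ≤ T⁻¹ := by positivity
      have hc1 : x ∈ convexHull ℝ (t : Set (Fin d → ℝ)) := by
        rw [← fanOf_tl hX ht hts]
        refine (hull_iff (fanOf_lv _ hw.2) x).2 ⟨T⁻¹ • w, ?_, Finsupp.support_smul, hx1⟩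
        intro y; rw [Finsupp.smul_apply]; exact mul_nonneg hTi (hw.1 y)
      have hc2 : x ∈ convexHull ℝ (t' : Set (Fin d → ℝ)) := by
        rw [← fanOf_tl hX ht' hts']
        refine (hull_iff (fanOf_lv _ hw'.2) x).2 ⟨T⁻¹ • w', ?_, Finsupp.support_smul, hx2⟩
        intro y; rw [Finsupp.smul_apply]; exact mul_nonneg hTi (hw'.1 y)
      have hc := X.inter_subset_convexHull ht ht' ⟨hc1, hc2⟩
      let u : Finset (Fin d → ℝ) := t ∩ t'
      have hu1 : tl '' ((u.image lft : Finset (Fin (d + 1) → ℤ)) : Set (Fin (d + 1) → ℤ)) =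
          (t : Set (Fin d → ℝ)) ∩ t' := by
        rw [Finset.coe_image, Finset.coe_inter]
        ext y
        constructor
        · rintro ⟨_, ⟨z, hz, rfl⟩, rfl⟩
          rw [tl_lft (hX t ht z hz.1)]; exact hz
        · intro hy
          exact ⟨lft y, ⟨y, hy, rfl⟩, tl_lft (hX t ht y hy.1)⟩
      rw [← hu1] at hc
      obtain ⟨a, ha0, has, hax⟩ := (hull_iff (s := u.image lft) (by
        intro y hy
        obtain ⟨z, _, rfl⟩ := Finset.mem_image.1 hy
        rfl) x).1 hc
      have hut : u.image lft ⊆ w.support := by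
        intro y hy
        obtain ⟨z, hz, rfl⟩ := Finset.mem_image.1 hy
        have : lft z ∈ (w.support : Set (Fin (d + 1) → ℤ)) := by
          rw [hts]; exact ⟨z, (Finset.mem_inter.1 hz).1, rfl⟩
        exact this
      have hut' : u.image lft ⊆ w'.support := by
        intro y hy
        obtain ⟨z, hz, rfl⟩ := Finset.mem_image.1 hy
        have : lft z ∈ (w'.support : Set (Fin (d + 1) → ℤ)) := by
          rw [hts']; exact ⟨z, (Finset.mem_inter.1 hz).2, rfl⟩
        exact this
      have e1 : T⁻¹ • w = a := by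
        have := fanOf_indep hX ht hts (T⁻¹ • w - a)
          (supp_sub_subset _ _ _ Finsupp.support_smul (has.trans hut))
          (by rw [map_sub, hx1, hax, sub_self])
        exact sub_eq_zero.1 this
      have e2 : T⁻¹ • w' = a := by
        have := fanOf_indep hX ht' hts' (T⁻¹ • w' - a)
          (supp_sub_subset _ _ _ Finsupp.support_smul (has.trans hut'))
          (by rw [map_sub, hx2, hax, sub_self])
        exact sub_eq_zero.1 this
      have e3 : T⁻¹ • w = T⁻¹ • w' := by rw [e1, e2]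
      exact smul_right_injective _ (inv_ne_zero hp.ne') e3

lemma fanOf_sec (hX : ∀ s ∈ X.faces, ∀ x ∈ s, ∀ i : Fin d, ∃ z : ℤ, x i = (z : ℝ)) :
    sec (fanOf X) = X.space := by
  classical
  ext x
  rw [Geometry.SimplicialComplex.mem_space_iff]
  constructor
  · rintro ⟨a, ha, hax⟩
    have hne : a.support ≠ ∅ := by
      intro h
      rw [Finsupp.support_eq_empty] at h
      rw [h, map_zero] at hax
      have := congrFun hax 0
      rw [Fin.cons_zero] at this
      exact zero_ne_one this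
    rcases ha.2 with h | ⟨t, ht, hts⟩
    · exact absurd h hne
    · refine ⟨t, ht, ?_⟩
      rw [← fanOf_tl hX ht hts]
      exact (hull_iff (fanOf_lv _ ha.2) x).2 ⟨a, ha.1, Finset.Subset.refl _, hax⟩
  · rintro ⟨t, ht, hx⟩
    have hs : ((t.image lft : Finset (Fin (d + 1) → ℤ)) : Set (Fin (d + 1) → ℤ)) =
        lft '' (t : Set (Fin d → ℝ)) := by rw [Finset.coe_image]
    rw [← fanOf_tl hX ht hs] at hx
    obtain ⟨a, ha0, has, hax⟩ := (hull_iff (s := t.image lft) (by
      intro y hy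
      obtain ⟨z, _, rfl⟩ := Finset.mem_image.1 hy
      rfl) x).1 hx
    have hmem : t.image lft ∈ fanOf X := Or.inr ⟨t, ht, hs⟩
    have hdown : a.support ∈ fanOf X := by
      rcases a.support.eq_empty_or_nonempty with h | h
      · left; exact h
      · right
        have hu2 : (a.support : Set (Fin (d + 1) → ℤ)) =
            lft '' ((t.filter (fun x => lft x ∈ a.support) :
            Finset (Fin d → ℝ)) : Set (Fin d → ℝ)) := by
          ext y
          constructor
          · intro hy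
            obtain ⟨x, hx, rfl⟩ := Finset.mem_image.1 (has hy)
            exact ⟨x, by rw [Finset.coe_filter]; exact ⟨hx, hy⟩, rfl⟩
          · rintro ⟨x, hx, rfl⟩
            rw [Finset.coe_filter] at hx
            exact hx.2
        refine ⟨t.filter (fun x => lft x ∈ a.support), ?_, hu2⟩
        refine X.down_closed ht (Finset.filter_subset _ _) ?_
        obtain ⟨y, hy⟩ := h
        have h1 : y ∈ (a.support : Set (Fin (d + 1) → ℤ)) := hy
        rw [hu2] at h1
        obtain ⟨x, hx, _⟩ := h1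
        exact ⟨x, hx⟩
    exact ⟨a, ⟨ha0, hdown⟩, hax⟩

lemma fanOf_MB (hX : ∀ s ∈ X.faces, ∀ x ∈ s, ∀ i : Fin d, ∃ z : ℤ, x i = (z : ℝ)) {v : ℕ}
    (hvol : ∀ s ∈ X.faces, s.card = d + 1 →
      volume (convexHull ℝ (s : Set (Fin d → ℝ))) ≤ (v : ENNReal) / (d.factorial : ENNReal)) :
    MB (fanOf X) (v : ℝ) := by
  classical
  intro s hs f hf
  by_cases hinj : Function.Injective f
  · rcases hs with rfl | ⟨t, ht, hts⟩
    · exact absurd (hf 0) (by simp)
    · have hf1 : ∀ k, f k 0 = 1 := fun k => fanOf_lv s (Or.inr ⟨t, ht, hts⟩) _ (hf k)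
      have htl : tl '' (s : Set (Fin (d + 1) → ℤ)) = (t : Set (Fin d → ℝ)) := fanOf_tl hX ht hts
      have hcard1 : d + 1 ≤ s.card := by
        have : (Finset.univ.image f).card ≤ s.card := Finset.card_le_card (by
          intro y hy
          obtain ⟨k, _, rfl⟩ := Finset.mem_image.1 hy
          exact hf k)
        rwa [Finset.card_image_of_injective _ hinj, Finset.card_univ, Fintype.card_fin] at this
      have hst : s = t.image lft := by
        apply Finset.coe_injective
        rw [hts, Finset.coe_image]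
      have hcard2 : s.card ≤ t.card := by rw [hst]; exact Finset.card_image_le
      have hcard3 : t.card ≤ d + 1 := by
        have h1 := (X.indep ht).card_le_finrank_succ
        rw [Fintype.card_coe] at h1
        refine h1.trans ?_
        have h2 := Submodule.finrank_le (vectorSpan ℝ (Set.range ((↑) : t → (Fin d → ℝ))))
        rw [Module.finrank_fin_fun] at h2
        omega
      have hcard : t.card = d + 1 := by omega
      have hscard : s.card = d + 1 := by omega
      have himg : Finset.univ.image f = s := by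
        refine Finset.eq_of_subset_of_card_le ?_ ?_
        · intro y hy
          obtain ⟨k, _, rfl⟩ := Finset.mem_image.1 hy
          exact hf k
        · rw [Finset.card_image_of_injective _ hinj, Finset.card_univ, Fintype.card_fin, hscard]
      have h1 := vol_level f hf1
      have hrange : Set.range (fun k => tl (f k)) = (t : Set (Fin d → ℝ)) := by
        rw [← htl, ← himg, Finset.coe_image, Finset.coe_univ, Set.image_univ, ← Set.range_comp]
        rfl
      rw [hrange] at h1
      have h3 := hvol t ht hcard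
      rw [h1] at h3
      have hfac : (0:ℝ) < (d.factorial : ℝ) := by positivity
      have h4 : (v : ENNReal) / (d.factorial : ENNReal) = ENNReal.ofReal ((v : ℝ) / d.factorial) := by
        rw [ENNReal.ofReal_div_of_pos hfac, ENNReal.ofReal_natCast, ENNReal.ofReal_natCast]
      rw [h4, ENNReal.ofReal_le_ofReal_iff (by positivity)] at h3
      exact (div_le_div_iff_of_pos_right hfac).1 h3
  · rw [dt_eq_zero hinj]
    simp

end fanOf

/-- The theorem for complexes. -/
lemma main_complex {d J : ℕ} (hJ : RoundProp d J) (v : ℕ)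
    (X : Geometry.SimplicialComplex ℝ (Fin d → ℝ)) (hfin : X.faces.Finite)
    (hX : ∀ s ∈ X.faces, ∀ x ∈ s, ∀ i : Fin d, ∃ z : ℤ, x i = (z : ℝ))
    (hvol : ∀ s ∈ X.faces, s.card = d + 1 →
      volume (convexHull ℝ (s : Set (Fin d → ℝ))) ≤ (v : ENNReal) / (d.factorial : ENNReal)) :
    ∃ K : Geometry.SimplicialComplex ℝ (Fin d → ℝ), K.faces.Finite ∧
      K.space = ((J ^ (2 * (d + 1) * Nat.clog 2 v) : ℕ) : ℝ) • X.space ∧
      (∀ s ∈ K.faces, ∀ x ∈ s, ∀ i : Fin d, ∃ z : ℤ, x i = (z : ℝ)) ∧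
      (∀ s ∈ K.faces, s.card = d + 1 →
        volume (convexHull ℝ (s : Set (Fin d → ℝ))) = ((d.factorial : ENNReal))⁻¹) := by
  have h := main_fan hJ v (fanOf_isCx hfin hX) fanOf_lv (fanOf_MB hX hvol)
  rw [fanOf_sec hX] at h
  exact h

end H79KMW
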