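import Pool.Agent.Work.MP_6237c7_co.LV.Cells

set_option autoImplicit false

namespace H79KMW

open Finsupp
open scoped Pointwise

section transport
variable {d : ℕ}

/-- The block matrix with a one in the corner. -/
def blk (U : Matrix (Fin d) (Fin d) ℤ) : Matrix (Fin (d + 1)) (Fin (d + 1)) ℤ :=
  Matrix.of fun i j => (Fin.cases (Fin.cases 1 (fun _ => 0) j)
    (fun i' => Fin.cases 0 (fun j' => U i' j') j) i : ℤ)

lemma blk_mul (U U' : Matrix (Fin d) (Fin d) ℤ) : blk U * blk U' = blk (U * U') := by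
  ext i j
  rw [Matrix.mul_apply, Fin.sum_univ_succ]
  refine Fin.cases ?_ (fun i => ?_) i <;> refine Fin.cases ?_ (fun j => ?_) j
  · simp [blk]
  · simp [blk]
  · simp [blk]
  · simp [blk, Matrix.mul_apply]

lemma blk_one : blk (1 : Matrix (Fin d) (Fin d) ℤ) = 1 := by
  ext i j
  refine Fin.cases ?_ (fun i => ?_) i <;> refine Fin.cases ?_ (fun j => ?_) j
  · simp [blk]
  · rw [Matrix.one_apply_ne (Fin.succ_ne_zero j).symm]; simp [blk]
  · rw [Matrix.one_apply_ne (Fin.succ_ne_zero i)]; simp [blk]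
  · by_cases h : i = j
    · subst h; simp [blk]
    · rw [Matrix.one_apply_ne (fun h' => h (Fin.succ_injective _ h'))]
      simp [blk, Matrix.one_apply_ne h]

/-- The label map of an integer matrix. -/
def lm (U : Matrix (Fin d) (Fin d) ℤ) (x : Fin (d + 1) → ℤ) : Fin (d + 1) → ℤ :=
  (blk U).mulVec x

/-- The real linear map of an integer matrix. -/
def rm (U : Matrix (Fin d) (Fin d) ℤ) (x : Fin d → ℝ) : Fin d → ℝ :=
  fun i => ∑ j, (U i j : ℝ) * x j

lemma lm_zero (U : Matrix (Fin d) (Fin d) ℤ) (x : Fin (d + 1) → ℤ) : lm U x 0 = x 0 := by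
  rw [lm, Matrix.mulVec, dotProduct, Fin.sum_univ_succ]
  simp [blk]

lemma lm_succ (U : Matrix (Fin d) (Fin d) ℤ) (x : Fin (d + 1) → ℤ) (i : Fin d) :
    lm U x i.succ = ∑ j, U i j * x j.succ := by
  rw [lm, Matrix.mulVec, dotProduct, Fin.sum_univ_succ]
  simp [blk]

lemma lc_lm_zero (U : Matrix (Fin d) (Fin d) ℤ) (w : (Fin (d + 1) → ℤ) →₀ ℝ) :
    lc (lm U) w 0 = lc id w 0 := by
  rw [lc_apply_of_subset w w.support (Finset.Subset.refl _),
    lc_apply_of_subset w w.support (Finset.Subset.refl _)]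
  refine Finset.sum_congr rfl fun x _ => ?_
  rw [lm_zero]; rfl

lemma lc_lm_succ (U : Matrix (Fin d) (Fin d) ℤ) (w : (Fin (d + 1) → ℤ) →₀ ℝ) (i : Fin d) :
    lc (lm U) w i.succ = rm U (fun j => lc id w j.succ) i := by
  show _ = ∑ j, (U i j : ℝ) * lc id w j.succ
  rw [lc_apply_of_subset w w.support (Finset.Subset.refl _)]
  have h : ∀ j : Fin d, lc id w j.succ = ∑ x ∈ w.support, w x * (x j.succ : ℝ) := fun j =>
    lc_apply_of_subset w w.support (Finset.Subset.refl _) j.succ
  simp only [h, Finset.mul_sum]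
  rw [Finset.sum_comm]
  refine Finset.sum_congr rfl fun x _ => ?_
  rw [lm_succ]
  push_cast
  rw [Finset.mul_sum]
  exact Finset.sum_congr rfl fun j _ => by ring

lemma rm_rm (U U' : Matrix (Fin d) (Fin d) ℤ) (h : U * U' = 1) (x : Fin d → ℝ) :
    rm U (rm U' x) = x := by
  funext i
  show ∑ j, (U i j : ℝ) * (∑ k, (U' j k : ℝ) * x k) = x i
  simp only [Finset.mul_sum]
  rw [Finset.sum_comm]
  have h1 : ∀ k, ∑ j, (U i j : ℝ) * ((U' j k : ℝ) * x k) =
      (((U * U') i k : ℤ) : ℝ) * x k := by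
    intro k
    rw [Matrix.mul_apply]
    push_cast
    rw [Finset.sum_mul]
    exact Finset.sum_congr rfl fun j _ => by ring
  simp only [h1, h]
  rw [Finset.sum_eq_single i]
  · rw [Matrix.one_apply_eq]; simp
  · intro k _ hk
    rw [Matrix.one_apply_ne hk.symm]; simp
  · intro hh; exact absurd (Finset.mem_univ _) hh

lemma rm_smul (U : Matrix (Fin d) (Fin d) ℤ) (c : ℝ) (x : Fin d → ℝ) :
    rm U (c • x) = c • rm U x := by
  funext i
  show ∑ j, (U i j : ℝ) * (c * x j) = c * ∑ j, (U i j : ℝ) * x j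
  rw [Finset.mul_sum]
  exact Finset.sum_congr rfl fun j _ => by ring

/-- Unimodular transport of a fan. -/
lemma transport (U U' : Matrix (Fin d) (Fin d) ℤ) (h : U * U' = 1)
    {C : Set (Finset (Fin (d + 1) → ℤ))} (hC : IsCx id C) (hlv : Lv C) {V : ℝ} (hMB : MB C V) :
    ∃ C' : Set (Finset (Fin (d + 1) → ℤ)), IsCx id C' ∧ Lv C' ∧ MB C' V ∧
      ∀ x, x ∈ sec C' ↔ rm U' x ∈ sec C := by
  classical
  have h' : U' * U = 1 := mul_eq_one_comm.1 h
  have hCx : IsCx (lm U) C := by
    refine ⟨hC.fin, hC.down, ?_⟩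
    intro w hw w' hw' heq
    refine hC.inj hw hw' ?_
    funext k
    refine Fin.cases ?_ (fun i => ?_) k
    · rw [← lc_lm_zero U, ← lc_lm_zero U]
      exact congrFun heq 0
    · have h1 : rm U (fun j => lc id w j.succ) = rm U (fun j => lc id w' j.succ) := by
        funext i
        rw [← lc_lm_succ, ← lc_lm_succ]
        exact congrFun heq i.succ
      have h2 := congrArg (rm U') h1
      rw [rm_rm U' U h', rm_rm U' U h'] at h2
      exact congrFun h2 i
  have hdet : |(blk U).det| = 1 := by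
    have h1 : blk U * blk U' = 1 := by rw [blk_mul, h, blk_one]
    have h2 : (blk U).det * (blk U').det = 1 := by rw [← Matrix.det_mul, h1, Matrix.det_one]
    exact Int.isUnit_iff_abs_eq.1 (IsUnit.of_mul_eq_one _ h2)
  refine ⟨push (lm U) C, push_isCx hCx, ?_, ?_, ?_⟩
  · rintro s ⟨F, hF, hs⟩ x hx
    have : x ∈ (s : Set (Fin (d + 1) → ℤ)) := hx
    rw [hs] at this
    obtain ⟨z, hz, rfl⟩ := this
    rw [lm_zero]
    exact hlv F hF z hz
  · rintro s ⟨F, hF, hs⟩ f hf
    have hf' : ∀ k, ∃ z ∈ F, f k = lm U z := by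
      intro k
      have h1 : f k ∈ (s : Set (Fin (d + 1) → ℤ)) := hf k
      rw [hs] at h1
      obtain ⟨z, hz, hzf⟩ := h1
      exact ⟨z, hz, hzf.symm⟩
    choose g hgF hgf using hf'
    have h1 : Matrix.of f = Matrix.of g * (blk U).transpose := by
      ext i j
      rw [Matrix.mul_apply]
      show f i j = ∑ k, g i k * (blk U) j k
      rw [hgf i]
      show (blk U).mulVec (g i) j = _
      rw [Matrix.mulVec, dotProduct]
      exact Finset.sum_congr rfl fun k _ => mul_comm _ _
    have h2 : |dt f| = |dt g| := by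
      show |(Matrix.of f).det| = |(Matrix.of g).det|
      rw [h1, Matrix.det_mul, Matrix.det_transpose, abs_mul, hdet, mul_one]
    have h3 : |(dt f : ℝ)| = |(dt g : ℝ)| := by
      rw [← Int.cast_abs, ← Int.cast_abs, h2]
    rw [h3]
    exact hMB F hF g hgF
  · intro x
    show (Fin.cons 1 x : Fin (d + 1) → ℝ) ∈ supp id (push (lm U) C) ↔
      (Fin.cons 1 (rm U' x) : Fin (d + 1) → ℝ) ∈ supp id C
    rw [supp_push hCx]
    constructor
    · rintro ⟨w, hw, hwx⟩
      refine ⟨w, hw, ?_⟩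
      funext k
      refine Fin.cases ?_ (fun i => ?_) k
      · rw [← lc_lm_zero U, hwx]; rfl
      · have h1 : rm U (fun j => lc id w j.succ) = x := by
          funext i
          rw [← lc_lm_succ, hwx]; rfl
        rw [Fin.cons_succ, ← h1, rm_rm U' U h']
    · rintro ⟨w, hw, hwx⟩
      refine ⟨w, hw, ?_⟩
      funext k
      refine Fin.cases ?_ (fun i => ?_) k
      · rw [lc_lm_zero U, hwx]; rfl
      · rw [lc_lm_succ, hwx]
        simp only [Fin.cons_succ]
        rw [rm_rm U U' h]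

end transport

section reps

/-- The column lattice modulo an integer. -/
def cls {d : ℕ} (N : ℕ) (B : Matrix (Fin d) (Fin d) ℤ) : Set (Fin d → ZMod N) :=
  {y | ∃ x : Fin d → ℤ, y = fun i => ((B.mulVec x i : ℤ) : ZMod N)}

lemma cls_le {d : ℕ} {N : ℕ} {B B0 : Matrix (Fin d) (Fin d) ℤ} (hdvd : B.det ∣ (N : ℤ))
    (h : cls N B0 ⊆ cls N B) : ∃ U : Matrix (Fin d) (Fin d) ℤ, B * U = B0 := by
  classical
  have key : ∀ x : Fin d → ℤ, ∃ x' : Fin d → ℤ, B.mulVec x' = B0.mulVec x := by
    intro x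
    obtain ⟨x1, hx1⟩ := h ⟨x, rfl⟩
    obtain ⟨c, hc⟩ := hdvd
    have hz : ∀ i, ∃ z : ℤ, B0.mulVec x i - B.mulVec x1 i = N * z := by
      intro i
      have h1 := congrFun hx1 i
      have h1' : ((B0.mulVec x i : ℤ) : ZMod N) = ((B.mulVec x1 i : ℤ) : ZMod N) := h1
      rw [eq_comm, ZMod.intCast_eq_intCast_iff_dvd_sub] at h1'
      obtain ⟨z, hz⟩ := h1'
      exact ⟨z, hz⟩
    choose z hz using hz
    refine ⟨x1 + B.adjugate.mulVec (c • z), ?_⟩
    rw [Matrix.mulVec_add, Matrix.mulVec_mulVec, Matrix.mul_adjugate, Matrix.smul_mulVec,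
      Matrix.one_mulVec]
    funext i
    have := hz i
    rw [hc] at this
    simp only [Pi.add_apply, Pi.smul_apply, smul_eq_mul]
    linarith
  choose u hu using key
  refine ⟨Matrix.of fun i j => u (Pi.single j 1) i, ?_⟩
  ext i j
  have h1 := congrFun (hu (Pi.single j 1)) i
  rw [Matrix.mulVec_single_one] at h1
  rw [Matrix.mul_apply]
  have h2 : B.mulVec (u (Pi.single j 1)) i = ∑ k, B i k * u (Pi.single j 1) k := rfl
  rw [h2] at h1
  exact h1

/-- Bounded representatives modulo unimodular column operations. -/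
lemma exists_bdd_rep (d Δ : ℕ) : ∃ M : ℕ, ∀ B : Matrix (Fin d) (Fin d) ℤ, B.det ≠ 0 →
    |B.det| ≤ (Δ : ℤ) → ∃ U U' : Matrix (Fin d) (Fin d) ℤ, U * U' = 1 ∧
      ∀ i j, |(B * U) i j| ≤ (M : ℤ) := by
  classical
  let N : ℕ := Δ.factorial
  have : NeZero N := ⟨Nat.factorial_ne_zero Δ⟩
  let Good : Matrix (Fin d) (Fin d) ℤ → Prop := fun B => B.det ≠ 0 ∧ |B.det| ≤ (Δ : ℤ)
  have hdvd : ∀ B, Good B → B.det ∣ (N : ℤ) := by
    intro B hB
    have h1 : B.det.natAbs ∣ N := by
      refine Nat.dvd_factorial (Int.natAbs_pos.2 hB.1) ?_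
      have := hB.2
      rw [Int.abs_eq_natAbs] at this
      exact_mod_cast this
    exact Int.natAbs_dvd.1 (Int.natCast_dvd_natCast.2 h1)
  let rep : Set (Fin d → ZMod N) → Matrix (Fin d) (Fin d) ℤ := fun c =>
    if h : ∃ B, Good B ∧ cls N B = c then Classical.choose h else 0
  have hrep : ∀ B, Good B → Good (rep (cls N B)) ∧ cls N (rep (cls N B)) = cls N B := by
    intro B hB
    have h : ∃ B', Good B' ∧ cls N B' = cls N B := ⟨B, hB, rfl⟩
    have h1 : rep (cls N B) = Classical.choose h := dif_pos h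
    rw [h1]
    exact Classical.choose_spec h
  obtain ⟨M, hM⟩ := (Set.finite_range (fun p : (Set (Fin d → ZMod N)) × Fin d × Fin d =>
    (rep p.1 p.2.1 p.2.2).natAbs)).bddAbove
  refine ⟨M, fun B hB1 hB2 => ?_⟩
  have hB : Good B := ⟨hB1, hB2⟩
  obtain ⟨h0, hcl⟩ := hrep B hB
  obtain ⟨U, hU⟩ := cls_le (hdvd B hB) hcl.le
  obtain ⟨U', hU'⟩ := cls_le (hdvd _ h0) hcl.ge
  refine ⟨U, U', ?_, ?_⟩
  · have h1 : B * (U * U' - 1) = 0 := by
      rw [Matrix.mul_sub, ← Matrix.mul_assoc, hU, hU', Matrix.mul_one, sub_self]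
    have h2 : B.adjugate * (B * (U * U' - 1)) = 0 := by rw [h1, Matrix.mul_zero]
    rw [← Matrix.mul_assoc, Matrix.adjugate_mul, Matrix.smul_mul, Matrix.one_mul] at h2
    rcases smul_eq_zero.1 h2 with h3 | h3
    · exact absurd h3 hB1
    · exact sub_eq_zero.1 h3
  · intro i j
    rw [hU]
    have h1 : (rep (cls N B) i j).natAbs ≤ M := hM ⟨(cls N B, i, j), rfl⟩
    have h2 : |rep (cls N B) i j| = ((rep (cls N B) i j).natAbs : ℤ) := Int.abs_eq_natAbs _
    rw [h2]
    exact_mod_cast h1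

/-- Cramer bound for the other rows. -/
lemma row_bound {d m : ℕ} {Δ M : ℕ} (A : Matrix (Fin m) (Fin d) ℤ)
    (hA : ∀ f : Fin d → Fin m, |(A.submatrix f id).det| ≤ (Δ : ℤ)) (f : Fin d → Fin m)
    (hf : (A.submatrix f id).det ≠ 0) (U : Matrix (Fin d) (Fin d) ℤ)
    (hU : ∀ i j, |(A.submatrix f id * U) i j| ≤ (M : ℤ)) (i : Fin m) (j : Fin d) :
    |(A * U) i j| ≤ ((d * Δ * M : ℕ) : ℤ) := by
  classical
  set B := A.submatrix f id with hB
  let c : Fin d → ℤ := Matrix.cramer B.transpose (A i)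
  have hc : ∀ k, |c k| ≤ (Δ : ℤ) := by
    intro k
    show |Matrix.cramer B.transpose (A i) k| ≤ _
    rw [Matrix.cramer_transpose_apply]
    have h1 : B.updateRow k (A i) = A.submatrix (Function.update f k i) id := by
      ext r s
      by_cases hr : r = k
      · subst hr
        rw [Matrix.updateRow_self, Matrix.submatrix_apply, Function.update_self]; rfl
      · rw [Matrix.updateRow_ne hr, Matrix.submatrix_apply, Function.update_of_ne hr]; rfl
    rw [h1]
    exact hA _
  have h1 := Matrix.mulVec_cramer B.transpose (A i)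
  rw [Matrix.det_transpose] at h1
  have h2 : B.det * (A * U) i j = ∑ k, c k * (B * U) k j := by
    have h3 : ∀ l, B.det * A i l = ∑ k, B k l * c k := by
      intro l
      have := congrFun h1 l
      simp only [Matrix.mulVec, dotProduct, Matrix.transpose_apply, Pi.smul_apply,
        smul_eq_mul] at this
      exact this.symm
    rw [Matrix.mul_apply, Finset.mul_sum]
    have h4 : ∀ l, B.det * (A i l * U l j) = ∑ k, c k * (B k l * U l j) := by
      intro l
      rw [← mul_assoc, h3 l, Finset.sum_mul]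
      exact Finset.sum_congr rfl fun k _ => by ring
    simp only [h4]
    rw [Finset.sum_comm]
    refine Finset.sum_congr rfl fun k _ => ?_
    rw [Matrix.mul_apply, Finset.mul_sum]
  have h5 : |B.det * (A * U) i j| ≤ ((d * Δ * M : ℕ) : ℤ) := by
    rw [h2]
    refine (Finset.abs_sum_le_sum_abs _ _).trans ?_
    have h6 : ∀ k ∈ (Finset.univ : Finset (Fin d)), |c k * (B * U) k j| ≤ (Δ : ℤ) * M := by
      intro k _
      rw [abs_mul]
      exact mul_le_mul (hc k) (hU k j) (abs_nonneg _) (Int.natCast_nonneg _)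
    refine (Finset.sum_le_card_nsmul _ _ _ h6).trans ?_
    rw [Finset.card_univ, Fintype.card_fin, nsmul_eq_mul]
    push_cast
    exact le_of_eq (by ring)
  rw [abs_mul] at h5
  have h7 : 1 ≤ |B.det| := Int.one_le_abs hf
  have h8 := abs_nonneg ((A * U) i j)
  nlinarith

/-- Nonsingular rows of a bounded polyhedron. -/
lemma exists_rows {d m : ℕ} (A : Matrix (Fin m) (Fin d) ℤ)
    (hinj : ∀ x : Fin d → ℝ, (∀ j, ap (A j) x = 0) → x = 0) :
    ∃ f : Fin d → Fin m, (A.submatrix f id).det ≠ 0 := by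
  classical
  let v : Fin m → (Fin d → ℝ) := fun j k => (A j k : ℝ)
  have hspan : Submodule.span ℝ (Set.range v) = ⊤ := by
    by_contra hne
    obtain ⟨g, hg0, hg⟩ := Submodule.exists_le_ker_of_lt_top _ (lt_top_iff_ne_top.2 hne)
    apply hg0
    have hgform : ∀ y : Fin d → ℝ, g y = ∑ k, y k * g (Pi.single k 1) := by
      intro y
      conv_lhs => rw [pi_eq_sum_univ' y]
      rw [map_sum]
      refine Finset.sum_congr rfl fun k _ => ?_
      rw [map_smul, smul_eq_mul]
    have hz := hinj (fun k => g (Pi.single k 1)) (by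
      intro j
      have h1 : v j ∈ Submodule.span ℝ (Set.range v) := Submodule.subset_span ⟨j, rfl⟩
      have h2 := hg h1
      rw [LinearMap.mem_ker, hgform] at h2
      exact h2)
    ext k
    have := congrFun hz k
    simpa using this
  obtain ⟨κ, e, hinj_e, hsp, hli⟩ := exists_linearIndependent' ℝ v
  have : Finite κ := Finite.of_injective e hinj_e
  have : Fintype κ := Fintype.ofFinite κ
  let bs := Module.Basis.mk hli (by rw [hsp, hspan])
  have hcard : Fintype.card κ = d := by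
    have h1 := Module.finrank_eq_card_basis bs
    rw [Module.finrank_fin_fun] at h1
    exact h1.symm
  let ee : Fin d ≃ κ := (Fintype.equivFinOfCardEq hcard).symm
  refine ⟨fun i => e (ee i), ?_⟩
  have hli2 : LinearIndependent ℝ (fun i => v (e (ee i))) := hli.comp ee ee.injective
  have hunit : IsUnit ((A.submatrix (fun i => e (ee i)) id).map (Int.castRingHom ℝ)) := by
    rw [← Matrix.linearIndependent_rows_iff_isUnit]
    exact hli2
  intro h0
  rw [Matrix.isUnit_iff_isUnit_det, isUnit_iff_ne_zero] at hunit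
  apply hunit
  have h1 := RingHom.map_det (Int.castRingHom ℝ) (A.submatrix (fun i => e (ee i)) id)
  rw [RingHom.mapMatrix_apply] at h1
  rw [← h1, h0, map_zero]

end reps

end H79KMW
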