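import Pool.Agent.Work.MP_6237c7_co.LV.Final

set_option autoImplicit false
open scoped Pointwise

namespace H79KMW.BoundedMinorsOld

/-- For every dimension `d` and every `Δ` there is a single factor `k` such that for every
full-dimensional polytope `P = {x | A x ≤ b}` with integer `A`, `b` all of whose maximal minors
are at most `Δ` in absolute value, `kP` has a unimodular triangulation. -/
theorem result :
    ∀ d Δ : ℕ, ∃ k : ℕ, 0 < k ∧
      ∀ (m : ℕ) (A : Matrix (Fin m) (Fin d) ℤ) (b : Fin m → ℤ),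
        (∀ f : Fin d → Fin m, |(A.submatrix f id).det| ≤ (Δ : ℤ)) →
        Bornology.IsBounded {x : Fin d → ℝ | ∀ j, ∑ i, (A j i : ℝ) * x i ≤ (b j : ℝ)} →
        (interior {x : Fin d → ℝ | ∀ j, ∑ i, (A j i : ℝ) * x i ≤ (b j : ℝ)}).Nonempty →
        ∃ K : Geometry.SimplicialComplex ℝ (Fin d → ℝ),
          K.faces.Finite ∧
          K.space = (k : ℝ) • {x : Fin d → ℝ | ∀ j, ∑ i, (A j i : ℝ) * x i ≤ (b j : ℝ)} ∧
          (∀ s ∈ K.faces, ∀ x ∈ s, ∀ i : Fin d, ∃ z : ℤ, x i = (z : ℝ)) ∧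
          (∀ s ∈ K.faces, s.card = d + 1 →
            MeasureTheory.volume (convexHull ℝ (s : Set (Fin d → ℝ))) =
              ((d.factorial : ENNReal))⁻¹) := by
  intro d Δ
  obtain ⟨k, hk, h⟩ := H79KMW.modular d Δ
  exact ⟨k, hk, fun m A b hA hbd hint => h m A b hA hbd (hint.mono interior_subset)⟩

end H79KMW.BoundedMinorsOld
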