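import Pool.Agent.Work.MP_6237c7_co.Fin2

set_option autoImplicit false
open scoped Pointwise

namespace H79KMW.PolyDilation

/-- For every dimension `d` there is an exponent `C` such that for every `v` a single factor
`k ≤ v ^ C` works for all full-dimensional lattice polytopes of normalized volume at most `v`. -/
theorem result :
    ∀ d : ℕ, ∃ C : ℕ, ∀ v : ℕ, 0 < v → ∃ k : ℕ, 0 < k ∧ k ≤ v ^ C ∧
      ∀ V : Finset (Fin d → ℝ),
        (∀ x ∈ V, ∀ i : Fin d, ∃ z : ℤ, x i = (z : ℝ)) →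
        (interior (convexHull ℝ (V : Set (Fin d → ℝ)))).Nonempty →
        MeasureTheory.volume (convexHull ℝ (V : Set (Fin d → ℝ))) ≤
          (v : ENNReal) / (d.factorial : ENNReal) →
        ∃ K : Geometry.SimplicialComplex ℝ (Fin d → ℝ),
          K.faces.Finite ∧
          K.space = (k : ℝ) • convexHull ℝ (V : Set (Fin d → ℝ)) ∧
          (∀ s ∈ K.faces, ∀ x ∈ s, ∀ i : Fin d, ∃ z : ℤ, x i = (z : ℝ)) ∧
          (∀ s ∈ K.faces, s.card = d + 1 →
            MeasureTheory.volume (convexHull ℝ (s : Set (Fin d → ℝ))) =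
              ((d.factorial : ENNReal))⁻¹) := by
  intro d
  obtain ⟨J, hJ⟩ := H79KMW.roundProp_all d
  refine ⟨4 * (d + 1) * J, fun v hv => ⟨J ^ (2 * (d + 1) * Nat.clog 2 v), pow_pos hJ.1 _,
    H79KMW.pow_bound d J v hv, fun V hV _ hvol => ?_⟩⟩
  exact H79KMW.main_poly hJ v hv V hV hvol

end H79KMW.PolyDilation
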