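import Pool.Agent.Work.MP_6237c7_co.LV.Final

set_option autoImplicit false
set_option linter.unusedSectionVars false

namespace H79KMW

open Finsupp

section prox
variable {n r : ℕ} (A : Fin r → Fin n → ℤ)

/-- Sign compatibility of `g` with `v`. -/
def Cf (g v : Fin n → ℝ) : Prop :=
  ∀ j, (0 ≤ ap (A j) v → 0 ≤ ap (A j) g) ∧ (ap (A j) v ≤ 0 → ap (A j) g ≤ 0)

variable {A}

lemma Cf.trans {g v u : Fin n → ℝ} (h : Cf A g v) (h' : Cf A v u) : Cf A g u :=
  fun j => ⟨fun hj => (h j).1 ((h' j).1 hj), fun hj => (h j).2 ((h' j).2 hj)⟩

lemma Cf.refl (v : Fin n → ℝ) : Cf A v v := fun _ => ⟨id, id⟩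

/-- The largest step keeping sign compatibility. -/
lemma shrink {v w : Fin n → ℝ} (hw : ∀ j, ap (A j) v = 0 → ap (A j) w = 0)
    (hex : ∃ j, 0 < ap (A j) w * ap (A j) v) :
    ∃ t : ℝ, 0 < t ∧ Cf A (v - t • w) v ∧ ∃ j, ap (A j) v ≠ 0 ∧ ap (A j) (v - t • w) = 0 := by
  classical
  let S : Finset (Fin r) := Finset.univ.filter (fun j => 0 < ap (A j) w * ap (A j) v)
  have hS : S.Nonempty := by
    obtain ⟨j, hj⟩ := hex
    exact ⟨j, Finset.mem_filter.2 ⟨Finset.mem_univ _, hj⟩⟩
  obtain ⟨j0, hj0, hmin⟩ := Finset.exists_min_image S (fun j => ap (A j) v / ap (A j) w) hS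
  have hj0' : 0 < ap (A j0) w * ap (A j0) v := (Finset.mem_filter.1 hj0).2
  have hw0 : ap (A j0) w ≠ 0 := by
    intro h; rw [h, zero_mul] at hj0'; exact lt_irrefl _ hj0'
  have hv0 : ap (A j0) v ≠ 0 := by
    intro h; rw [h, mul_zero] at hj0'; exact lt_irrefl _ hj0'
  set t : ℝ := ap (A j0) v / ap (A j0) w with ht
  have htpos : 0 < t := by
    rw [ht, div_eq_mul_inv]
    have h1 : 0 < ap (A j0) v * ap (A j0) w := by rw [mul_comm]; exact hj0'
    have h2 : ap (A j0) v * (ap (A j0) w)⁻¹ =
        ap (A j0) v * ap (A j0) w * ((ap (A j0) w)⁻¹) ^ 2 := by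
      field_simp
    rw [h2]
    have h3 : 0 < ((ap (A j0) w)⁻¹) ^ 2 := by positivity
    positivity
  have hval : ∀ j, ap (A j) (v - t • w) = ap (A j) v - t * ap (A j) w := by
    intro j
    have h1 : v = (v - t • w) + t • w := by abel
    have h2 : ap (A j) v = ap (A j) (v - t • w) + t * ap (A j) w := by
      conv_lhs => rw [h1]
      rw [ap_add, ap_smul]
    linarith
  refine ⟨t, htpos, fun j => ?_, j0, hv0, ?_⟩
  · rw [hval]
    rcases lt_trichotomy (ap (A j) v) 0 with h | h | h
    · refine ⟨fun h' => absurd h' (not_le.2 h), fun _ => ?_⟩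
      by_cases hw' : ap (A j) w < 0
      · have hjS : j ∈ S := Finset.mem_filter.2 ⟨Finset.mem_univ _, mul_pos_of_neg_of_neg hw' h⟩
        have h1 : t ≤ ap (A j) v / ap (A j) w := hmin j hjS
        have h2 : ap (A j) v / ap (A j) w * ap (A j) w = ap (A j) v := div_mul_cancel₀ _ hw'.ne
        have h3 : ap (A j) v / ap (A j) w * ap (A j) w ≤ t * ap (A j) w :=
          mul_le_mul_of_nonpos_right h1 hw'.le
        linarith
      · push Not at hw'
        have := mul_nonneg htpos.le hw'
        linarith
    · rw [h, hw j h, mul_zero, sub_zero]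
      exact ⟨fun _ => le_rfl, fun _ => le_rfl⟩
    · refine ⟨fun _ => ?_, fun h' => absurd h' (not_le.2 h)⟩
      by_cases hw' : 0 < ap (A j) w
      · have hjS : j ∈ S := Finset.mem_filter.2 ⟨Finset.mem_univ _, mul_pos hw' h⟩
        have h1 : t ≤ ap (A j) v / ap (A j) w := hmin j hjS
        have h2 : ap (A j) v / ap (A j) w * ap (A j) w = ap (A j) v := div_mul_cancel₀ _ hw'.ne'
        have h3 : t * ap (A j) w ≤ ap (A j) v / ap (A j) w * ap (A j) w :=
          mul_le_mul_of_nonneg_right h1 hw'.le
        linarith
      · push Not at hw'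
        have := mul_nonpos_of_nonneg_of_nonpos htpos.le hw'
        linarith
  · rw [hval, ht, div_mul_cancel₀ _ hw0, sub_self]

/-- Circuits. -/
lemma exists_circuit {Δ : ℕ} (hA : ∀ f : Fin n → Fin r,
      |(Matrix.of (fun i => A (f i))).det| ≤ (Δ : ℤ))
    (hinj : ∀ x : Fin n → ℝ, (∀ j, ap (A j) x = 0) → x = 0) :
    ∀ N : ℕ, ∀ v : Fin n → ℝ, v ≠ 0 →
      (Finset.univ.filter (fun j => ap (A j) v ≠ 0)).card ≤ N →
      ∃ g : Fin n → ℤ, rv g ≠ 0 ∧ Cf A (rv g) v ∧ ∀ j, |ap (A j) (rv g)| ≤ (Δ : ℝ) := by
  classical
  intro N
  induction N with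
  | zero =>
    intro v hv hc
    exfalso
    apply hv
    apply hinj
    intro j
    by_contra hne
    have : j ∈ Finset.univ.filter (fun j => ap (A j) v ≠ 0) :=
      Finset.mem_filter.2 ⟨Finset.mem_univ _, hne⟩
    rw [Finset.card_eq_zero.1 (Nat.le_zero.1 hc)] at this
    exact absurd this (Finset.notMem_empty _)
  | succ N ih =>
    intro v hv hc
    by_cases hpar : ∀ w : Fin n → ℝ, (∀ j, ap (A j) v = 0 → ap (A j) w = 0) → ∃ μ : ℝ, w = μ • v
    · -- the kernel is a line
      let vA : Fin r → (Fin n → ℝ) := fun j => rv (A j)
      have hap : ∀ (j : Fin r) (x : Fin n → ℝ), ap (A j) x = ∑ k, vA j k * x k := fun j x => rfl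
      -- independent rows among those vanishing on v
      let Z : Set (Fin r) := {j | ap (A j) v = 0}
      obtain ⟨κ, hκZ, _, hκspan, hκli⟩ := exists_linearIndepOn_extension (K := ℝ) (v := vA)
        (s := ∅) (t := Z) (linearIndepOn_empty ℝ vA) (Set.empty_subset _)
      obtain ⟨bb, _, hκb, hbspan, hbli⟩ := exists_linearIndepOn_extension (K := ℝ) (v := vA)
        (s := κ) (t := Set.univ) hκli (Set.subset_univ _)
      have hspanA : Submodule.span ℝ (Set.range vA) = ⊤ := by
        by_contra hne
        obtain ⟨g, hg0, hg⟩ := Submodule.exists_le_ker_of_lt_top _ (lt_top_iff_ne_top.2 hne)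
        apply hg0
        have hgform : ∀ y : Fin n → ℝ, g y = ∑ k, y k * g (Pi.single k 1) := by
          intro y
          conv_lhs => rw [pi_eq_sum_univ' y]
          rw [map_sum]
          refine Finset.sum_congr rfl fun k _ => ?_
          rw [map_smul, smul_eq_mul]
        have hz := hinj (fun k => g (Pi.single k 1)) (by
          intro j
          have h1 : vA j ∈ Submodule.span ℝ (Set.range vA) := Submodule.subset_span ⟨j, rfl⟩
          have h2 := hg h1
          rw [LinearMap.mem_ker, hgform] at h2
          exact h2)
        ext k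
        have := congrFun hz k
        simpa using this
      have hli' : LinearIndependent ℝ (fun x : bb => vA x) := hbli
      have hsp' : ⊤ ≤ Submodule.span ℝ (Set.range (fun x : bb => vA x)) := by
        rw [← hspanA, Submodule.span_le]
        rintro _ ⟨j, rfl⟩
        have h1 := hbspan ⟨j, Set.mem_univ _, rfl⟩
        have h2 : vA '' bb = Set.range (fun x : bb => vA x) := by
          rw [Set.image_eq_range]
        rw [h2] at h1
        exact h1
      let bs := Module.Basis.mk hli' hsp'
      have : Fintype bb := Fintype.ofFinite _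
      have hcard : Fintype.card bb = n := by
        have h1 := Module.finrank_eq_card_basis bs
        rw [Module.finrank_fin_fun] at h1
        exact h1.symm
      let e : Fin n ≃ bb := (Fintype.equivFinOfCardEq hcard).symm
      let f : Fin n → Fin r := fun i => (e i : Fin r)
      let M : Matrix (Fin n) (Fin n) ℤ := Matrix.of (fun i => A (f i))
      have hMdet : M.det ≠ 0 := by
        have hli2 : LinearIndependent ℝ (fun i => vA (e i)) := hli'.comp e e.injective
        have hunit : IsUnit (M.map (Int.castRingHom ℝ)) := by
          rw [← Matrix.linearIndependent_rows_iff_isUnit]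
          exact hli2
        intro h0
        rw [Matrix.isUnit_iff_isUnit_det, isUnit_iff_ne_zero] at hunit
        apply hunit
        have h1 := RingHom.map_det (Int.castRingHom ℝ) M
        rw [RingHom.mapMatrix_apply] at h1
        rw [← h1, h0, map_zero]
      -- a row of bb outside κ
      have hex : ∃ i : Fin n, ap (A (f i)) v ≠ 0 := by
        by_contra hcon
        push Not at hcon
        apply hv
        -- all rows of A kill v
        apply hinj
        intro j
        have h1 : vA j ∈ Submodule.span ℝ (Set.range (fun x : bb => vA x)) := hsp' trivial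
        have h2 : ∀ y ∈ Submodule.span ℝ (Set.range (fun x : bb => vA x)), ∑ k, y k * v k = 0 := by
          intro y hy
          induction hy using Submodule.span_induction with
          | mem y hy =>
            obtain ⟨x, rfl⟩ := hy
            have h3 := hcon (e.symm x)
            have h4 : f (e.symm x) = x := by simp [f]
            rw [h4] at h3
            exact h3
          | zero => simp
          | add y y' _ _ h h' => simp only [Pi.add_apply, add_mul, Finset.sum_add_distrib, h, h',
              add_zero]
          | smul c y _ h =>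
            simp only [Pi.smul_apply, smul_eq_mul, mul_assoc, ← Finset.mul_sum, h, mul_zero]
        exact h2 _ h1
      obtain ⟨i, hi⟩ := hex
      let g : Fin n → ℤ := fun k => M.adjugate k i
      have hgap : ∀ a : Fin n → ℤ, ∑ k, a k * g k = (M.updateRow i a).det := by
        intro a
        rw [← Matrix.cramer_transpose_apply, Matrix.cramer_eq_adjugate_mulVec,
          ← Matrix.adjugate_transpose]
        show _ = ∑ k, (M.adjugate k i) * a k
        exact Finset.sum_congr rfl fun k _ => mul_comm _ _
      have hgap' : ∀ a : Fin n → ℤ, ap a (rv g) = (((M.updateRow i a).det : ℤ) : ℝ) := by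
        intro a
        rw [← hgap]
        push_cast
        rfl
      have hgi : ap (A (f i)) (rv g) = ((M.det : ℤ) : ℝ) := by
        rw [hgap']
        have : M.updateRow i (A (f i)) = M := by
          have h1 : A (f i) = M i := rfl
          rw [h1, Matrix.updateRow_eq_self]
        rw [this]
      have hgl : ∀ l, l ≠ i → ap (A (f l)) (rv g) = 0 := by
        intro l hl
        rw [hgap']
        have : (M.updateRow i (A (f l))).det = 0 := by
          refine Matrix.det_zero_of_row_eq hl ?_
          rw [Matrix.updateRow_self, Matrix.updateRow_ne hl]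
          rfl
        rw [this, Int.cast_zero]
      have hgne : rv g ≠ 0 := by
        intro h
        rw [h] at hgi
        have h1 : ap (A (f i)) (0 : Fin n → ℝ) = 0 := by simp [ap]
        rw [h1] at hgi
        exact hMdet (by exact_mod_cast hgi.symm)
      have hgΔ : ∀ j, |ap (A j) (rv g)| ≤ (Δ : ℝ) := by
        intro j
        rw [hgap']
        have h1 : M.updateRow i (A j) = Matrix.of (fun l => A (Function.update f i j l)) := by
          ext l s
          by_cases hl : l = i
          · subst hl
            rw [Matrix.updateRow_self]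
            show A j s = A (Function.update f l j l) s
            rw [Function.update_self]
          · rw [Matrix.updateRow_ne hl]
            show A (f l) s = A (Function.update f i j l) s
            rw [Function.update_of_ne hl]
        rw [h1, ← Int.cast_abs]
        exact_mod_cast hA _
      -- g lies in the kernel
      have hgker : ∀ j, ap (A j) v = 0 → ap (A j) (rv g) = 0 := by
        intro j hj
        have h1 := hκspan ⟨j, hj, rfl⟩
        have h2 : ∀ y ∈ Submodule.span ℝ (vA '' κ), ∑ k, y k * (rv g) k = 0 := by
          intro y hy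
          induction hy using Submodule.span_induction with
          | mem y hy =>
            obtain ⟨x, hx, rfl⟩ := hy
            have hxb : x ∈ bb := hκb hx
            have h4 : f (e.symm ⟨x, hxb⟩) = x := by simp [f]
            have h5 : e.symm ⟨x, hxb⟩ ≠ i := by
              intro h6
              apply hi
              rw [← h6, h4]
              exact hκZ hx
            have h7 := hgl _ h5
            rw [h4] at h7
            exact h7
          | zero => simp
          | add y y' _ _ h h' => simp only [Pi.add_apply, add_mul, Finset.sum_add_distrib, h, h',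
              add_zero]
          | smul c y _ h =>
            simp only [Pi.smul_apply, smul_eq_mul, mul_assoc, ← Finset.mul_sum, h, mul_zero]
        exact h2 _ h1
      obtain ⟨μ, hμ⟩ := hpar (rv g) hgker
      rcases lt_trichotomy μ 0 with h | h | h
      · refine ⟨-g, ?_, ?_, ?_⟩
        · intro h0
          apply hgne
          funext k
          have h1 := congrFun h0 k
          have h2 : ((((-g) k : ℤ)) : ℝ) = 0 := h1
          rw [Pi.neg_apply, Int.cast_neg, neg_eq_zero] at h2
          exact h2
        · have hrv : rv (-g) = (-μ) • v := by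
            rw [neg_smul, ← hμ]
            funext k
            show (((-g) k : ℤ) : ℝ) = -((g k : ℤ) : ℝ)
            rw [Pi.neg_apply, Int.cast_neg]
          intro j
          rw [hrv, ap_smul]
          constructor
          · intro hj; exact mul_nonneg (by linarith) hj
          · intro hj; exact mul_nonpos_of_nonneg_of_nonpos (by linarith) hj
        · intro j
          have hrv : rv (-g) = (-1 : ℝ) • rv g := by
            funext k
            show (((-g) k : ℤ) : ℝ) = (-1) * ((g k : ℤ) : ℝ)
            rw [Pi.neg_apply, Int.cast_neg]; ring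
          rw [hrv, ap_smul, abs_mul, abs_neg, abs_one, one_mul]
          exact hgΔ j
      · exfalso
        rw [h, zero_smul] at hμ
        exact hgne hμ
      · refine ⟨g, hgne, ?_, hgΔ⟩
        intro j
        rw [hμ, ap_smul]
        constructor
        · intro hj; exact mul_nonneg h.le hj
        · intro hj; exact mul_nonpos_of_nonneg_of_nonpos h.le hj
    · push Not at hpar
      obtain ⟨w0, hw0, hw0v⟩ := hpar
      have hw0ne : w0 ≠ 0 := by
        intro h
        exact hw0v 0 (by rw [h, zero_smul])
      obtain ⟨j, hj⟩ : ∃ j, ap (A j) w0 ≠ 0 := by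
        by_contra hcon
        push Not at hcon
        exact hw0ne (hinj w0 hcon)
      have hjv : ap (A j) v ≠ 0 := fun h => hj (hw0 j h)
      -- a good sign
      obtain ⟨w, hw, hwv, hwj⟩ : ∃ w : Fin n → ℝ, (∀ j, ap (A j) v = 0 → ap (A j) w = 0) ∧
          (∀ μ : ℝ, w ≠ μ • v) ∧ 0 < ap (A j) w * ap (A j) v := by
        rcases lt_or_gt_of_ne (mul_ne_zero hj hjv) with h | h
        · refine ⟨(-1 : ℝ) • w0, ?_, ?_, ?_⟩
          · intro l hl; rw [ap_smul, hw0 l hl, mul_zero]
          · intro μ hμ
            apply hw0v (-μ)
            rw [neg_smul, ← hμ, neg_smul, one_smul, neg_neg]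
          · rw [ap_smul]; nlinarith
        · exact ⟨w0, hw0, hw0v, h⟩
      obtain ⟨t, ht, hcf, j0, hj0, hj0'⟩ := shrink hw ⟨j, hwj⟩
      have hne : v - t • w ≠ 0 := by
        intro h
        apply hwv t⁻¹
        have h1 : v = t • w := sub_eq_zero.1 h
        rw [h1, smul_smul, inv_mul_cancel₀ ht.ne', one_smul]
      have hcard : (Finset.univ.filter (fun j => ap (A j) (v - t • w) ≠ 0)).card ≤ N := by
        have hsub : Finset.univ.filter (fun j => ap (A j) (v - t • w) ≠ 0) ⊂
            Finset.univ.filter (fun j => ap (A j) v ≠ 0) := by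
          constructor
          · intro l hl
            refine Finset.mem_filter.2 ⟨Finset.mem_univ _, fun h0 => ?_⟩
            apply (Finset.mem_filter.1 hl).2
            exact le_antisymm ((hcf l).2 h0.le) ((hcf l).1 h0.ge)
          · intro hcon
            have h1 : j0 ∈ Finset.univ.filter (fun j => ap (A j) v ≠ 0) :=
              Finset.mem_filter.2 ⟨Finset.mem_univ _, hj0⟩
            exact (Finset.mem_filter.1 (hcon h1)).2 hj0'
        have := Finset.card_lt_card hsub
        omega
      obtain ⟨g, hg1, hg2, hg3⟩ := ih _ hne hcard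
      exact ⟨g, hg1, hg2.trans hcf, hg3⟩

end prox

end H79KMW
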